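import Pool.Agent.Lib.MP_602b76_co_Plane.Chains

/-!
# One far generator in the plane: chains

`V` is a finite subset of `ℤ × ℤ` which generates it, and for a homomorphism `σ` to a group `A`
and a finite `S ⊆ A`, `fS σ V S` is the number of chains of `S` with steps `σ v`, `v ∈ V`.
-/

namespace Pool.Agent.Lib.MP_602b76_co_Far

open Finset Pool.Agent.Lib.MP_602b76_co_Plane

/-- The lattice. -/
abbrev Z2 := ℤ × ℤ

section general

variable {A : Type*} [AddCommGroup A] [DecidableEq A]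

theorem ch_zero (S : Finset A) : ch (0 : A) S = 0 := by
  unfold ch
  rw [Finset.card_eq_zero, Finset.filter_eq_empty_iff]
  intro x hx
  simp [hx]

theorem ch_le_card (v : A) (S : Finset A) : ch v S ≤ S.card := card_le_card (filter_subset _ _)

theorem ch_add_le (s t : A) (S : Finset A) : ch (s + t) S ≤ ch s S + ch t S := by
  unfold ch
  have h1 : S.filter (fun x => x + (s + t) ∉ S) ⊆
      S.filter (fun x => x + s ∉ S) ∪
        (S.filter (fun x => x + t ∉ S)).image (fun x => x - s) := by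
    intro x hx
    rw [mem_filter] at hx
    rw [mem_union, mem_filter, mem_image]
    by_cases h : x + s ∈ S
    · right
      refine ⟨x + s, ?_, by abel⟩
      rw [mem_filter]
      refine ⟨h, ?_⟩
      have : x + s + t = x + (s + t) := by abel
      rw [this]
      exact hx.2
    · left
      exact ⟨hx.1, h⟩
  calc (S.filter (fun x => x + (s + t) ∉ S)).card
      ≤ _ := card_le_card h1
    _ ≤ _ := card_union_le _ _
    _ ≤ (S.filter (fun x => x + s ∉ S)).card + (S.filter (fun x => x + t ∉ S)).card :=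
        Nat.add_le_add_left card_image_le _

theorem ch_nsmul_le (n : ℕ) (s : A) (S : Finset A) : ch (n • s) S ≤ n * ch s S := by
  induction n with
  | zero => rw [zero_smul, ch_zero]; exact Nat.zero_le _
  | succ n ih =>
    rw [succ_nsmul]
    refine le_trans (ch_add_le _ _ _) ?_
    rw [Nat.succ_mul]
    exact Nat.add_le_add_right ih _

theorem ch_union_le (v : A) (S T : Finset A) : ch v (S ∪ T) ≤ ch v S + ch v T := by
  unfold ch
  refine le_trans (card_le_card ?_) (card_union_le _ _)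
  intro x hx
  rw [mem_filter, mem_union, mem_union, not_or] at hx
  rw [mem_union, mem_filter, mem_filter]
  rcases hx with ⟨h | h, h1, h2⟩
  · exact Or.inl ⟨h, h1⟩
  · exact Or.inr ⟨h, h2⟩

theorem ch_translate (v t : A) (S : Finset A) : ch v (S.image (fun x => x + t)) = ch v S := by
  unfold ch
  symm
  apply Finset.card_bij (fun x _ => x + t)
  · intro x hx
    rw [mem_filter] at hx
    rw [mem_filter]
    refine ⟨mem_image_of_mem _ hx.1, fun h => hx.2 ?_⟩
    rw [mem_image] at h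
    obtain ⟨y, hy, hyx⟩ := h
    have : y = x + v := by
      have h1 : y + t = x + v + t := by rw [hyx]; abel
      exact add_right_cancel h1
    rwa [← this]
  · intro x _ y _ h
    exact add_right_cancel h
  · intro y hy
    rw [mem_filter, mem_image] at hy
    obtain ⟨⟨x, hx, rfl⟩, h⟩ := hy
    refine ⟨x, ?_, rfl⟩
    rw [mem_filter]
    refine ⟨hx, fun h' => h ?_⟩
    rw [mem_image]
    exact ⟨x + v, h', by abel⟩

/-- The number of chains with the steps `σ v`, `v ∈ V`. -/
def fS (σ : Z2 →+ A) (V : Finset Z2) (S : Finset A) : ℕ := ∑ v ∈ V, ch (σ v) S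

theorem fS_union_le (σ : Z2 →+ A) (V : Finset Z2) (S T : Finset A) :
    fS σ V (S ∪ T) ≤ fS σ V S + fS σ V T := by
  unfold fS
  rw [← Finset.sum_add_distrib]
  exact Finset.sum_le_sum (fun v _ => ch_union_le _ _ _)

theorem fS_translate (σ : Z2 →+ A) (V : Finset Z2) (t : A) (S : Finset A) :
    fS σ V (S.image (fun x => x + t)) = fS σ V S := by
  unfold fS
  exact Finset.sum_congr rfl (fun v _ => ch_translate _ _ _)

theorem fS_le_card (σ : Z2 →+ A) (V : Finset Z2) (S : Finset A) :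
    fS σ V S ≤ V.card * S.card := by
  unfold fS
  rw [← smul_eq_mul, ← Finset.sum_const]
  exact Finset.sum_le_sum (fun v _ => ch_le_card _ _)

theorem ch_le_fS (σ : Z2 →+ A) {V : Finset Z2} {v : Z2} (hv : v ∈ V) (S : Finset A) :
    ch (σ v) S ≤ fS σ V S :=
  Finset.single_le_sum (f := fun v => ch (σ v) S) (fun _ _ => Nat.zero_le _) hv

end general

/-- **Paths.** The number of chains of any step is bounded by the number of chains with steps in
`V`, uniformly in the group. -/
theorem path_bound (V : Finset Z2) {s : Z2} (hs : s ∈ AddSubgroup.closure (V : Set Z2)) :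
    ∃ L : ℕ, ∀ (A : Type) [AddCommGroup A] [DecidableEq A] (σ : Z2 →+ A) (S : Finset A),
      ch (σ s) S ≤ L * fS σ V S := by
  induction hs using AddSubgroup.closure_induction with
  | mem z hz =>
    refine ⟨1, fun A _ _ σ S => ?_⟩
    rw [one_mul]
    exact ch_le_fS σ hz S
  | zero =>
    refine ⟨0, fun A _ _ σ S => ?_⟩
    rw [map_zero, ch_zero]
    exact Nat.zero_le _
  | add s t _ _ hs ht =>
    obtain ⟨L, hL⟩ := hs
    obtain ⟨M, hM⟩ := ht
    refine ⟨L + M, fun A _ _ σ S => ?_⟩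
    rw [add_mul, map_add]
    exact le_trans (ch_add_le _ _ S) (add_le_add (hL A σ S) (hM A σ S))
  | neg s _ hs =>
    obtain ⟨L, hL⟩ := hs
    refine ⟨L, fun A _ _ σ S => ?_⟩
    rw [map_neg, ch_neg]
    exact hL A σ S

theorem path_bound_top {V : Finset Z2} (hV : AddSubgroup.closure (V : Set Z2) = ⊤) (s : Z2) :
    ∃ L : ℕ, ∀ (A : Type) [AddCommGroup A] [DecidableEq A] (σ : Z2 →+ A) (S : Finset A),
      ch (σ s) S ≤ L * fS σ V S :=
  path_bound V (by rw [hV]; exact AddSubgroup.mem_top _)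

/-- A common bound for a finite set of steps. -/
theorem paths_bound {V : Finset Z2} (hV : AddSubgroup.closure (V : Set Z2) = ⊤) (R : Finset Z2) :
    ∃ L : ℕ, ∀ (A : Type) [AddCommGroup A] [DecidableEq A] (σ : Z2 →+ A) (S : Finset A),
      ∑ s ∈ R, ch (σ s) S ≤ L * fS σ V S := by
  choose L hL using path_bound_top hV
  refine ⟨∑ s ∈ R, L s, fun A _ _ σ S => ?_⟩
  rw [Finset.sum_mul]
  exact Finset.sum_le_sum (fun s _ => hL s A σ S)

/-! ## Subsets of the lattice -/

/-- The number of chains of a finite subset of the lattice. -/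
def ff (V S : Finset Z2) : ℕ := fS (AddMonoidHom.id Z2) V S

theorem ff_def (V S : Finset Z2) : ff V S = ∑ v ∈ V, ch v S := rfl

/-- The plain bound in the lattice. -/
theorem card_le_mul (S : Finset Z2) : S.card ≤ ch ((1, 0) : Z2) S * ch ((0, 1) : Z2) S := by
  have h1 : (S.image Prod.snd).card ≤ ch ((1, 0) : Z2) S :=
    image_le_ch S Prod.snd Prod.fst (fun x _ _ => by simp) (fun x _ _ => by simp)
  have h2 : (S.image Prod.fst).card ≤ ch ((0, 1) : Z2) S :=
    image_le_ch S Prod.fst Prod.snd (fun x _ _ => by simp) (fun x _ _ => by simp)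
  have h3 : S ⊆ (S.image Prod.fst) ×ˢ (S.image Prod.snd) := by
    intro x hx
    rw [mem_product]
    exact ⟨mem_image_of_mem _ hx, mem_image_of_mem _ hx⟩
  have h4 := card_le_card h3
  rw [card_product] at h4
  calc S.card ≤ (S.image Prod.fst).card * (S.image Prod.snd).card := h4
    _ ≤ ch ((0, 1) : Z2) S * ch ((1, 0) : Z2) S := Nat.mul_le_mul h2 h1
    _ = _ := mul_comm _ _

/-- **Crude lower bound.** -/
theorem crude {V : Finset Z2} (hV : AddSubgroup.closure (V : Set Z2) = ⊤) :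
    ∃ L : ℕ, 0 < L ∧ ∀ S : Finset Z2, S.card ≤ (L * ff V S) ^ 2 ∧
      ch ((1, 0) : Z2) S + ch ((0, 1) : Z2) S ≤ L * ff V S := by
  obtain ⟨L1, h1⟩ := path_bound_top hV (1, 0)
  obtain ⟨L2, h2⟩ := path_bound_top hV (0, 1)
  refine ⟨L1 + L2 + 1, by omega, fun S => ?_⟩
  have g1 : ch ((1, 0) : Z2) S ≤ L1 * ff V S := h1 Z2 (AddMonoidHom.id Z2) S
  have g2 : ch ((0, 1) : Z2) S ≤ L2 * ff V S := h2 Z2 (AddMonoidHom.id Z2) S
  have g3 : ch ((1, 0) : Z2) S + ch ((0, 1) : Z2) S ≤ (L1 + L2 + 1) * ff V S := by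
    have e : (L1 + L2 + 1) * ff V S = L1 * ff V S + L2 * ff V S + ff V S := by ring
    omega
  refine ⟨?_, g3⟩
  calc S.card ≤ ch ((1, 0) : Z2) S * ch ((0, 1) : Z2) S := card_le_mul S
    _ ≤ ((L1 + L2 + 1) * ff V S) * ((L1 + L2 + 1) * ff V S) :=
        Nat.mul_le_mul (by omega) (by omega)
    _ = _ := by ring

/-- The square `[0, a) × [0, a)`. -/
def sq (a : ℕ) : Finset Z2 := (range a ×ˢ range a).image (fun p => ((p.1 : ℤ), (p.2 : ℤ)))

theorem mem_sq {a : ℕ} {x : Z2} : x ∈ sq a ↔ ∃ i j : ℕ, i < a ∧ j < a ∧ x = ((i : ℤ), (j : ℤ)) := by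
  unfold sq
  rw [mem_image]
  constructor
  · rintro ⟨⟨i, j⟩, h, rfl⟩
    rw [mem_product, mem_range, mem_range] at h
    exact ⟨i, j, h.1, h.2, rfl⟩
  · rintro ⟨i, j, hi, hj, rfl⟩
    exact ⟨(i, j), by rw [mem_product, mem_range, mem_range]; exact ⟨hi, hj⟩, rfl⟩

theorem card_sq (a : ℕ) : (sq a).card = a * a := by
  unfold sq
  rw [card_image_of_injective, card_product, card_range]
  rintro ⟨i, j⟩ ⟨i', j'⟩ h
  simp only [Prod.mk.injEq, Nat.cast_inj] at h
  rw [h.1, h.2]

theorem ch_sq_one (a : ℕ) : ch ((1, 0) : Z2) (sq a) ≤ a := by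
  unfold ch
  have h : (sq a).filter (fun x => x + ((1, 0) : Z2) ∉ sq a) ⊆
      (range a).image (fun j : ℕ => (((a - 1 : ℕ) : ℤ), (j : ℤ))) := by
    intro x hx
    rw [mem_filter] at hx
    obtain ⟨hx1, hx2⟩ := hx
    obtain ⟨i, j, hi, hj, rfl⟩ := mem_sq.1 hx1
    rw [mem_image]
    refine ⟨j, mem_range.2 hj, ?_⟩
    have : a - 1 = i := by
      by_contra hne
      apply hx2
      rw [mem_sq]
      exact ⟨i + 1, j, by omega, hj, by simp⟩
    rw [this]
  refine le_trans (card_le_card h) (le_trans card_image_le ?_)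
  rw [card_range]

theorem ch_sq_two (a : ℕ) : ch ((0, 1) : Z2) (sq a) ≤ a := by
  unfold ch
  have h : (sq a).filter (fun x => x + ((0, 1) : Z2) ∉ sq a) ⊆
      (range a).image (fun i : ℕ => ((i : ℤ), ((a - 1 : ℕ) : ℤ))) := by
    intro x hx
    rw [mem_filter] at hx
    obtain ⟨hx1, hx2⟩ := hx
    obtain ⟨i, j, hi, hj, rfl⟩ := mem_sq.1 hx1
    rw [mem_image]
    refine ⟨i, mem_range.2 hi, ?_⟩
    have : a - 1 = j := by
      by_contra hne
      apply hx2
      rw [mem_sq]
      exact ⟨i, j + 1, hi, by omega, by simp⟩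
    rw [this]
  refine le_trans (card_le_card h) (le_trans card_image_le ?_)
  rw [card_range]

/-- The chains of any step in terms of the two basic steps. -/
theorem ch_le_basic {A : Type*} [AddCommGroup A] [DecidableEq A] (σ : Z2 →+ A) (x : Z2)
    (S : Finset A) :
    ch (σ x) S ≤ x.1.natAbs * ch (σ (1, 0)) S + x.2.natAbs * ch (σ (0, 1)) S := by
  have hz : ∀ (n : ℤ) (s : A), ch (n • s) S ≤ n.natAbs * ch s S := by
    intro n s
    obtain ⟨k, rfl | rfl⟩ := Int.eq_nat_or_neg n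
    · rw [natCast_zsmul, Int.natAbs_natCast]
      exact ch_nsmul_le k s S
    · rw [neg_smul, natCast_zsmul, ch_neg, Int.natAbs_neg, Int.natAbs_natCast]
      exact ch_nsmul_le k s S
  have e : x = x.1 • ((1, 0) : Z2) + x.2 • ((0, 1) : Z2) := by
    ext <;> simp
  calc ch (σ x) S = ch (x.1 • σ (1, 0) + x.2 • σ (0, 1)) S := by
        conv_lhs => rw [e]
        rw [map_add, map_zsmul, map_zsmul]
    _ ≤ _ := ch_add_le _ _ _
    _ ≤ _ := add_le_add (hz _ _) (hz _ _)

/-- **Crude upper bound** for all images of a square. -/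
theorem fS_le_basic (V : Finset Z2) : ∃ K : ℕ, 0 < K ∧ ∀ (A : Type) [AddCommGroup A]
    [DecidableEq A] (σ : Z2 →+ A) (S : Finset A),
      fS σ V S ≤ K * (ch (σ (1, 0)) S + ch (σ (0, 1)) S) := by
  refine ⟨(∑ v ∈ V, (v.1.natAbs + v.2.natAbs)) + 1, by omega, fun A _ _ σ S => ?_⟩
  unfold fS
  calc ∑ v ∈ V, ch (σ v) S ≤
      ∑ v ∈ V, (v.1.natAbs + v.2.natAbs) * (ch (σ (1, 0)) S + ch (σ (0, 1)) S) := by
        apply Finset.sum_le_sum
        intro v _
        refine le_trans (ch_le_basic σ v S) ?_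
        have e : (v.1.natAbs + v.2.natAbs) * (ch (σ (1, 0)) S + ch (σ (0, 1)) S) =
            v.1.natAbs * ch (σ (1, 0)) S + v.2.natAbs * ch (σ (0, 1)) S +
              (v.1.natAbs * ch (σ (0, 1)) S + v.2.natAbs * ch (σ (1, 0)) S) := by ring
        omega
    _ = (∑ v ∈ V, (v.1.natAbs + v.2.natAbs)) * (ch (σ (1, 0)) S + ch (σ (0, 1)) S) := by
        rw [Finset.sum_mul]
    _ ≤ _ := Nat.mul_le_mul_right _ (Nat.le_succ _)

theorem ff_sq_le (V : Finset Z2) : ∃ K : ℕ, 0 < K ∧ ∀ a : ℕ, ff V (sq a) ≤ K * a := by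
  obtain ⟨K, hK, h⟩ := fS_le_basic V
  refine ⟨2 * K, by omega, fun a => ?_⟩
  have h1 := h Z2 (AddMonoidHom.id Z2) (sq a)
  have h2 := ch_sq_one a
  have h3 := ch_sq_two a
  refine le_trans h1 ?_
  calc K * (ch ((AddMonoidHom.id Z2) (1, 0)) (sq a) + ch ((AddMonoidHom.id Z2) (0, 1)) (sq a))
      ≤ K * (a + a) := Nat.mul_le_mul_left _ (add_le_add h2 h3)
    _ = 2 * K * a := by ring

end Pool.Agent.Lib.MP_602b76_co_Far
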