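import Pool.Agent.Lib.MP_602b76_co_Far.Costs

/-!
# One far generator in the plane: the core
-/

namespace Pool.Agent.Lib.MP_602b76_co_Far

open Finset Pool.Agent.Lib.MP_602b76_co_Plane

/-- **The core.** There is a number `C0` such that no set with exactly `C0` classes is optimal,
and no large set with at most `C0` classes is. -/
theorem far_core {V : Finset Z2} (hV : AddSubgroup.closure (V : Set Z2) = ⊤) :
    ∃ B : ℝ, 0 ≤ B ∧ ∀ {H G : Type} [AddCommGroup H] [DecidableEq H] [AddCommGroup G]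
      [DecidableEq G] {p : H →+ G} {b : H} {μ : H →+ ℤ}, Tower p b μ → ∀ {ι : Z2 →+ H} {β : Z2},
        Cyl (p.comp ι) β → B < EE V β →
          (∑ v ∈ V, ((μ (ι v)).natAbs : ℝ)) ≤ 1 / 10000 * μ b →
            ∃ C0 : ℕ, ∀ S : Finset H, (S.image p).card ≤ C0 →
              ((S.image p).card = C0 ∨ 6 * (EE V β : ℝ) ^ 3 / cst V ^ 4 ≤ S.card) →
              ∃ S' : Finset H, S'.card = S.card ∧ tau ι b V S' < tau ι b V S := by
  have hc0 := cst_pos hV
  obtain ⟨B0, hB00, hB0⟩ := cost_rest hV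
  obtain ⟨B1, hB10, hB1⟩ := cost_one hV
  obtain ⟨B2, hB20, hB2⟩ := cost_two hV (K := 6 / 5) (by norm_num) (by norm_num)
  obtain ⟨B4, hB40, hB4⟩ := cost_two hV (K := 4) (by norm_num) (by norm_num)
  obtain ⟨B3, hB3⟩ := profile_lower hV (ε := 1 / 1000) (by norm_num) (by norm_num)
  refine ⟨B0 + B1 + B2 + B4 + |B3| + 2000 * cst V, by positivity, ?_⟩
  intro H G _ _ _ _ p b μ t ι β hcyl hB hκ
  have hB3' := le_abs_self B3
  have hB3'' := abs_nonneg B3
  have hrest := hB0 t hcyl (by linarith) hκ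
  have hone := hB1 t hcyl (by linarith) hκ hrest
  have htwo := hB2 t hcyl (by linarith) hκ hrest
  have hfour := hB4 t hcyl (by linarith) hκ hrest
  obtain ⟨c, hc⟩ : ∃ c, c = cst V := ⟨_, rfl⟩
  rw [← hc] at hc0 hone htwo hfour hB ⊢
  obtain ⟨E, hE⟩ : ∃ E : ℝ, E = EE V β := ⟨_, rfl⟩
  rw [← hE] at hone htwo hfour hB ⊢
  obtain ⟨r, hr⟩ : ∃ r, r = E / c := ⟨_, rfl⟩
  rw [← hr] at hone htwo hfour
  have hEr : E = c * r := by rw [hr]; field_simp
  have hr1 : 2000 < r := by
    rw [hr, lt_div_iff₀ hc0]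
    linarith
  have hr0 : 0 < r := by linarith
  have hrr : 2000 * r ≤ r ^ 2 := by nlinarith
  obtain ⟨C0, hC0⟩ : ∃ C0, C0 = ⌈r ^ 2⌉₊ := ⟨_, rfl⟩
  have hC1 : r ^ 2 ≤ C0 := by
    rw [hC0]
    exact Nat.le_ceil _
  have hC2 : (C0 : ℝ) < r ^ 2 + 1 := by
    rw [hC0]
    exact Nat.ceil_lt_add_one (by positivity)
  have hC3 : (0 : ℝ) < C0 := by nlinarith
  refine ⟨C0, fun S hSC hS => ?_⟩
  -- the lower bound
  have hlay : ∀ k ∈ range S.card, (1 - 1 / 1000) * E * (layer p S k).card ≤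
      C0 * fS (p.comp ι) V (layer p S k) := by
    intro k _
    have h1 := hB3 hcyl (by rw [← hE]; linarith) C0 (by
      rw [← hc, ← hE, hEr]
      apply mul_le_mul_of_nonneg_left _ hc0.le
      apply Real.le_sqrt_of_sq_le
      exact hC1) (layer p S k) (by
      have h2 : (layer p S k).card ≤ (S.image p).card := card_le_card (filter_subset _ _)
      exact_mod_cast le_trans h2 hSC)
    rw [← hE] at h1
    exact h1
  have hsum := Finset.sum_le_sum hlay
  rw [← Finset.mul_sum, ← Finset.mul_sum] at hsum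
  have hs1 : (∑ k ∈ range S.card, ((layer p S k).card : ℝ)) = S.card := by
    have := sum_card_layer p S
    exact_mod_cast this
  have hs2 : (∑ k ∈ range S.card, (fS (p.comp ι) V (layer p S k) : ℝ)) ≤ fS ι V S := by
    have h1 : ∑ k ∈ range S.card, fS (p.comp ι) V (layer p S k) ≤ fS ι V S := by
      unfold fS
      rw [Finset.sum_comm]
      exact Finset.sum_le_sum (fun v _ => sum_ch_layer p S (ι v))
    exact_mod_cast h1
  rw [hs1] at hsum
  have hlow1 : (1 - 1 / 1000) * E * S.card ≤ C0 * fS ι V S :=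
    le_trans hsum (mul_le_mul_of_nonneg_left hs2 hC3.le)
  have hlow2 : ((S.image p).card : ℝ) ≤ ch b S := by
    have h1 : (S.image p).card ≤ ch b S := image_le_ch S p μ
      (fun x _ _ => by rw [map_add, t.base, add_zero])
      (fun x _ _ => by
        rw [map_add]
        have := t.pos
        linarith)
    exact_mod_cast h1
  obtain ⟨n, hn⟩ : ∃ n, n = S.card := ⟨_, rfl⟩
  obtain ⟨X, hX⟩ : ∃ X : ℝ, X = n * c / r := ⟨_, rfl⟩
  have hX0 : 0 ≤ X := by rw [hX]; positivity
  have hXr : X * r = n * c := by rw [hX]; field_simp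
  rw [← hn] at hlow1 hS
  have hlow3 : 998 / 1000 * X ≤ fS ι V S := by
    have h1 : C0 * (998 / 1000 * X) ≤ C0 * fS ι V S := by
      have h2 : (C0 : ℝ) * X ≤ (r ^ 2 + 1) * X := mul_le_mul_of_nonneg_right hC2.le hX0
      have h3 : E * n = X * r ^ 2 := by
        rw [hEr]
        calc c * r * n = (n * c) * r := by ring
          _ = (X * r) * r := by rw [hXr]
          _ = _ := by ring
      have h4 : 2000 * X ≤ r ^ 2 * X := by
        apply mul_le_mul_of_nonneg_right _ hX0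
        nlinarith
      have h5 : (1 - 1 / 1000) * E * n = (1 - 1 / 1000) * (X * r ^ 2) := by rw [← h3]; ring
      rw [h5] at hlow1
      nlinarith
    exact le_of_mul_le_mul_left h1 hC3
  have hτ : (tau ι b V S : ℝ) = fS ι V S + ch b S := by
    unfold tau
    push_cast
    rfl
  -- the competitors
  by_contra hcon
  push Not at hcon
  obtain ⟨S1, hS1, hS1'⟩ := hone n
  obtain ⟨S2, hS2, hS2'⟩ := htwo n
  obtain ⟨S4, hS4, hS4'⟩ := hfour n
  rw [← hX] at hS1' hS2' hS4'
  have k1 : (tau ι b V S : ℝ) ≤ tau ι b V S1 := by exact_mod_cast hcon S1 (by rw [hS1, hn])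
  have k2 : (tau ι b V S : ℝ) ≤ tau ι b V S2 := by exact_mod_cast hcon S2 (by rw [hS2, hn])
  have k4 : (tau ι b V S : ℝ) ≤ tau ι b V S4 := by exact_mod_cast hcon S4 (by rw [hS4, hn])
  have hr2 : 0 < r ^ 2 := by positivity
  have e2 : X / (6 / 5 - 1 / 1000) = 1000 / 1199 * X := by
    rw [show (6 / 5 - 1 / 1000 : ℝ) = 1199 / 1000 by norm_num]
    field_simp
  have e4 : X / (4 - 1 / 1000) = 1000 / 3999 * X := by
    rw [show (4 - 1 / 1000 : ℝ) = 3999 / 1000 by norm_num]
    field_simp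
  rw [e2] at hS2'
  rw [e4] at hS4'
  have hch0 : (0 : ℝ) ≤ ch b S := Nat.cast_nonneg _
  rcases hS with hS | hS
  · rw [hS] at hlow2
    linarith
  · have h1 : 6 * r ^ 2 ≤ X := by
      rw [hX, le_div_iff₀ hr0]
      have h2 : 6 * E ^ 3 / c ^ 4 * c = 6 * r ^ 2 * r := by
        rw [hEr]
        field_simp
      rw [← h2]
      exact mul_le_mul_of_nonneg_right hS hc0.le
    linarith

end Pool.Agent.Lib.MP_602b76_co_Far
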