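import Pool.Agent.Lib.MP_602b76_co_Far.Profile

/-!
# One far generator in the plane: strips around the cylinder
-/

namespace Pool.Agent.Lib.MP_602b76_co_Far

open Finset Pool.Agent.Lib.MP_602b76_co_Plane

variable {G : Type} [AddCommGroup G] [DecidableEq G]

/-- **Strips.** There is a divisor `g ≤ E` such that every multiple of `g` is the size of a set
with at most `E` lines. -/
theorem strip {π : Z2 →+ G} {β : Z2} (hc : Cyl π β) {V : Finset Z2} (hE : 0 < EE V β) :
    ∃ g : ℕ, 0 < g ∧ g ≤ EE V β ∧ ∀ I : ℕ, ∃ T : Finset G, T.card = I * g ∧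
      fS π V T ≤ EE V β := by
  have hβ : β ≠ 0 := by
    rintro rfl
    unfold EE at hE
    have : ∀ v ∈ V, (det v (0 : Z2)).natAbs = 0 := by
      intro v _
      unfold det
      simp
    rw [Finset.sum_congr rfl this] at hE
    simp at hE
  obtain ⟨g, β0, a, hg, hβ0, hdet⟩ := exists_basis hβ
  have hdv : ∀ v, det v β = g * det v β0 := fun v => by rw [hβ0, det_smul]
  refine ⟨g, hg, ?_, ?_⟩
  · have h1 : EE V β = g * ∑ v ∈ V, (det v β0).natAbs := by
      unfold EE
      rw [Finset.mul_sum]
      refine Finset.sum_congr rfl (fun v _ => ?_)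
      rw [hdv, Int.natAbs_mul, Int.natAbs_natCast]
    rw [h1] at hE ⊢
    exact Nat.le_mul_of_pos_right _ (Nat.pos_of_mul_pos_left hE)
  · intro I
    -- the coordinates
    have hcoord : ∀ v : Z2, v = det β0 v • a + det v a • β0 := by
      intro v
      have h1 : det β0 a = β0.1 * a.2 - β0.2 * a.1 := rfl
      rw [hdet] at h1
      ext
      · simp only [det, Prod.fst_add, Prod.smul_fst, smul_eq_mul]
        linear_combination v.1 * h1
      · simp only [det, Prod.snd_add, Prod.smul_snd, smul_eq_mul]
        linear_combination v.2 * h1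
    obtain ⟨F, hF⟩ : ∃ F : ℕ × ℕ → G, F = fun q => π ((q.1 : ℤ) • a + (q.2 : ℤ) • β0) := ⟨_, rfl⟩
    have hinj : Set.InjOn F (range I ×ˢ range g : Finset (ℕ × ℕ)) := by
      rintro ⟨i, j⟩ hq ⟨i', j'⟩ hq' heq
      rw [Finset.mem_coe, mem_product, mem_range, mem_range] at hq hq'
      simp only [hF] at heq hq hq'
      obtain ⟨t, ht⟩ := hc.ker (((i : ℤ) • a + (j : ℤ) • β0) - ((i' : ℤ) • a + (j' : ℤ) • β0))
        (by rw [map_sub, heq, sub_self])
      have h1 := congrArg (det β0) ht
      rw [det_sub, det_add, det_add, det_smul, det_smul, det_smul, det_smul, det_self, hdet,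
        det_smul, hβ0, det_smul, det_self] at h1
      have h2 := congrArg (fun x => det x a) ht
      rw [sub_det, add_det, add_det, smul_det, smul_det, smul_det, smul_det, det_self, hdet,
        smul_det, hβ0, smul_det, hdet] at h2
      have h3 : (i : ℤ) = i' := by linarith
      have h4 : (j : ℤ) - j' = t * g := by linarith
      have ht0 : t = 0 := by
        by_contra hne
        have hgz : (0 : ℤ) < g := by exact_mod_cast hg
        rcases lt_or_gt_of_ne hne with hlt | hgt
        · have : t * g ≤ -1 * g := mul_le_mul_of_nonneg_right (by omega) hgz.le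
          omega
        · have : 1 * g ≤ t * g := mul_le_mul_of_nonneg_right (by omega) hgz.le
          omega
      rw [ht0, zero_mul] at h4
      rw [Prod.mk.injEq]
      exact ⟨by exact_mod_cast h3, by omega⟩
    obtain ⟨T, hT⟩ : ∃ T : Finset G, T = (range I ×ˢ range g).image F := ⟨_, rfl⟩
    refine ⟨T, ?_, ?_⟩
    · rw [hT, card_image_of_injOn hinj, card_product, card_range, card_range]
    -- membership
    have hmem : ∀ (i j : ℤ), 0 ≤ i → i < I → π (i • a + j • β0) ∈ T := by
      intro i j hi0 hi
      rw [hT, mem_image]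
      have hgz : (0 : ℤ) < g := by exact_mod_cast hg
      have h1 := Int.emod_nonneg j hgz.ne'
      have h2 := Int.emod_lt_of_pos j hgz
      have h3 := Int.emod_add_mul_ediv j g
      refine ⟨(i.toNat, (j % g).toNat), ?_, ?_⟩
      · rw [mem_product, mem_range, mem_range]
        constructor
        · simp only
          omega
        · simp only
          omega
      · rw [hF]
        simp only
        rw [Int.toNat_of_nonneg hi0, Int.toNat_of_nonneg h1]
        have e : i • a + j • β0 = i • a + (j % g) • β0 + (j / g) • β := by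
          rw [hβ0, smul_smul, add_assoc, ← add_smul]
          congr 2
          linarith [mul_comm (g : ℤ) (j / g)]
        rw [e, map_add π (i • a + (j % (g : ℤ)) • β0), map_zsmul, hc.base, smul_zero, add_zero]
    have hmem' : ∀ x ∈ T, ∃ i j : ℤ, 0 ≤ i ∧ i < I ∧ 0 ≤ j ∧ j < g ∧
        x = π (i • a + j • β0) := by
      intro x hx
      rw [hT, mem_image] at hx
      obtain ⟨⟨i, j⟩, hq, rfl⟩ := hx
      rw [mem_product, mem_range, mem_range] at hq
      simp only at hq
      refine ⟨i, j, by omega, by omega, by omega, by omega, ?_⟩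
      rw [hF]
    -- the two steps
    have hcβ : ch (π β0) T = 0 := by
      unfold ch
      rw [Finset.card_eq_zero, Finset.filter_eq_empty_iff]
      intro x hx
      rw [not_not]
      obtain ⟨i, j, hi0, hi, hj0, hj, rfl⟩ := hmem' x hx
      rw [← map_add]
      have : i • a + j • β0 + β0 = i • a + (j + 1) • β0 := by
        rw [add_smul, one_smul, add_assoc]
      rw [this]
      exact hmem i (j + 1) hi0 hi
    have hca : ch (π a) T ≤ g := by
      unfold ch
      have h1 : T.filter (fun x => x + π a ∉ T) ⊆
          (range g).image (fun j : ℕ => π (((I : ℤ) - 1) • a + (j : ℤ) • β0)) := by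
        intro x hx
        rw [mem_filter] at hx
        obtain ⟨hx1, hx2⟩ := hx
        obtain ⟨i, j, hi0, hi, hj0, hj, rfl⟩ := hmem' x hx1
        rw [mem_image]
        refine ⟨j.toNat, by rw [mem_range]; omega, ?_⟩
        have : i = I - 1 := by
          by_contra hne
          apply hx2
          rw [← map_add]
          have e : i • a + j • β0 + a = (i + 1) • a + j • β0 := by
            rw [add_smul, one_smul]
            abel
          rw [e]
          exact hmem (i + 1) j (by omega) (by omega)
        rw [this, Int.toNat_of_nonneg hj0]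
      refine le_trans (card_le_card h1) (le_trans card_image_le ?_)
      rw [card_range]
    unfold fS EE
    apply Finset.sum_le_sum
    intro v _
    obtain ⟨σ, hσ⟩ : ∃ σ : Z2 →+ G, ∀ x : Z2, σ x = x.1 • π a + x.2 • π β0 :=
      ⟨{ toFun := fun x => x.1 • π a + x.2 • π β0
         map_zero' := by simp
         map_add' := fun x y => by
           simp only [Prod.fst_add, Prod.snd_add, add_smul]
           abel }, fun _ => rfl⟩
    have h1 := ch_le_basic σ (det β0 v, det v a) T
    have e1 : σ (det β0 v, det v a) = π v := by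
      rw [hσ]
      conv_rhs => rw [hcoord v]
      rw [map_add, map_zsmul, map_zsmul]
    have e2 : σ (1, 0) = π a := by rw [hσ]; simp
    have e3 : σ (0, 1) = π β0 := by rw [hσ]; simp
    rw [e1, e2, e3, hcβ, mul_zero, add_zero] at h1
    simp only at h1
    refine le_trans h1 ?_
    calc (det β0 v).natAbs * ch (π a) T ≤ (det β0 v).natAbs * g := Nat.mul_le_mul_left _ hca
      _ = (det v β).natAbs := by
          rw [hdv, Int.natAbs_mul, Int.natAbs_natCast, det_swap v β0, Int.natAbs_neg, mul_comm]

end Pool.Agent.Lib.MP_602b76_co_Far
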