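import Pool.Agent.Lib.MP_602b76_co_Far.Lift
import Pool.Agent.Lib.MP_602b76_co_Far.StripG

/-!
# One far generator in the plane: the costs of all numbers
-/

namespace Pool.Agent.Lib.MP_602b76_co_Far

open Finset Pool.Agent.Lib.MP_602b76_co_Plane

/-- **The rest.** -/
theorem cost_rest {V : Finset Z2} (hV : AddSubgroup.closure (V : Set Z2) = ⊤) :
    ∃ B : ℝ, 0 ≤ B ∧ ∀ {H G : Type} [AddCommGroup H] [DecidableEq H] [AddCommGroup G]
      [DecidableEq G] {p : H →+ G} {b : H} {μ : H →+ ℤ}, Tower p b μ → ∀ {ι : Z2 →+ H} {β : Z2},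
        Cyl (p.comp ι) β → B < EE V β →
          (∑ v ∈ V, ((μ (ι v)).natAbs : ℝ)) ≤ 1 / 10000 * μ b →
            ∀ ρ : ℕ, (ρ : ℝ) ≤ 4 * (EE V β / cst V) ^ 2 →
              Cost ι b V ρ ((EE V β / cst V) ^ 2 / 1000) := by
  have hc0 := cst_pos hV
  obtain ⟨c, hc⟩ : ∃ c, c = cst V := ⟨_, rfl⟩
  rw [← hc] at hc0 ⊢
  obtain ⟨M, hM⟩ := profile_upper hV (θ := 1 / 2) (ε := c) (by norm_num) (by norm_num) hc0
  refine ⟨M + (16000 * c) ^ 2 + 2000 * (V.card + 3) * c ^ 2 + 1, by positivity, ?_⟩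
  intro H G _ _ _ _ p b μ t ι β hcyl hB hκ ρ hρ
  obtain ⟨E, hE⟩ : ∃ E : ℝ, E = EE V β := ⟨_, rfl⟩
  rw [← hE] at hB hρ ⊢
  have g1 : 0 ≤ (16000 * c) ^ 2 := by positivity
  have g2 : 0 ≤ 2000 * ((V.card : ℝ) + 3) * c ^ 2 := by positivity
  have g3 : (0 : ℝ) ≤ M := Nat.cast_nonneg _
  have hE0 : 0 < E := by linarith
  have hsE0 : 0 < √E := Real.sqrt_pos.2 hE0
  have hsE : √E * √E = E := Real.mul_self_sqrt hE0.le
  have hE2 : 16000 * c ≤ √E := by
    apply Real.le_sqrt_of_sq_le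
    linarith
  have hME : M ≤ EE V β := by
    have : (M : ℝ) ≤ EE V β := by rw [← hE]; linarith
    exact_mod_cast this
  obtain ⟨T, hTne, hTm, hTf⟩ := hM hcyl (EE V β) hME (by
    rw [← hc, ← hE]
    nlinarith)
  rw [← hc, ← hE] at hTf
  have hT0 : 0 < T.card := hTne.card_pos
  have hT0' : (0 : ℝ) < T.card := by exact_mod_cast hT0
  have hTm' : (T.card : ℝ) ≤ E := by rw [hE]; exact_mod_cast hTm
  obtain ⟨h, hh⟩ : ∃ h, h = ρ / T.card := ⟨_, rfl⟩
  obtain ⟨ρ', hρ'⟩ : ∃ ρ', ρ' = ρ % T.card := ⟨_, rfl⟩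
  have hsplit : ρ = h * T.card + ρ' := by
    rw [hh, hρ', mul_comm]
    exact (Nat.div_add_mod _ _).symm
  have hlt : ρ' < T.card := by rw [hρ']; exact Nat.mod_lt _ hT0
  have hc1 := cost_blk t ι V hκ T h
  have hc2 := cost_small t ι V ρ'
  have hc3 := Cost.add t hc1 hc2
  rw [← hsplit] at hc3
  refine hc3.mono ?_
  obtain ⟨F, hF⟩ : ∃ F : ℝ, F = fS (p.comp ι) V T := ⟨_, rfl⟩
  rw [← hF] at hTf ⊢
  have h1 : (h : ℝ) * T.card ≤ ρ := by
    have : h * T.card ≤ ρ := by omega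
    exact_mod_cast this
  have h2 : (h : ℝ) * F * √E ≤ 2 * c * ρ := by
    calc (h : ℝ) * F * √E = h * (F * √E) := by ring
      _ ≤ h * ((c + c) * T.card) := mul_le_mul_of_nonneg_left hTf (Nat.cast_nonneg _)
      _ = 2 * c * (h * T.card) := by ring
      _ ≤ 2 * c * ρ := mul_le_mul_of_nonneg_left h1 (by positivity)
  obtain ⟨u, hu⟩ : ∃ u, u = (E / c) ^ 2 := ⟨_, rfl⟩
  rw [← hu] at hρ ⊢
  have hu0 : 0 < u := by rw [hu]; positivity
  have h3 : (h : ℝ) * F ≤ u / 2000 := by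
    have h4 : (h : ℝ) * F * √E ≤ u / 2000 * √E := by
      calc (h : ℝ) * F * √E ≤ 2 * c * ρ := h2
        _ ≤ 2 * c * (4 * u) := mul_le_mul_of_nonneg_left hρ (by positivity)
        _ = u / 2000 * (16000 * c) := by ring
        _ ≤ u / 2000 * √E := mul_le_mul_of_nonneg_left hE2 (by positivity)
    exact le_of_mul_le_mul_right h4 hsE0
  have h5 : (ρ' : ℝ) ≤ E := by
    have : (ρ' : ℝ) ≤ T.card := by exact_mod_cast hlt.le
    linarith
  have h6 : ((V.card : ℝ) + 3) * E ≤ u / 2000 := by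
    have h7 : 2000 * ((V.card : ℝ) + 3) * c ^ 2 * E ≤ E * E :=
      mul_le_mul_of_nonneg_right (by linarith) hE0.le
    have h8 : u * c ^ 2 = E * E := by
      rw [hu]
      field_simp
    have h9 : 2000 * ((V.card : ℝ) + 3) * E * c ^ 2 ≤ u * c ^ 2 := by rw [h8]; linarith
    have h10 := le_of_mul_le_mul_right h9 (by positivity)
    linarith
  have h11 : ((V.card : ℝ) + 1) * ρ' ≤ (V.card + 1) * E :=
    mul_le_mul_of_nonneg_left h5 (add_nonneg (Nat.cast_nonneg _) zero_le_one)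
  have h12 : (1 + 1 / 10000) * (T.card : ℝ) ≤ 2 * E := by linarith
  linarith

/-- **All numbers.** -/
theorem cost_all {V : Finset Z2} {H G : Type} [AddCommGroup H] [DecidableEq H] [AddCommGroup G]
    [DecidableEq G] {p : H →+ G} {b : H} {μ : H →+ ℤ} (t : Tower p b μ) {ι : Z2 →+ H}
    (hκ : (∑ v ∈ V, ((μ (ι v)).natAbs : ℝ)) ≤ 1 / 10000 * μ b) {u : ℝ}
    (hrest : ∀ ρ : ℕ, (ρ : ℝ) ≤ 4 * u → Cost ι b V ρ (u / 1000)) {T : Finset G}
    (hT : T.Nonempty) (hTu : (T.card : ℝ) ≤ 4 * u) (n : ℕ) {y : ℝ}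
    (hy : (n : ℝ) * fS (p.comp ι) V T ≤ T.card * y) :
    Cost ι b V n ((1 + 1 / 10000) * T.card + y + u / 1000) := by
  have hT0 : 0 < T.card := hT.card_pos
  have hT0' : (0 : ℝ) < T.card := by exact_mod_cast hT0
  obtain ⟨h, hh⟩ : ∃ h, h = n / T.card := ⟨_, rfl⟩
  obtain ⟨ρ, hρ⟩ : ∃ ρ, ρ = n % T.card := ⟨_, rfl⟩
  have hsplit : n = h * T.card + ρ := by
    rw [hh, hρ, mul_comm]
    exact (Nat.div_add_mod _ _).symm
  have hlt : ρ < T.card := by rw [hρ]; exact Nat.mod_lt _ hT0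
  have hc1 := cost_blk t ι V hκ T h
  have hc2 := hrest ρ (by
    have : (ρ : ℝ) ≤ T.card := by exact_mod_cast hlt.le
    linarith)
  have hc3 := Cost.add t hc1 hc2
  rw [← hsplit] at hc3
  refine hc3.mono ?_
  have h1 : (h : ℝ) * T.card ≤ n := by
    have : h * T.card ≤ n := by omega
    exact_mod_cast this
  have h2 : (h : ℝ) * fS (p.comp ι) V T ≤ y := by
    have h3 : ((h : ℝ) * fS (p.comp ι) V T) * T.card ≤ y * T.card := by
      calc ((h : ℝ) * fS (p.comp ι) V T) * T.card = (h * T.card) * fS (p.comp ι) V T := by ring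
        _ ≤ n * fS (p.comp ι) V T := mul_le_mul_of_nonneg_right h1 (Nat.cast_nonneg _)
        _ ≤ T.card * y := hy
        _ = y * T.card := by ring
    exact le_of_mul_le_mul_right h3 hT0'
  linarith

/-- **The first competitor.** -/
theorem cost_one {V : Finset Z2} (hV : AddSubgroup.closure (V : Set Z2) = ⊤) :
    ∃ B : ℝ, 0 ≤ B ∧ ∀ {H G : Type} [AddCommGroup H] [DecidableEq H] [AddCommGroup G]
      [DecidableEq G] {p : H →+ G} {b : H} {μ : H →+ ℤ}, Tower p b μ → ∀ {ι : Z2 →+ H} {β : Z2},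
        Cyl (p.comp ι) β → B < EE V β →
          (∑ v ∈ V, ((μ (ι v)).natAbs : ℝ)) ≤ 1 / 10000 * μ b →
            (∀ ρ : ℕ, (ρ : ℝ) ≤ 4 * (EE V β / cst V) ^ 2 →
              Cost ι b V ρ ((EE V β / cst V) ^ 2 / 1000)) →
            ∀ n : ℕ, Cost ι b V n (6411 / 10000 * (EE V β / cst V) ^ 2 +
              12526 / 10000 * (n * cst V / (EE V β / cst V))) := by
  have hc0 := cst_pos hV
  obtain ⟨c, hc⟩ : ∃ c, c = cst V := ⟨_, rfl⟩
  rw [← hc] at hc0 ⊢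
  obtain ⟨M, hM⟩ := profile_upper hV (θ := 4 / 5) (ε := c / 1000) (by norm_num) (by norm_num)
    (by positivity)
  refine ⟨c * (2 * (M + 1) + 10000), by positivity, ?_⟩
  intro H G _ _ _ _ p b μ t ι β hcyl hB hκ hrest n
  obtain ⟨E, hE⟩ : ∃ E : ℝ, E = EE V β := ⟨_, rfl⟩
  rw [← hE] at hB hrest ⊢
  obtain ⟨r, hr⟩ : ∃ r, r = E / c := ⟨_, rfl⟩
  rw [← hr] at hrest ⊢
  have hEr : E = c * r := by rw [hr]; field_simp
  have g3 : (0 : ℝ) ≤ M := Nat.cast_nonneg _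
  have hr1 : 2 * ((M : ℝ) + 1) + 10000 < r := by
    rw [hr, lt_div_iff₀ hc0]
    linarith
  have hr0 : 0 < r := by linarith
  obtain ⟨m, hm⟩ : ∃ m, m = ⌊16 / 25 * r ^ 2⌋₊ := ⟨_, rfl⟩
  have hm1 : (m : ℝ) ≤ 16 / 25 * r ^ 2 := by
    rw [hm]
    exact Nat.floor_le (by positivity)
  have hm2 : 16 / 25 * r ^ 2 < m + 1 := by
    rw [hm]
    exact Nat.lt_floor_add_one _
  have hrr : (2 * ((M : ℝ) + 1) + 10000) * r ≤ r ^ 2 := by nlinarith
  have hMm : M ≤ m := by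
    have h1 : (M : ℝ) < m + 1 := by nlinarith
    have h2 : M < m + 1 := by exact_mod_cast h1
    omega
  have hsm1 : √(m : ℝ) ≤ 4 / 5 * r := by
    have h1 : √(m : ℝ) ≤ √((4 / 5 * r) ^ 2) := Real.sqrt_le_sqrt (by nlinarith)
    rwa [Real.sqrt_sq (by positivity)] at h1
  have hsm2 : 4 / 5 * (999 / 1000) * r ≤ √(m : ℝ) := by
    apply Real.le_sqrt_of_sq_le
    have h1 : 10000 * r ≤ r ^ 2 := by nlinarith
    nlinarith
  obtain ⟨T, hTne, hTm, hTf⟩ := hM hcyl m hMm (by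
    rw [← hc, ← hE, hEr]
    calc c * √(m : ℝ) ≤ c * (4 / 5 * r) := mul_le_mul_of_nonneg_left hsm1 hc0.le
      _ = 4 / 5 * (c * r) := by ring)
  rw [← hc] at hTf
  have hT0' : (0 : ℝ) < T.card := by exact_mod_cast hTne.card_pos
  have hTm' : (T.card : ℝ) ≤ 16 / 25 * r ^ 2 := by
    have : (T.card : ℝ) ≤ m := by exact_mod_cast hTm
    linarith
  have hu0 : 0 < r ^ 2 := by positivity
  have key := cost_all t hκ hrest hTne (by linarith) n (y := 12526 / 10000 * (n * c / r)) (by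
    have h1 : (n : ℝ) * fS (p.comp ι) V T * (4 / 5 * (999 / 1000) * r) ≤
        n * ((c + c / 1000) * T.card) := by
      calc (n : ℝ) * fS (p.comp ι) V T * (4 / 5 * (999 / 1000) * r) ≤
            n * fS (p.comp ι) V T * √(m : ℝ) := mul_le_mul_of_nonneg_left hsm2 (by positivity)
        _ = n * (fS (p.comp ι) V T * √(m : ℝ)) := by ring
        _ ≤ _ := mul_le_mul_of_nonneg_left hTf (Nat.cast_nonneg _)
    have h2 : (n : ℝ) * fS (p.comp ι) V T * r ≤ T.card * (12526 / 10000 * (n * c)) := by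
      have h3 : 0 ≤ (T.card : ℝ) * (n * c) :=
        mul_nonneg (Nat.cast_nonneg _) (mul_nonneg (Nat.cast_nonneg _) hc0.le)
      nlinarith
    rw [show (T.card : ℝ) * (12526 / 10000 * (n * c / r)) =
      (T.card * (12526 / 10000 * (n * c))) / r by ring, le_div_iff₀ hr0]
    exact h2)
  refine key.mono ?_
  linarith

/-- **The second competitor.** -/
theorem cost_two {V : Finset Z2} (hV : AddSubgroup.closure (V : Set Z2) = ⊤) {K : ℝ}
    (hK1 : 1 ≤ K) (hK4 : K ≤ 4) :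
    ∃ B : ℝ, 0 ≤ B ∧ ∀ {H G : Type} [AddCommGroup H] [DecidableEq H] [AddCommGroup G]
      [DecidableEq G] {p : H →+ G} {b : H} {μ : H →+ ℤ}, Tower p b μ → ∀ {ι : Z2 →+ H} {β : Z2},
        Cyl (p.comp ι) β → B < EE V β →
          (∑ v ∈ V, ((μ (ι v)).natAbs : ℝ)) ≤ 1 / 10000 * μ b →
            (∀ ρ : ℕ, (ρ : ℝ) ≤ 4 * (EE V β / cst V) ^ 2 →
              Cost ι b V ρ ((EE V β / cst V) ^ 2 / 1000)) →
            ∀ n : ℕ, Cost ι b V n ((K + K / 10000 + 1 / 1000) * (EE V β / cst V) ^ 2 +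
              n * cst V / (EE V β / cst V) / (K - 1 / 1000)) := by
  have hc0 := cst_pos hV
  obtain ⟨c, hc⟩ : ∃ c, c = cst V := ⟨_, rfl⟩
  rw [← hc] at hc0 ⊢
  refine ⟨1000 * c ^ 2, by positivity, ?_⟩
  intro H G _ _ _ _ p b μ t ι β hcyl hB hκ hrest n
  obtain ⟨E, hE⟩ : ∃ E : ℝ, E = EE V β := ⟨_, rfl⟩
  rw [← hE] at hB hrest ⊢
  obtain ⟨r, hr⟩ : ∃ r, r = E / c := ⟨_, rfl⟩
  rw [← hr] at hrest ⊢
  have hEr : E = c * r := by rw [hr]; field_simp
  have hr1 : 1000 * c < r := by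
    rw [hr, lt_div_iff₀ hc0]
    nlinarith
  have hr0 : 0 < r := by nlinarith
  have hE0 : (0 : ℝ) < EE V β := by rw [← hE]; nlinarith
  obtain ⟨g, hg0, hgE, hg⟩ := strip hcyl (V := V) (by exact_mod_cast hE0)
  have hg0' : (0 : ℝ) < g := by exact_mod_cast hg0
  have hgE' : (g : ℝ) ≤ c * r := by
    rw [← hEr, hE]
    exact_mod_cast hgE
  obtain ⟨I, hI⟩ : ∃ I, I = ⌊K * r ^ 2 / g⌋₊ := ⟨_, rfl⟩
  have hI1 : (I : ℝ) * g ≤ K * r ^ 2 := by
    rw [← le_div_iff₀ hg0', hI]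
    exact Nat.floor_le (by positivity)
  have hI2 : K * r ^ 2 < I * g + g := by
    have : K * r ^ 2 / g < I + 1 := by
      rw [hI]
      exact Nat.lt_floor_add_one _
    rw [div_lt_iff₀ hg0'] at this
    linarith
  obtain ⟨T, hTc, hTf⟩ := hg I
  have hTc' : (T.card : ℝ) = I * g := by exact_mod_cast hTc
  have hTf' : (fS (p.comp ι) V T : ℝ) ≤ c * r := by
    rw [← hEr, hE]
    exact_mod_cast hTf
  have hrr : 1000 * c * r ≤ r ^ 2 := by nlinarith
  have hu0 : 0 < r ^ 2 := by positivity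
  have hK0 : 0 < K - 1 / 1000 := by linarith
  have hT1 : (K - 1 / 1000) * r ^ 2 ≤ T.card := by
    rw [hTc']
    linarith
  have hT0 : (0 : ℝ) < T.card := lt_of_lt_of_le (mul_pos hK0 hu0) hT1
  have hTne : T.Nonempty := by
    rw [← Finset.card_pos]
    exact_mod_cast hT0
  have hX0 : 0 ≤ (n : ℝ) * c / r := by positivity
  have key := cost_all t hκ hrest hTne (by rw [hTc']; nlinarith) n
    (y := n * c / r / (K - 1 / 1000)) (by
    calc (n : ℝ) * fS (p.comp ι) V T ≤ n * (c * r) :=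
          mul_le_mul_of_nonneg_left hTf' (Nat.cast_nonneg _)
      _ = ((K - 1 / 1000) * r ^ 2) * (n * c / r / (K - 1 / 1000)) := by
          obtain ⟨k, hk⟩ : ∃ k, k = K - 1 / 1000 := ⟨_, rfl⟩
          rw [← hk] at hK0 ⊢
          field_simp
      _ ≤ T.card * (n * c / r / (K - 1 / 1000)) :=
          mul_le_mul_of_nonneg_right hT1 (div_nonneg hX0 hK0.le))
  refine key.mono ?_
  rw [hTc']
  linarith

end Pool.Agent.Lib.MP_602b76_co_Far
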