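import Pool.Agent.Lib.MP_602b76_co_Far.Det

/-!
# One far generator in the plane: cutting the cylinder

`π : ℤ × ℤ → G` is a surjection with kernel `ℤ β`. A finite set which misses many classes modulo
some `v ∈ V` can be cut open along one of them at a small cost.
-/

namespace Pool.Agent.Lib.MP_602b76_co_Far

open Finset Pool.Agent.Lib.MP_602b76_co_Plane

variable {G : Type} [AddCommGroup G] {π : Z2 →+ G} {β : Z2}

section window

variable {A : Type} [AddCommGroup A] [DecidableEq A]

open Classical in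
/-- The points of `T` which reach the class `z` by a step from `R`. -/
noncomputable def Win (π : Z2 →+ G) (v : Z2) (ρ : A → G) (R : Finset Z2) (T : Finset A)
    (z : Cls π v) : Finset A :=
  T.filter (fun x => ∃ s ∈ R, cq π v (ρ x + π s) = z)

open Classical in
theorem sum_Win {v : Z2} (σ : Z2 →+ A) (ρ : A → G) (hρ : ∀ x s, ρ (x + σ s) = ρ x + π s)
    (R : Finset Z2) (T : Finset A) (M : Finset (Cls π v))
    (hM : ∀ z ∈ M, ∀ x ∈ T, cq π v (ρ x) ≠ z) :
    ∑ z ∈ M, (Win π v ρ R T z).card ≤ ∑ s ∈ R, ch (σ s) T := by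
  have h1 : ∀ z ∈ M, (Win π v ρ R T z).card ≤ ∑ s ∈ R,
      ((T.filter (fun x => x + σ s ∉ T)).filter (fun x => cq π v (ρ x + π s) = z)).card := by
    intro z hz
    refine le_trans (card_le_card ?_) card_biUnion_le
    intro x hx
    unfold Win at hx
    rw [mem_filter] at hx
    obtain ⟨hx1, s, hs, hsz⟩ := hx
    rw [mem_biUnion]
    refine ⟨s, hs, ?_⟩
    rw [mem_filter, mem_filter]
    refine ⟨⟨hx1, fun h => hM z hz _ h ?_⟩, hsz⟩
    rw [hρ]
    exact hsz
  refine le_trans (Finset.sum_le_sum h1) ?_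
  rw [Finset.sum_comm]
  apply Finset.sum_le_sum
  intro s _
  rw [Finset.sum_card_fiberwise_eq_card_filter]
  exact card_filter_le _ _

/-- A class with a small window. -/
theorem exists_Win {v : Z2} (hker : ∀ x, π x = 0 → ∃ t : ℤ, x = t • β) (hv : det v β ≠ 0)
    (σ : Z2 →+ A) (ρ : A → G) (hρ : ∀ x s, ρ (x + σ s) = ρ x + π s)
    (w : A → ℤ) (hw : ∀ x, w (x + σ v) = w x + det β v) (R : Finset Z2) (T : Finset A)
    {B : ℕ} (hB : ∑ s ∈ R, ch (σ s) T ≤ B) (hlt : ch (σ v) T < (det v β).natAbs) :
    ∃ z : Cls π v, ((det v β).natAbs - ch (σ v) T) * (Win π v ρ R T z).card ≤ B := by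
  classical
  obtain ⟨C, hC⟩ := exists_classes hker hv
  -- the classes which are met
  have hmet : (T.image (fun x => cq π v (ρ x))).card ≤ ch (σ v) T := by
    have hd : det β v ≠ 0 := by
      rw [det_swap]
      exact neg_ne_zero.2 hv
    have hf : ∀ x ∈ T, x + σ v ∈ T → cq π v (ρ (x + σ v)) = cq π v (ρ x) := by
      intro x _ _
      rw [hρ, map_add]
      have := cq_v π v 1
      rw [one_smul] at this
      rw [this, add_zero]
    rcases lt_or_gt_of_ne hd with hlt | hgt
    · exact image_le_ch T _ (fun x => -w x) hf (fun x _ _ => by rw [hw]; omega)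
    · exact image_le_ch T _ w hf (fun x _ _ => by rw [hw]; omega)
  obtain ⟨M, hM⟩ : ∃ M, M = C \ T.image (fun x => cq π v (ρ x)) := ⟨_, rfl⟩
  have hMcard : (det v β).natAbs - ch (σ v) T ≤ M.card := by
    have h1 := Finset.le_card_sdiff (T.image (fun x => cq π v (ρ x))) C
    rw [← hM, hC] at h1
    omega
  have hMne : M.Nonempty := by
    rw [← Finset.card_pos]
    omega
  have hsum := sum_Win (v := v) σ ρ hρ R T M (by
    intro z hz x hx he
    rw [hM, mem_sdiff] at hz
    apply hz.2
    rw [mem_image]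
    exact ⟨x, hx, he⟩)
  by_contra hcon
  push Not at hcon
  have h1 : ∀ z ∈ M, B < M.card * (Win π v ρ R T z).card := by
    intro z _
    exact lt_of_lt_of_le (hcon z) (Nat.mul_le_mul_right _ hMcard)
  have h2 : M.card * B < ∑ z ∈ M, M.card * (Win π v ρ R T z).card := by
    rw [← smul_eq_mul, ← Finset.sum_const]
    exact Finset.sum_lt_sum_of_nonempty hMne h1
  rw [← Finset.mul_sum] at h2
  have h3 : M.card * ∑ z ∈ M, (Win π v ρ R T z).card ≤ M.card * B :=
    Nat.mul_le_mul_left _ (le_trans hsum hB)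
  omega

end window

/-- A generator of the kernel with positive height. -/
theorem exists_pos_gen {v : Z2} (hker : ∀ x, π x = 0 → ∃ t : ℤ, x = t • β) (hβ : π β = 0)
    (hv : det v β ≠ 0) : ∃ β' : Z2, π β' = 0 ∧ det v β' = (det v β).natAbs ∧
      ∀ x, π x = 0 → ∃ t : ℤ, x = t • β' := by
  rcases Int.natAbs_eq (det v β) with h | h
  · exact ⟨β, hβ, h, hker⟩
  · refine ⟨(-1 : ℤ) • β, by rw [map_zsmul, hβ, smul_zero], ?_, fun x hx => ?_⟩
    · rw [det_smul]
      omega
    · obtain ⟨t, rfl⟩ := hker x hx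
      exact ⟨-t, by module⟩

section cuts

variable {V : Finset Z2} {R : Finset Z2} {W : ℕ}

/-- A point whose translate leaves the strip is in the window. -/
theorem near_boundary {v : Z2} {β' : Z2} (hβ' : π β' = 0)
    (hR : ∀ y : Z2, |det v y| ≤ W → ∃ s ∈ R, ∃ j : ℤ, y = s + j • v) {w : Z2}
    (hw : |det v w| ≤ W) {z' x : Z2} {j : ℤ}
    (h1 : det v z' + j * det v β' ≤ det v x) (h2 : det v x < det v z' + (j + 1) * det v β')
    (h3 : ¬ (det v z' + j * det v β' ≤ det v (x + w) ∧
      det v (x + w) < det v z' + (j + 1) * det v β')) :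
    ∃ s ∈ R, cq π v (π x + π s) = cq π v (π z') := by
  have hw' := abs_le.1 hw
  have key : ∀ i : ℤ, |det v (z' + i • β' - x)| ≤ W →
      ∃ s ∈ R, cq π v (π x + π s) = cq π v (π z') := by
    intro i hi
    obtain ⟨s, hs, j', hj'⟩ := hR _ hi
    refine ⟨s, hs, ?_⟩
    have h4 : π x + π s = π z' - j' • π v := by
      have h5 : x + s = z' + i • β' - j' • v := by
        have : s = z' + i • β' - x - j' • v := by rw [hj']; abel
        rw [this]
        abel
      rw [← map_add, h5, map_sub, map_add, map_zsmul, map_zsmul, hβ', smul_zero, add_zero]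
    rw [h4, map_sub, cq_v, sub_zero]
  rw [det_add] at h3
  rw [not_and_or] at h3
  rcases h3 with h3 | h3
  · apply key j
    rw [det_sub, det_add, det_smul, abs_le]
    constructor <;> linarith
  · apply key (j + 1)
    rw [det_sub, det_add, det_smul, abs_le]
    constructor <;> linarith

/-- **Cutting a subset of the cylinder.** -/
theorem cut_one [DecidableEq G] {v : Z2} (hsurj : Function.Surjective π)
    (hker : ∀ x, π x = 0 → ∃ t : ℤ, x = t • β) (hβ : π β = 0) (hv : det v β ≠ 0)
    (hR : ∀ y : Z2, |det v y| ≤ W → ∃ s ∈ R, ∃ j : ℤ, y = s + j • v)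
    (hW : ∀ w ∈ V, |det v w| ≤ W) (T : Finset G) (z : Cls π v) :
    ∃ T' : Finset Z2, T'.card = T.card ∧
      ff V T' ≤ fS π V T + V.card * (Win π v (fun x => x) R T z).card := by
  classical
  obtain ⟨β', hβ', hP, hker'⟩ := exists_pos_gen hker hβ hv
  have hP0 : 0 < det v β' := by
    rw [hP]
    exact_mod_cast Int.natAbs_pos.2 hv
  obtain ⟨z0, hz0⟩ := QuotientAddGroup.mk'_surjective _ z
  obtain ⟨z', rfl⟩ := hsurj z0
  have hz : cq π v (π z') = z := hz0
  -- the lift
  have hlift : ∀ c : G, ∃ x : Z2, π x = c ∧ det v z' ≤ det v x ∧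
      det v x < det v z' + det v β' := by
    intro c
    obtain ⟨x, rfl⟩ := hsurj c
    refine ⟨x - ((det v x - det v z') / det v β') • β', ?_, ?_, ?_⟩
    · rw [map_sub, map_zsmul, hβ', smul_zero, sub_zero]
    · rw [det_sub, det_smul]
      have := Int.ediv_mul_le (det v x - det v z') hP0.ne'
      linarith
    · rw [det_sub, det_smul]
      have := Int.lt_ediv_add_one_mul_self (det v x - det v z') hP0
      linarith
  choose ℓ h1 h2 h3 using hlift
  have hinj : Function.Injective ℓ := fun c c' h => by rw [← h1 c, ← h1 c', h]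
  refine ⟨T.image ℓ, card_image_of_injective _ hinj, ?_⟩
  unfold ff fS
  rw [← smul_eq_mul, ← Finset.sum_const, ← Finset.sum_add_distrib]
  apply Finset.sum_le_sum
  intro w hwV
  change ch w (T.image ℓ) ≤ _
  unfold ch
  rw [Finset.filter_image]
  refine le_trans card_image_le (le_trans (card_le_card ?_) (card_union_le _ _))
  intro c hc
  rw [mem_filter] at hc
  rw [mem_union, mem_filter]
  by_cases hcw : c + π w ∈ T
  · right
    unfold Win
    rw [mem_filter]
    refine ⟨hc.1, ?_⟩
    have hnot : ¬ (det v z' + 0 * det v β' ≤ det v (ℓ c + w) ∧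
        det v (ℓ c + w) < det v z' + (0 + 1) * det v β') := by
      rintro ⟨g1, g2⟩
      apply hc.2
      rw [mem_image]
      refine ⟨c + π w, hcw, ?_⟩
      obtain ⟨t, ht⟩ := hker' (ℓ (c + π w) - (ℓ c + w)) (by
        rw [map_sub, map_add, h1, h1, sub_self])
      have ht2 : t * det v β' = det v (ℓ (c + π w)) - det v (ℓ c + w) := by
        rw [← det_sub, ht, det_smul]
      have g3 := h2 (c + π w)
      have g4 := h3 (c + π w)
      have ht0 : t = 0 := by
        by_contra hne
        rcases lt_or_gt_of_ne hne with hlt | hgt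
        · nlinarith
        · nlinarith
      rw [ht0, zero_smul] at ht
      exact sub_eq_zero.1 ht
    obtain ⟨s, hs, hsz⟩ := near_boundary (j := 0) hβ' hR (hW w hwV)
      (by rw [zero_mul, add_zero]; exact h2 c)
      (by rw [zero_add, one_mul]; exact h3 c) hnot
    refine ⟨s, hs, ?_⟩
    rw [← hz, ← hsz, h1]
  · left
    exact ⟨hc.1, hcw⟩

/-- **Cutting a subset of the plane.** -/
theorem cut_two {v : Z2} (hsurj : Function.Surjective π)
    (hker : ∀ x, π x = 0 → ∃ t : ℤ, x = t • β) (hβ : π β = 0) (hv : det v β ≠ 0)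
    (hR : ∀ y : Z2, |det v y| ≤ W → ∃ s ∈ R, ∃ j : ℤ, y = s + j • v)
    (hW : ∀ w ∈ V, |det v w| ≤ W) {T : Finset Z2} (hT : T.Nonempty) (z : Cls π v) :
    ∃ T' : Finset Z2, T'.Nonempty ∧ T' ⊆ T ∧ (∀ x ∈ T', ∀ y ∈ T', π x = π y → x = y) ∧
      T.card * ff V T' ≤ (ff V T + V.card * (Win π v π R T z).card) * T'.card := by
  classical
  obtain ⟨β', hβ', hP, hker'⟩ := exists_pos_gen hker hβ hv
  have hP0 : 0 < det v β' := by
    rw [hP]
    exact_mod_cast Int.natAbs_pos.2 hv
  obtain ⟨z0, hz0⟩ := QuotientAddGroup.mk'_surjective _ z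
  obtain ⟨z', rfl⟩ := hsurj z0
  have hz : cq π v (π z') = z := hz0
  obtain ⟨J, hJ⟩ : ∃ J : Z2 → ℤ, ∀ x, det v z' + J x * det v β' ≤ det v x ∧
      det v x < det v z' + (J x + 1) * det v β' := by
    refine ⟨fun x => (det v x - det v z') / det v β', fun x => ⟨?_, ?_⟩⟩
    · have := Int.ediv_mul_le (det v x - det v z') hP0.ne'
      linarith
    · have := Int.lt_ediv_add_one_mul_self (det v x - det v z') hP0
      linarith
  have hJu : ∀ x (j : ℤ), det v z' + j * det v β' ≤ det v x →
      det v x < det v z' + (j + 1) * det v β' → J x = j := by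
    intro x j h1 h2
    obtain ⟨h3, h4⟩ := hJ x
    by_contra hne
    rcases lt_or_gt_of_ne hne with hlt | hgt
    · nlinarith
    · nlinarith
  -- the chains of the pieces
  have hpiece : ∀ w ∈ V, ∀ j : ℤ, ch w (T.filter (fun x => J x = j)) ≤
      ((T.filter (fun x => x + w ∉ T ∨ x ∈ Win π v π R T z)).filter
        (fun x => J x = j)).card := by
    intro w hwV j
    unfold ch
    apply card_le_card
    intro x hx
    rw [mem_filter, mem_filter, mem_filter] at hx
    obtain ⟨⟨hx1, hx2⟩, hx3⟩ := hx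
    rw [mem_filter, mem_filter]
    refine ⟨⟨hx1, ?_⟩, hx2⟩
    by_cases hxw : x + w ∈ T
    · right
      unfold Win
      rw [mem_filter]
      refine ⟨hx1, ?_⟩
      have hnot : ¬ (det v z' + J x * det v β' ≤ det v (x + w) ∧
          det v (x + w) < det v z' + (J x + 1) * det v β') := by
        rintro ⟨g1, g2⟩
        apply hx3
        exact ⟨hxw, (hJu _ _ g1 g2).trans hx2⟩
      obtain ⟨s, hs, hsz⟩ := near_boundary hβ' hR (hW w hwV) (hJ x).1 (hJ x).2 hnot
      exact ⟨s, hs, hsz.trans hz⟩
    · left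
      exact hxw
  have hsum : ∑ j ∈ T.image J, ff V (T.filter (fun x => J x = j)) ≤
      ff V T + V.card * (Win π v π R T z).card := by
    unfold ff fS
    rw [Finset.sum_comm, ← smul_eq_mul, ← Finset.sum_const, ← Finset.sum_add_distrib]
    apply Finset.sum_le_sum
    intro w hwV
    refine le_trans (Finset.sum_le_sum (fun j _ => hpiece w hwV j)) ?_
    rw [Finset.sum_card_fiberwise_eq_card_filter]
    refine le_trans (card_filter_le _ _) ?_
    refine le_trans (card_le_card ?_) (card_union_le _ _)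
    intro x hx
    rw [mem_filter] at hx
    rw [mem_union]
    rcases hx.2 with h | h
    · left
      exact mem_filter.2 ⟨hx.1, h⟩
    · right
      exact h
  have hcard : ∑ j ∈ T.image J, (T.filter (fun x => J x = j)).card = T.card :=
    (Finset.card_eq_sum_card_image J T).symm
  -- the best piece
  obtain ⟨j, hj, hbest⟩ : ∃ j ∈ T.image J, T.card * ff V (T.filter (fun x => J x = j)) ≤
      (ff V T + V.card * (Win π v π R T z).card) * (T.filter (fun x => J x = j)).card := by
    by_contra hcon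
    push Not at hcon
    have h1 := Finset.sum_lt_sum_of_nonempty (hT.image J) hcon
    rw [← Finset.mul_sum, ← Finset.mul_sum, hcard] at h1
    have h2 := Nat.mul_le_mul_left T.card hsum
    rw [mul_comm T.card (ff V T + _)] at h2
    omega
  refine ⟨T.filter (fun x => J x = j), ?_, filter_subset _ _, ?_, hbest⟩
  · rw [mem_image] at hj
    obtain ⟨x, hx, hxj⟩ := hj
    exact ⟨x, mem_filter.2 ⟨hx, hxj⟩⟩
  · intro x hx y hy hxy
    rw [mem_filter] at hx hy
    obtain ⟨t, ht⟩ := hker' (x - y) (by rw [map_sub, hxy, sub_self])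
    have ht2 : t * det v β' = det v x - det v y := by rw [← det_sub, ht, det_smul]
    have g1 := hJ x
    have g2 := hJ y
    rw [hx.2] at g1
    rw [hy.2] at g2
    have ht0 : t = 0 := by
      by_contra hne
      rcases lt_or_gt_of_ne hne with hlt | hgt
      · nlinarith
      · nlinarith
    rw [ht0, zero_smul] at ht
    exact sub_eq_zero.1 ht

end cuts

end Pool.Agent.Lib.MP_602b76_co_Far
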