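import Pool.Agent.Lib.MP_602b76_co_Far.Basic

/-!
# One far generator in the plane: determinants and classes
-/

namespace Pool.Agent.Lib.MP_602b76_co_Far

open Finset Pool.Agent.Lib.MP_602b76_co_Plane

/-- The determinant. -/
def det (x y : Z2) : ℤ := x.1 * y.2 - x.2 * y.1

theorem det_add (x y z : Z2) : det x (y + z) = det x y + det x z := by
  unfold det
  simp only [Prod.fst_add, Prod.snd_add]
  ring

theorem det_sub (x y z : Z2) : det x (y - z) = det x y - det x z := by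
  unfold det
  simp only [Prod.fst_sub, Prod.snd_sub]
  ring

theorem det_smul (x y : Z2) (n : ℤ) : det x (n • y) = n * det x y := by
  unfold det
  simp only [Prod.smul_fst, Prod.smul_snd, smul_eq_mul]
  ring

theorem smul_det (x y : Z2) (n : ℤ) : det (n • x) y = n * det x y := by
  unfold det
  simp only [Prod.smul_fst, Prod.smul_snd, smul_eq_mul]
  ring

theorem det_self (x : Z2) : det x x = 0 := by
  unfold det
  ring

theorem det_swap (x y : Z2) : det x y = -det y x := by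
  unfold det
  ring

theorem add_det (x y z : Z2) : det (x + y) z = det x z + det y z := by
  unfold det
  simp only [Prod.fst_add, Prod.snd_add]
  ring

theorem sub_det (x y z : Z2) : det (x - y) z = det x z - det y z := by
  unfold det
  simp only [Prod.fst_sub, Prod.snd_sub]
  ring

/-- A vector is a multiple of a part of a basis. -/
theorem exists_basis {v : Z2} (hv : v ≠ 0) :
    ∃ (g : ℕ) (v0 a : Z2), 0 < g ∧ v = (g : ℤ) • v0 ∧ det v0 a = 1 := by
  have hg : 0 < Int.gcd v.1 v.2 := by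
    rw [Nat.pos_iff_ne_zero]
    intro h
    rw [Int.gcd_eq_zero_iff] at h
    exact hv (Prod.ext h.1 h.2)
  obtain ⟨g, hgdef⟩ : ∃ g, g = Int.gcd v.1 v.2 := ⟨_, rfl⟩
  rw [← hgdef] at hg
  have hg' : (g : ℤ) ≠ 0 := by exact_mod_cast hg.ne'
  obtain ⟨c, hc⟩ : (g : ℤ) ∣ v.1 := by rw [hgdef]; exact Int.gcd_dvd_left _ _
  obtain ⟨d, hd⟩ : (g : ℤ) ∣ v.2 := by rw [hgdef]; exact Int.gcd_dvd_right _ _
  have hbez := Int.gcd_eq_gcd_ab v.1 v.2
  rw [← hgdef] at hbez
  refine ⟨g, (c, d), (-(Int.gcdB v.1 v.2), Int.gcdA v.1 v.2), hg, ?_, ?_⟩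
  · ext
    · simpa using hc
    · simpa using hd
  · unfold det
    simp only
    apply mul_left_cancel₀ hg'
    rw [mul_one]
    calc (g : ℤ) * (c * Int.gcdA v.1 v.2 - d * -Int.gcdB v.1 v.2)
        = (g * c) * Int.gcdA v.1 v.2 + (g * d) * Int.gcdB v.1 v.2 := by ring
      _ = v.1 * Int.gcdA v.1 v.2 + v.2 * Int.gcdB v.1 v.2 := by rw [← hc, ← hd]
      _ = g := hbez.symm

/-- Bounded representatives modulo the elements of `V`. -/
theorem exists_R (V : Finset Z2) (W : ℕ) : ∃ R : Finset Z2, ∀ v ∈ V, v ≠ 0 → ∀ y : Z2,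
    |det v y| ≤ W → ∃ s ∈ R, ∃ j : ℤ, y = s + j • v := by
  obtain ⟨M, hM⟩ : ∃ M : ℤ, M = (∑ v ∈ V, (v.1 * v.1 + v.2 * v.2)) + W := ⟨_, rfl⟩
  refine ⟨(Icc (-M) M) ×ˢ (Icc (-M) M), fun v hv hv0 y hy => ?_⟩
  obtain ⟨n, hn⟩ : ∃ n : ℤ, n = v.1 * v.1 + v.2 * v.2 := ⟨_, rfl⟩
  have hn1 : 1 ≤ n := by
    by_contra hlt
    apply hv0
    have h1 : v.1 * v.1 = 0 := by nlinarith [mul_self_nonneg v.1, mul_self_nonneg v.2]
    have h2 : v.2 * v.2 = 0 := by nlinarith [mul_self_nonneg v.1, mul_self_nonneg v.2]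
    exact Prod.ext (mul_self_eq_zero.1 h1) (mul_self_eq_zero.1 h2)
  have hnM : n + W ≤ M := by
    rw [hM, hn]
    have h1 : v.1 * v.1 + v.2 * v.2 ≤ ∑ v ∈ V, (v.1 * v.1 + v.2 * v.2) :=
      Finset.single_le_sum (f := fun v : Z2 => v.1 * v.1 + v.2 * v.2)
        (fun x _ => add_nonneg (mul_self_nonneg _) (mul_self_nonneg _)) hv
    linarith
  obtain ⟨j, hj⟩ : ∃ j : ℤ, j = (v.1 * y.1 + v.2 * y.2) / n := ⟨_, rfl⟩
  obtain ⟨s, hs⟩ : ∃ s : Z2, s = y - j • v := ⟨_, rfl⟩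
  have hdot : v.1 * s.1 + v.2 * s.2 = (v.1 * y.1 + v.2 * y.2) % n := by
    have h1 : s.1 = y.1 - j * v.1 := by rw [hs]; simp
    have h2 : s.2 = y.2 - j * v.2 := by rw [hs]; simp
    have h3 := Int.emod_add_mul_ediv (v.1 * y.1 + v.2 * y.2) n
    rw [← hj] at h3
    rw [h1, h2]
    have h4 : v.1 * (y.1 - j * v.1) + v.2 * (y.2 - j * v.2) =
        (v.1 * y.1 + v.2 * y.2) - n * j := by rw [hn]; ring
    rw [h4]
    linarith
  have hdot0 : 0 ≤ v.1 * s.1 + v.2 * s.2 := by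
    rw [hdot]; exact Int.emod_nonneg _ (by omega)
  have hdot1 : v.1 * s.1 + v.2 * s.2 < n := by
    rw [hdot]; exact Int.emod_lt_of_pos _ (by omega)
  have hdet : det v s = det v y := by
    rw [hs, det_sub, det_smul, det_self, mul_zero, sub_zero]
  have hident : n * (s.1 * s.1 + s.2 * s.2) =
      (v.1 * s.1 + v.2 * s.2) ^ 2 + (det v s) ^ 2 := by
    rw [hn]
    unfold det
    ring
  have hdet2 : (det v s) ^ 2 ≤ (W : ℤ) ^ 2 := by
    rw [hdet]
    exact sq_le_sq' (by have := abs_le.1 hy; linarith) (by have := abs_le.1 hy; linarith)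
  have hbound : s.1 * s.1 + s.2 * s.2 ≤ (n + W) ^ 2 := by
    have h1 : (v.1 * s.1 + v.2 * s.2) ^ 2 ≤ n ^ 2 := by nlinarith
    have h2 : s.1 * s.1 + s.2 * s.2 ≤ n * (s.1 * s.1 + s.2 * s.2) := by
      nlinarith [mul_self_nonneg s.1, mul_self_nonneg s.2]
    have h3 : (0 : ℤ) ≤ W := by positivity
    nlinarith
  have h0 : 0 ≤ n + W := by positivity
  have hs1 : |s.1| ≤ n + W := by
    apply abs_le_of_sq_le_sq' _ h0 |> abs_le.2
    nlinarith [mul_self_nonneg s.2]
  have hs2 : |s.2| ≤ n + W := by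
    apply abs_le_of_sq_le_sq' _ h0 |> abs_le.2
    nlinarith [mul_self_nonneg s.1]
  refine ⟨s, ?_, j, by rw [hs]; abel⟩
  rw [mem_product, mem_Icc, mem_Icc]
  have g1 := abs_le.1 hs1
  have g2 := abs_le.1 hs2
  exact ⟨⟨by linarith [g1.1], by linarith [g1.2]⟩, ⟨by linarith [g2.1], by linarith [g2.2]⟩⟩

section classes

variable {G : Type*} [AddCommGroup G] {π : Z2 →+ G} {β : Z2}

/-- The classes modulo `v`. -/
abbrev Cls (π : Z2 →+ G) (v : Z2) := G ⧸ AddSubgroup.zmultiples (π v)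

/-- The class of an element. -/
def cq (π : Z2 →+ G) (v : Z2) : G →+ Cls π v :=
  QuotientAddGroup.mk' (AddSubgroup.zmultiples (π v))

theorem cq_v (π : Z2 →+ G) (v : Z2) (j : ℤ) : cq π v (j • π v) = 0 := by
  unfold cq
  exact (QuotientAddGroup.eq_zero_iff _).2 ⟨j, rfl⟩

theorem cq_eq {π : Z2 →+ G} {v : Z2} (hker : ∀ x, π x = 0 → ∃ t : ℤ, x = t • β) {y y' : Z2}
    (h : cq π v (π y) = cq π v (π y')) : ∃ s t : ℤ, y - y' = s • v + t • β := by
  unfold cq at h
  rw [← sub_eq_zero, ← map_sub, ← map_sub] at h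
  have h1 := (QuotientAddGroup.eq_zero_iff _).1 h
  rw [AddSubgroup.mem_zmultiples_iff] at h1
  obtain ⟨s, hs⟩ := h1
  obtain ⟨t, ht⟩ := hker (y - y' - s • v) (by rw [map_sub, map_zsmul, hs, sub_self])
  exact ⟨s, t, by rw [← ht]; abel⟩

/-- There are `|det v β|` classes modulo `v`. -/
theorem exists_classes (hker : ∀ x, π x = 0 → ∃ t : ℤ, x = t • β) {v : Z2} (hv : det v β ≠ 0) :
    ∃ C : Finset (Cls π v), C.card = (det v β).natAbs := by
  classical
  have hv0 : v ≠ 0 := by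
    rintro rfl
    apply hv
    unfold det
    simp
  obtain ⟨g, v0, a, hg, hgv, ha⟩ := exists_basis hv0
  have hP : det v β = g * det v0 β := by rw [hgv, smul_det]
  have hp0 : det v0 β ≠ 0 := by
    intro h
    rw [h, mul_zero] at hP
    exact hv hP
  refine ⟨((range (det v0 β).natAbs) ×ˢ (range g)).image
    (fun p => cq π v (π ((p.1 : ℤ) • a + (p.2 : ℤ) • v0))), ?_⟩
  rw [card_image_of_injOn, card_product, card_range, card_range, hP, Int.natAbs_mul,
    Int.natAbs_natCast, mul_comm]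
  rintro ⟨i, j⟩ h1 ⟨i', j'⟩ h2 h
  rw [mem_coe, mem_product, mem_range, mem_range] at h1 h2
  simp only at h1 h2 h
  obtain ⟨s, t, hst⟩ := cq_eq hker h
  have e1 : det v0 ((i : ℤ) • a + (j : ℤ) • v0 - ((i' : ℤ) • a + (j' : ℤ) • v0)) =
      (i : ℤ) - i' := by
    rw [det_sub, det_add, det_add, det_smul, det_smul, det_smul, det_smul, det_self, ha]
    ring
  have e2 : det v0 (s • v + t • β) = t * det v0 β := by
    rw [det_add, det_smul, det_smul, hgv, det_smul, det_self]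
    ring
  rw [hst, e2] at e1
  have ht : t = 0 := by
    by_contra hne
    have h3 : (t * det v0 β).natAbs = t.natAbs * (det v0 β).natAbs := Int.natAbs_mul _ _
    have h4 : 1 ≤ t.natAbs := Int.natAbs_pos.2 hne
    have h5 : (det v0 β).natAbs ≤ t.natAbs * (det v0 β).natAbs := Nat.le_mul_of_pos_left _ h4
    rw [e1] at h3
    omega
  rw [ht, zero_mul] at e1
  have hi : i = i' := by omega
  have e3 : det ((i : ℤ) • a + (j : ℤ) • v0 - ((i' : ℤ) • a + (j' : ℤ) • v0)) a =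
      (j : ℤ) - j' := by
    rw [sub_det, add_det, add_det, smul_det, smul_det, smul_det, smul_det, det_self, ha]
    ring
  have e4 : det (s • v + t • β) a = s * g := by
    rw [ht, zero_smul, add_zero, smul_det, hgv, smul_det, ha]
    ring
  rw [hst, e4] at e3
  have hs : s = 0 := by
    by_contra hne
    have h3 : (s * (g : ℤ)).natAbs = s.natAbs * g := by
      rw [Int.natAbs_mul, Int.natAbs_natCast]
    have h4 : 1 ≤ s.natAbs := Int.natAbs_pos.2 hne
    have h5 : g ≤ s.natAbs * g := Nat.le_mul_of_pos_left _ h4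
    rw [e3] at h3
    omega
  rw [hs, zero_mul] at e3
  have hj : j = j' := by omega
  rw [hi, hj]

end classes

end Pool.Agent.Lib.MP_602b76_co_Far
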