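import Pool.Agent.Lib.MP_602b76_co_Far.Half
import Pool.Agent.Lib.MP_602b76_co_Far.Basic

/-!
# One far generator in the plane: a basis of the lattice
-/

namespace Pool.Agent.Lib.MP_602b76_co_Far

open Finset Pool.Agent.Lib.MP_602b76_co_Plane

/-- A subgroup of finite index is the image of the lattice. -/
theorem exists_iota {Λ : AddSubgroup (Fin 2 → ℤ)} (hΛ : Λ.FiniteIndex) :
    ∃ ι : Z2 →+ (Fin 2 → ℤ), Function.Injective ι ∧ ∀ x, x ∈ Λ ↔ ∃ z, ι z = x := by
  obtain ⟨N, hN⟩ : ∃ N : Submodule ℤ (Fin 2 → ℤ), N = AddSubgroup.toIntSubmodule Λ := ⟨_, rfl⟩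
  have hmem : ∀ x, x ∈ N ↔ x ∈ Λ := by
    intro x
    rw [hN]
    rfl
  have hidx : Λ.index ≠ 0 := hΛ.index_ne_zero
  have hfr : Module.finrank ℤ N = 2 := by
    apply le_antisymm
    · have h1 := Submodule.finrank_le N
      rwa [Module.finrank_fin_fun] at h1
    · obtain ⟨f, hf⟩ : ∃ f : (Fin 2 → ℤ) →ₗ[ℤ] N, ∀ x, (f x : Fin 2 → ℤ) = Λ.index • x :=
        ⟨{ toFun := fun x => ⟨Λ.index • x, (hmem _).2 (Λ.nsmul_index_mem x)⟩
           map_add' := fun x y => by
             apply Subtype.ext
             simp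
           map_smul' := fun n x => by
             apply Subtype.ext
             simp only [RingHom.id_apply, Submodule.coe_smul]
             rw [smul_comm] }, fun _ => rfl⟩
      have hinj : Function.Injective f := by
        intro x y hxy
        have h1 : Λ.index • x = Λ.index • y := by rw [← hf, ← hf, hxy]
        funext i
        have h2 := congrFun h1 i
        simp only [Pi.smul_apply, nsmul_eq_mul] at h2
        exact mul_left_cancel₀ (by exact_mod_cast hidx) h2
      have h3 := LinearMap.finrank_le_finrank_of_injective hinj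
      rwa [Module.finrank_fin_fun] at h3
  obtain ⟨B⟩ : Nonempty (Module.Basis (Fin 2) ℤ N) := ⟨Module.finBasisOfFinrankEq ℤ N hfr⟩
  refine ⟨{ toFun := fun z => ((z.1 • B 0 + z.2 • B 1 : N) : Fin 2 → ℤ)
            map_zero' := by simp
            map_add' := fun x y => by
              simp only [Prod.fst_add, Prod.snd_add, add_smul, Submodule.coe_add]
              abel }, ?_, ?_⟩
  · rintro ⟨a, c⟩ ⟨a', c'⟩ h
    simp only [AddMonoidHom.coe_mk, ZeroHom.coe_mk] at h
    have h1 := Subtype.ext h
    have h2 := congrArg (fun z => B.repr z) h1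
    simp only [map_add, map_smul, Module.Basis.repr_self] at h2
    have h3 := DFunLike.congr_fun h2 0
    have h4 := DFunLike.congr_fun h2 1
    simp at h3 h4
    rw [h3, h4]
  · intro x
    rw [← hmem]
    constructor
    · intro hx
      refine ⟨(B.repr ⟨x, hx⟩ 0, B.repr ⟨x, hx⟩ 1), ?_⟩
      simp only [AddMonoidHom.coe_mk, ZeroHom.coe_mk]
      have h1 := B.sum_repr ⟨x, hx⟩
      rw [Fin.sum_univ_two] at h1
      exact congrArg Subtype.val h1
    · rintro ⟨z, rfl⟩
      simp only [AddMonoidHom.coe_mk, ZeroHom.coe_mk]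
      exact (z.1 • B 0 + z.2 • B 1 : N).2

end Pool.Agent.Lib.MP_602b76_co_Far
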