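import Pool.Agent.Lib.MP_602b76_co_Far.Core
import Pool.Agent.Lib.MP_602b76_co_Far.Lattice

/-!
# One far generator in the plane
-/

namespace Pool.Agent.Lib.MP_602b76_co_Far

open Finset Pool.Agent.Lib.MP_602b76_co_Plane Pool.Agent.Lib.MP_602b76_co_Never

/-- The discrete intermediate value theorem. -/
theorem ivt {k : ℕ → ℕ} (h0 : k 0 = 0) (hs : ∀ n, k (n + 1) ≤ k n + 1) (C : ℕ) :
    ∀ N, C ≤ k N → ∃ n ≤ N, k n = C
  | 0, h => ⟨0, le_refl _, by omega⟩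
  | N + 1, h => by
    by_cases hN : C ≤ k N
    · obtain ⟨n, h1, h2⟩ := ivt h0 hs C N hN
      exact ⟨n, by omega, h2⟩
    · have := hs N
      exact ⟨N + 1, le_refl _, by omega⟩

/-- The number of lines is at least the length. -/
theorem EE_lower {V : Finset Z2} (hV : AddSubgroup.closure (V : Set Z2) = ⊤) :
    ∃ L : ℕ, ∀ β : Z2, |β.1| + |β.2| ≤ L * EE V β := by
  have key : ∀ x : Z2, ∃ L : ℕ, ∀ β : Z2, |det x β| ≤ L * EE V β := by
    intro x
    have hx : x ∈ AddSubgroup.closure (V : Set Z2) := by rw [hV]; exact AddSubgroup.mem_top _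
    induction hx using AddSubgroup.closure_induction with
    | mem z hz =>
      refine ⟨1, fun β => ?_⟩
      have h1 : (det z β).natAbs ≤ EE V β :=
        Finset.single_le_sum (f := fun v => (det v β).natAbs) (fun _ _ => Nat.zero_le _) hz
      rw [Int.abs_eq_natAbs, Nat.cast_one, one_mul]
      exact Nat.cast_le.2 h1
    | zero =>
      refine ⟨0, fun β => ?_⟩
      have : det 0 β = 0 := by unfold det; simp
      rw [this]
      simp
    | add s t _ _ hs ht =>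
      obtain ⟨L, hL⟩ := hs
      obtain ⟨M, hM⟩ := ht
      refine ⟨L + M, fun β => ?_⟩
      rw [add_det]
      push_cast
      rw [add_mul]
      exact le_trans (abs_add_le _ _) (add_le_add (hL β) (hM β))
    | neg s _ hs =>
      obtain ⟨L, hL⟩ := hs
      refine ⟨L, fun β => ?_⟩
      have : det (-s) β = -det s β := by
        unfold det
        simp only [Prod.fst_neg, Prod.snd_neg]
        ring
      rw [this, abs_neg]
      exact hL β
  obtain ⟨L, hL⟩ := key (1, 0)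
  obtain ⟨M, hM⟩ := key (0, 1)
  refine ⟨L + M, fun β => ?_⟩
  have h1 := hL β
  have h2 := hM β
  have e1 : det (1, 0) β = β.2 := by unfold det; simp
  have e2 : det (0, 1) β = -β.1 := by unfold det; simp
  rw [e1] at h1
  rw [e2, abs_neg] at h2
  push_cast
  rw [add_mul]
  linarith

theorem EE_upper (V : Finset Z2) (β : Z2) :
    (EE V β : ℤ) ≤ (∑ v ∈ V, (|v.1| + |v.2|)) * (|β.1| + |β.2|) := by
  unfold EE
  push_cast
  rw [Finset.sum_mul]
  apply Finset.sum_le_sum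
  intro v _
  have h1 : |det v β| ≤ |v.1| * |β.2| + |v.2| * |β.1| := by
    unfold det
    calc |v.1 * β.2 - v.2 * β.1| ≤ |v.1 * β.2| + |v.2 * β.1| := abs_sub _ _
      _ = _ := by rw [abs_mul, abs_mul]
  have h2 : 0 ≤ |v.1| * |β.1| := by positivity
  have h3 : 0 ≤ |v.2| * |β.2| := by positivity
  nlinarith

section iota

variable {ι : Z2 →+ (Fin 2 → ℤ)}

theorem iota_eq (β : Z2) : ι β = β.1 • ι (1, 0) + β.2 • ι (0, 1) := by
  have e : β = β.1 • ((1, 0) : Z2) + β.2 • ((0, 1) : Z2) := by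
    ext <;> simp
  conv_lhs => rw [e]
  rw [map_add, map_zsmul, map_zsmul]

theorem iota_upper (ι : Z2 →+ (Fin 2 → ℤ)) : ∃ K : ℕ, ∀ β : Z2,
    |ι β 0| + |ι β 1| ≤ K * (|β.1| + |β.2|) := by
  refine ⟨(ι (1, 0) 0).natAbs + (ι (1, 0) 1).natAbs + (ι (0, 1) 0).natAbs +
    (ι (0, 1) 1).natAbs, fun β => ?_⟩
  have h0 : ι β 0 = β.1 * ι (1, 0) 0 + β.2 * ι (0, 1) 0 := by
    rw [iota_eq]; rfl
  have h1 : ι β 1 = β.1 * ι (1, 0) 1 + β.2 * ι (0, 1) 1 := by
    rw [iota_eq]; rfl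
  rw [h0, h1]
  push_cast
  have a0 := abs_add_le (β.1 * ι (1, 0) 0) (β.2 * ι (0, 1) 0)
  have a1 := abs_add_le (β.1 * ι (1, 0) 1) (β.2 * ι (0, 1) 1)
  rw [abs_mul, abs_mul] at a0 a1
  have p1 := abs_nonneg β.1
  have p2 := abs_nonneg β.2
  have q1 := abs_nonneg (ι (1, 0) 0)
  have q2 := abs_nonneg (ι (1, 0) 1)
  have q3 := abs_nonneg (ι (0, 1) 0)
  have q4 := abs_nonneg (ι (0, 1) 1)
  nlinarith [mul_nonneg p1 q3, mul_nonneg p1 q4, mul_nonneg p2 q1, mul_nonneg p2 q2]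

theorem iota_lower {Λ : AddSubgroup (Fin 2 → ℤ)} (hΛ : Λ.FiniteIndex)
    (hinj : Function.Injective ι) (hι : ∀ x, x ∈ Λ ↔ ∃ z, ι z = x) : ∃ K : ℕ, ∀ β : Z2,
    |β.1| + |β.2| ≤ K * (|ι β 0| + |ι β 1|) := by
  obtain ⟨m, hm⟩ : ∃ m, m = Λ.index := ⟨_, rfl⟩
  have hm0 : m ≠ 0 := by rw [hm]; exact hΛ.index_ne_zero
  obtain ⟨x, hx⟩ := (hι _).1 (Λ.nsmul_index_mem ![1, 0])
  obtain ⟨y, hy⟩ := (hι _).1 (Λ.nsmul_index_mem ![0, 1])
  rw [← hm] at hx hy
  refine ⟨x.1.natAbs + x.2.natAbs + y.1.natAbs + y.2.natAbs, fun β => ?_⟩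
  have h1 : ι ((m : ℤ) • β) = ι (ι β 0 • x + ι β 1 • y) := by
    rw [map_add, map_zsmul, map_zsmul, map_zsmul, hx, hy]
    funext i
    fin_cases i
    · simp
      ring
    · simp
      ring
  have h2 := hinj h1
  have h3 : (m : ℤ) * β.1 = ι β 0 * x.1 + ι β 1 * y.1 := congrArg Prod.fst h2
  have h4 : (m : ℤ) * β.2 = ι β 0 * x.2 + ι β 1 * y.2 := congrArg Prod.snd h2
  have hm1 : (1 : ℤ) ≤ m := by omega
  have h5 : |β.1| ≤ |ι β 0 * x.1 + ι β 1 * y.1| := by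
    rw [← h3, abs_mul, Nat.abs_cast]
    nlinarith [abs_nonneg β.1]
  have h6 : |β.2| ≤ |ι β 0 * x.2 + ι β 1 * y.2| := by
    rw [← h4, abs_mul, Nat.abs_cast]
    nlinarith [abs_nonneg β.2]
  have a0 := abs_add_le (ι β 0 * x.1) (ι β 1 * y.1)
  have a1 := abs_add_le (ι β 0 * x.2) (ι β 1 * y.2)
  rw [abs_mul, abs_mul] at a0 a1
  have p1 := abs_nonneg (ι β 0)
  have p2 := abs_nonneg (ι β 1)
  push_cast
  have q1 := abs_nonneg x.1
  have q2 := abs_nonneg x.2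
  have q3 := abs_nonneg y.1
  have q4 := abs_nonneg y.2
  nlinarith [mul_nonneg p1 q3, mul_nonneg p1 q4, mul_nonneg p2 q1, mul_nonneg p2 q2]

end iota

/-- **One far generator in the plane.** -/
theorem far_plane (V : Finset (Fin 2 → ℤ)) (h0 : (0 : Fin 2 → ℤ) ∉ V)
    (hfin : (AddSubgroup.closure (V : Set (Fin 2 → ℤ))).FiniteIndex) :
    ∃ B : ℕ, ∀ b : Fin 2 → ℤ, (B : ℤ) ≤ |b 0| + |b 1| →
      AddSubgroup.closure (insert b V : Set (Fin 2 → ℤ)) = ⊤ →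
        ∀ e : ℕ ≃ (Fin 2 → ℤ), ∃ n : ℕ, (n : ℤ) ≤ (|b 0| + |b 1|) ^ 4 ∧
          ¬ EdgeOptimal (insert b V) ((range n).image e) := by
  classical
  obtain ⟨Λ, hΛ⟩ : ∃ Λ, Λ = AddSubgroup.closure (V : Set (Fin 2 → ℤ)) := ⟨_, rfl⟩
  rw [← hΛ] at hfin
  obtain ⟨ι, hinj, hι⟩ := exists_iota hfin
  have hhalf : AddSubgroup.closure (half V : Set (Fin 2 → ℤ)) = Λ := by
    rw [hΛ]
    exact closure_half h0
  obtain ⟨V', hV'⟩ : ∃ V' : Finset Z2, V'.image ι = half V := by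
    refine ⟨(half V).preimage ι hinj.injOn, ?_⟩
    rw [Finset.image_preimage, Finset.filter_true_of_mem]
    intro w hw
    have h1 : w ∈ Λ := by
      rw [← hhalf]
      exact AddSubgroup.subset_closure hw
    exact (hι w).1 h1
  have hV'top : AddSubgroup.closure (V' : Set Z2) = ⊤ := by
    rw [eq_top_iff]
    intro z _
    have h1 : ι z ∈ AddSubgroup.closure (half V : Set (Fin 2 → ℤ)) := by
      rw [hhalf]
      exact (hι _).2 ⟨z, rfl⟩
    rw [← hV', Finset.coe_image, ← AddMonoidHom.map_closure, AddSubgroup.mem_map] at h1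
    obtain ⟨z', h2, h3⟩ := h1
    rwa [← hinj h3]
  obtain ⟨B0, hB00, hcore⟩ := far_core hV'top
  have hc0 := cst_pos hV'top
  obtain ⟨L, hL⟩ := EE_lower hV'top
  obtain ⟨K, hK⟩ := iota_upper ι
  obtain ⟨K3, hK3⟩ := iota_lower hfin hinj hι
  obtain ⟨m, hm⟩ : ∃ m, m = Λ.index := ⟨_, rfl⟩
  have hm0 : m ≠ 0 := by rw [hm]; exact hfin.index_ne_zero
  obtain ⟨W1, hW1⟩ : ∃ W1 : ℤ, W1 = ∑ v ∈ V', (|v.1| + |v.2|) := ⟨_, rfl⟩
  have hW10 : 0 ≤ W1 := by
    rw [hW1]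
    exact Finset.sum_nonneg (fun _ _ => by positivity)
  obtain ⟨W2, hW2⟩ : ∃ W2 : ℤ, W2 = ∑ v ∈ V', (|ι v 0| + |ι v 1|) := ⟨_, rfl⟩
  have hW20 : 0 ≤ W2 := by
    rw [hW2]
    exact Finset.sum_nonneg (fun _ _ => by positivity)
  obtain ⟨W3, hW3⟩ : ∃ W3 : ℤ, W3 = ∑ v ∈ V, (|v 0| + |v 1|) := ⟨_, rfl⟩
  have hW30 : 0 ≤ W3 := by
    rw [hW3]
    exact Finset.sum_nonneg (fun _ _ => by positivity)
  obtain ⟨K2, hK2⟩ : ∃ K2 : ℤ, K2 = W1 * (K3 * m) := ⟨_, rfl⟩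
  have hK20 : 0 ≤ K2 := by rw [hK2]; positivity
  obtain ⟨B1, hB1⟩ : ∃ B1 : ℕ, B1 = ⌈B0⌉₊ := ⟨_, rfl⟩
  have hB01 : B0 ≤ B1 := by rw [hB1]; exact Nat.le_ceil _
  obtain ⟨B2, hB2⟩ : ∃ B2 : ℕ, B2 = ⌈6 * (K2 : ℝ) ^ 3 / cst V' ^ 4⌉₊ := ⟨_, rfl⟩
  have hB02 : 6 * (K2 : ℝ) ^ 3 / cst V' ^ 4 ≤ B2 := by rw [hB2]; exact Nat.le_ceil _
  refine ⟨20000 * W2.toNat + (W3.toNat + 1) + K * L * B1 + (B2 + 1), ?_⟩
  intro b hb hgen e
  obtain ⟨ℓ, hℓ⟩ : ∃ ℓ, ℓ = |b 0| + |b 1| := ⟨_, rfl⟩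
  rw [← hℓ] at hb ⊢
  push_cast at hb
  rw [Int.toNat_of_nonneg hW20, Int.toNat_of_nonneg hW30] at hb
  have hKLB : 0 ≤ (K : ℤ) * L * B1 := by positivity
  have hB2' : 0 ≤ (B2 : ℤ) := by positivity
  have hℓ1 : 1 ≤ ℓ := by linarith
  -- `b` is new
  have hb0 : b ≠ 0 := by
    rintro rfl
    simp at hℓ
    omega
  have hW3' : ∀ w ∈ V, |w 0| + |w 1| ≤ W3 := by
    intro w hw
    rw [hW3]
    exact Finset.single_le_sum (f := fun v : Fin 2 → ℤ => |v 0| + |v 1|)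
      (fun _ _ => by positivity) hw
  have hbV : b ∉ V := by
    intro h
    have := hW3' b h
    linarith
  have hbV' : -b ∉ V := by
    intro h
    have := hW3' (-b) h
    simp only [Pi.neg_apply, abs_neg] at this
    linarith
  -- the order of `b` modulo the lattice
  obtain ⟨q, hq⟩ : ∃ q, q = addOrderOf (QuotientAddGroup.mk' Λ b) := ⟨_, rfl⟩
  have hqm : q ∣ m := by
    rw [hq, addOrderOf_dvd_iff_nsmul_eq_zero, ← map_nsmul, hm]
    exact (QuotientAddGroup.eq_zero_iff _).2 (Λ.nsmul_index_mem b)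
  have hq0 : 0 < q := Nat.pos_of_dvd_of_pos hqm (Nat.pos_of_ne_zero hm0)
  have hqm' : q ≤ m := Nat.le_of_dvd (Nat.pos_of_ne_zero hm0) hqm
  have hqb : (q : ℤ) • b ∈ Λ := by
    have h1 : q • QuotientAddGroup.mk' Λ b = 0 := by rw [hq]; exact addOrderOf_nsmul_eq_zero _
    rw [← map_nsmul] at h1
    rw [natCast_zsmul]
    exact (QuotientAddGroup.eq_zero_iff _).1 h1
  obtain ⟨β, hβ⟩ := (hι _).1 hqb
  have hmod : ∀ t : ℤ, t • b ∈ Λ → ∃ s : ℤ, t = s * q := by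
    intro t ht
    have h1 : (q : ℤ) ∣ t := by
      rw [hq, addOrderOf_dvd_iff_zsmul_eq_zero, ← map_zsmul]
      exact (QuotientAddGroup.eq_zero_iff _).2 ht
    obtain ⟨s, hs⟩ := h1
    exact ⟨s, by rw [hs, mul_comm]⟩
  have hspan : ∀ x : Fin 2 → ℤ, ∃ (z : Z2) (k : ℤ), x = ι z + k • b := by
    intro x
    have hx : x ∈ AddSubgroup.closure (insert b V : Set (Fin 2 → ℤ)) := by
      rw [hgen]; exact AddSubgroup.mem_top _
    induction hx using AddSubgroup.closure_induction with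
    | mem w hw =>
      rcases hw with rfl | hw
      · exact ⟨0, 1, by simp⟩
      · have h1 : w ∈ Λ := by
          rw [hΛ]
          exact AddSubgroup.subset_closure hw
        obtain ⟨z, hz⟩ := (hι w).1 h1
        exact ⟨z, 0, by rw [hz, zero_smul, add_zero]⟩
    | zero => exact ⟨0, 0, by simp⟩
    | add s t _ _ hs ht =>
      obtain ⟨z, k, rfl⟩ := hs
      obtain ⟨z', k', rfl⟩ := ht
      exact ⟨z + z', k + k', by rw [map_add, add_smul]; abel⟩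
    | neg s _ hs =>
      obtain ⟨z, k, rfl⟩ := hs
      exact ⟨-z, -k, by rw [map_neg, neg_smul]; abel⟩
  -- the quotient
  obtain ⟨p, hp⟩ : ∃ p : (Fin 2 → ℤ) →+ (Fin 2 → ℤ) ⧸ AddSubgroup.zmultiples b,
    p = QuotientAddGroup.mk' (AddSubgroup.zmultiples b) := ⟨_, rfl⟩
  have hpb : p b = 0 := by
    rw [hp]
    exact (QuotientAddGroup.eq_zero_iff b).2 (AddSubgroup.mem_zmultiples b)
  have hpsurj : Function.Surjective p := by
    rw [hp]
    exact QuotientAddGroup.mk'_surjective _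
  have hpker : ∀ y, p y = 0 → ∃ t : ℤ, y = t • b := by
    intro y hy
    rw [hp] at hy
    have h1 := (QuotientAddGroup.eq_zero_iff y).1 hy
    rw [AddSubgroup.mem_zmultiples_iff] at h1
    obtain ⟨t, ht⟩ := h1
    exact ⟨t, ht.symm⟩
  obtain ⟨μ, hμ⟩ : ∃ μ : (Fin 2 → ℤ) →+ ℤ, ∀ x, μ x = x 0 * b 0 + x 1 * b 1 :=
    ⟨{ toFun := fun x => x 0 * b 0 + x 1 * b 1
       map_zero' := by simp
       map_add' := fun x y => by
         simp only [Pi.add_apply]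
         ring }, fun _ => rfl⟩
  have hμb : ℓ ^ 2 ≤ 2 * μ b := by
    rw [hμ, hℓ]
    nlinarith [sq_nonneg (|b 0| - |b 1|), abs_mul_abs_self (b 0), abs_mul_abs_self (b 1)]
  have hμ0 : 0 < μ b := by nlinarith
  have htow : Tower p b μ := ⟨hpsurj, hpker, hpb, hμ0⟩
  have hcyl : Cyl (p.comp ι) β := by
    refine ⟨?_, ?_, ?_⟩
    · intro y
      obtain ⟨x, rfl⟩ := hpsurj y
      obtain ⟨z, k, hz⟩ := hspan x
      refine ⟨z, ?_⟩
      rw [AddMonoidHom.comp_apply, hz, map_add, map_zsmul, hpb, smul_zero, add_zero]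
    · intro z hz
      rw [AddMonoidHom.comp_apply] at hz
      obtain ⟨t, ht⟩ := hpker _ hz
      obtain ⟨s, hs⟩ := hmod t (by rw [← ht]; exact (hι _).2 ⟨z, rfl⟩)
      refine ⟨s, hinj ?_⟩
      rw [map_zsmul, hβ, ht, hs, smul_smul]
    · rw [AddMonoidHom.comp_apply, hβ, map_zsmul, hpb, smul_zero]
  -- the length
  have hιβ : |ι β 0| + |ι β 1| = q * ℓ := by
    rw [hβ, hℓ]
    simp only [Pi.smul_apply, smul_eq_mul, abs_mul, Nat.abs_cast]
    ring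
  have hlow : ℓ ≤ K * L * EE V' β := by
    have h1 := hK β
    have h2 := hL β
    rw [hιβ] at h1
    have h3 : ℓ ≤ q * ℓ := by nlinarith
    calc ℓ ≤ q * ℓ := h3
      _ ≤ K * (|β.1| + |β.2|) := h1
      _ ≤ K * (L * EE V' β) := mul_le_mul_of_nonneg_left h2 (by positivity)
      _ = K * L * EE V' β := by ring
  have hup : (EE V' β : ℤ) ≤ K2 * ℓ := by
    have h1 := EE_upper V' β
    have h2 := hK3 β
    rw [hιβ] at h2
    rw [← hW1] at h1
    have hqm'' : (q : ℤ) ≤ m := by exact_mod_cast hqm'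
    calc (EE V' β : ℤ) ≤ W1 * (|β.1| + |β.2|) := h1
      _ ≤ W1 * (K3 * (q * ℓ)) := mul_le_mul_of_nonneg_left h2 hW10
      _ ≤ W1 * (K3 * (m * ℓ)) := by
          apply mul_le_mul_of_nonneg_left _ hW10
          apply mul_le_mul_of_nonneg_left _ (by positivity)
          exact mul_le_mul_of_nonneg_right hqm'' (by linarith)
      _ = K2 * ℓ := by rw [hK2]; ring
  have hEB : B0 < EE V' β := by
    by_contra hle
    push Not at hle
    have h1 : (EE V' β : ℝ) ≤ B1 := le_trans hle hB01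
    have h2 : EE V' β ≤ B1 := by exact_mod_cast h1
    have h3 : (K : ℤ) * L * EE V' β ≤ K * L * B1 :=
      mul_le_mul_of_nonneg_left (by exact_mod_cast h2) (by positivity)
    linarith
  have hheights : (∑ v ∈ V', ((μ (ι v)).natAbs : ℝ)) ≤ 1 / 10000 * μ b := by
    have h1 : (∑ v ∈ V', ((μ (ι v)).natAbs : ℤ)) ≤ W2 * ℓ := by
      rw [hW2, Finset.sum_mul]
      apply Finset.sum_le_sum
      intro v _
      rw [← Int.abs_eq_natAbs, hμ, hℓ]
      have a0 := abs_add_le (ι v 0 * b 0) (ι v 1 * b 1)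
      rw [abs_mul, abs_mul] at a0
      have p1 := abs_nonneg (ι v 0)
      have p2 := abs_nonneg (ι v 1)
      have q1 := abs_nonneg (b 0)
      have q2 := abs_nonneg (b 1)
      nlinarith [mul_nonneg p1 q2, mul_nonneg p2 q1]
    have h2 : 20000 * (W2 * ℓ) ≤ 2 * μ b := by
      have : 20000 * W2 * ℓ ≤ ℓ * ℓ := mul_le_mul_of_nonneg_right (by linarith) (by linarith)
      nlinarith
    have h3 : 10000 * (∑ v ∈ V', ((μ (ι v)).natAbs : ℤ)) ≤ μ b := by linarith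
    obtain ⟨s, hs⟩ : ∃ s : ℕ, s = ∑ v ∈ V', (μ (ι v)).natAbs := ⟨_, rfl⟩
    have hs1 : (∑ v ∈ V', ((μ (ι v)).natAbs : ℤ)) = (s : ℤ) := by rw [hs, Nat.cast_sum]
    have hs2 : (∑ v ∈ V', ((μ (ι v)).natAbs : ℝ)) = (s : ℝ) := by rw [hs, Nat.cast_sum]
    rw [hs1] at h3
    rw [hs2]
    have h4 : 10000 * (s : ℝ) ≤ μ b := by exact_mod_cast h3
    linarith
  obtain ⟨C0, hC0⟩ := hcore htow hcyl hEB hheights
  -- optimality
  have hbd : ∀ S, edgeBoundary (insert b V) S = 2 * tau ι b V' S := by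
    intro S
    rw [edgeBoundary_half (by
      rw [mem_insert, not_or]
      exact ⟨hb0.symm, h0⟩), sum_half_insert hb0 hbV hbV']
    unfold tau fS
    rw [← hV', Finset.sum_image (fun x _ y _ h => hinj h)]
  have hnon : ∀ n : ℕ, (((range n).image e).image p).card ≤ C0 →
      ((((range n).image e).image p).card = C0 ∨ 6 * (EE V' β : ℝ) ^ 3 / cst V' ^ 4 ≤ n) →
      ¬ EdgeOptimal (insert b V) ((range n).image e) := by
    intro n h1 h2 hopt
    have hcard : ((range n).image e).card = n := by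
      rw [card_image_of_injective _ e.injective, card_range]
    obtain ⟨S', h3, h4⟩ := hC0 ((range n).image e) h1 (by rw [hcard]; exact h2)
    have h5 := hopt S' h3
    rw [hbd, hbd] at h5
    omega
  -- the number of classes
  obtain ⟨N, hN⟩ : ∃ N : ℕ, N = ⌈6 * (EE V' β : ℝ) ^ 3 / cst V' ^ 4⌉₊ := ⟨_, rfl⟩
  have hN1 : 6 * (EE V' β : ℝ) ^ 3 / cst V' ^ 4 ≤ N := by rw [hN]; exact Nat.le_ceil _
  have hN2 : (N : ℤ) ≤ ℓ ^ 4 := by
    have h1 : (N : ℝ) < 6 * (EE V' β : ℝ) ^ 3 / cst V' ^ 4 + 1 := by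
      rw [hN]
      exact Nat.ceil_lt_add_one (by positivity)
    have h2 : (EE V' β : ℝ) ≤ K2 * ℓ := by exact_mod_cast hup
    have hℓ0 : (0 : ℝ) ≤ ℓ := by
      have : 0 ≤ ℓ := by linarith
      exact_mod_cast this
    have h3 : 6 * (EE V' β : ℝ) ^ 3 / cst V' ^ 4 ≤ B2 * (ℓ : ℝ) ^ 3 := by
      calc 6 * (EE V' β : ℝ) ^ 3 / cst V' ^ 4 ≤ 6 * (K2 * ℓ : ℝ) ^ 3 / cst V' ^ 4 := by
            apply div_le_div_of_nonneg_right _ (by positivity)
            apply mul_le_mul_of_nonneg_left _ (by norm_num)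
            exact pow_le_pow_left₀ (by positivity) h2 3
        _ = (6 * (K2 : ℝ) ^ 3 / cst V' ^ 4) * (ℓ : ℝ) ^ 3 := by ring
        _ ≤ B2 * (ℓ : ℝ) ^ 3 := mul_le_mul_of_nonneg_right hB02 (by positivity)
    have h4 : (N : ℝ) < B2 * (ℓ : ℝ) ^ 3 + 1 := by linarith
    have h5 : (N : ℤ) < B2 * ℓ ^ 3 + 1 := by exact_mod_cast h4
    have h6 : (B2 : ℤ) + 1 ≤ ℓ := by linarith
    have h7 : 1 ≤ ℓ ^ 3 := one_le_pow₀ hℓ1
    nlinarith
  by_cases hcl : (((range N).image e).image p).card ≤ C0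
  · exact ⟨N, hN2, hnon N hcl (Or.inr hN1)⟩
  · push Not at hcl
    obtain ⟨n, hn1, hn2⟩ := ivt (k := fun n => (((range n).image e).image p).card) (by simp)
      (fun n => by
        rw [Finset.range_add_one, Finset.image_insert, Finset.image_insert]
        exact card_insert_le _ _) C0 N hcl.le
    refine ⟨n, ?_, hnon n hn2.le (Or.inl hn2)⟩
    have : (n : ℤ) ≤ N := by exact_mod_cast hn1
    linarith

end Pool.Agent.Lib.MP_602b76_co_Far
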