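import Pool.Agent.Lib.MP_602b76_co_Plane.Final

/-!
# One far generator in the plane: representatives up to sign
-/

namespace Pool.Agent.Lib.MP_602b76_co_Far

open Finset Pool.Agent.Lib.MP_602b76_co_Plane Pool.Agent.Lib.MP_602b76_co_Never

/-- One of `x` and `-x`. -/
def Pos (x : Fin 2 → ℤ) : Prop := 0 < x 0 ∨ (x 0 = 0 ∧ 0 < x 1)

instance : DecidablePred Pos := fun x => by
  unfold Pos
  infer_instance

theorem pos_or {x : Fin 2 → ℤ} (hx : x ≠ 0) : Pos x ∨ Pos (-x) := by
  by_contra hcon
  unfold Pos at hcon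
  push Not at hcon
  simp only [Pi.neg_apply] at hcon
  apply hx
  funext i
  have h1 := hcon.1.1
  have h2 := hcon.2.1
  have h0 : x 0 = 0 := by omega
  have h3 := hcon.1.2 h0
  have h4 := hcon.2.2 (by omega)
  fin_cases i
  · exact h0
  · simp only [Fin.mk_one, Pi.zero_apply]
    omega

theorem not_pos_neg {x : Fin 2 → ℤ} (hx : Pos x) : ¬ Pos (-x) := by
  unfold Pos at *
  simp only [Pi.neg_apply]
  omega

theorem Pos.ne_zero {x : Fin 2 → ℤ} (hx : Pos x) : x ≠ 0 := by
  rintro rfl
  unfold Pos at hx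
  simp at hx

/-- The representatives. -/
def half (U : Finset (Fin 2 → ℤ)) : Finset (Fin 2 → ℤ) :=
  (U ∪ U.image (fun u => -u)).filter Pos

theorem mem_half {U : Finset (Fin 2 → ℤ)} {w : Fin 2 → ℤ} :
    w ∈ half U ↔ (w ∈ U ∨ -w ∈ U) ∧ Pos w := by
  unfold half
  rw [mem_filter, mem_union, mem_image]
  constructor
  · rintro ⟨h | ⟨u, hu, rfl⟩, h2⟩
    · exact ⟨Or.inl h, h2⟩
    · exact ⟨Or.inr (by rw [neg_neg]; exact hu), h2⟩
  · rintro ⟨h | h, h2⟩
    · exact ⟨Or.inl h, h2⟩
    · exact ⟨Or.inr ⟨-w, h, neg_neg w⟩, h2⟩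

/-- The edge boundary is twice the number of chains. -/
theorem edgeBoundary_half {U : Finset (Fin 2 → ℤ)} (h0 : (0 : Fin 2 → ℤ) ∉ U)
    (S : Finset (Fin 2 → ℤ)) : edgeBoundary U S = 2 * ∑ w ∈ half U, ch w S := by
  rw [edgeBoundary_eq_sum]
  have h1 : ∑ w ∈ U ∪ U.image (fun u => -u), ch w S =
      ∑ w ∈ (U ∪ U.image (fun u => -u)).filter Pos, ch w S +
        ∑ w ∈ (U ∪ U.image (fun u => -u)).filter (fun w => ¬ Pos w), ch w S :=
    (Finset.sum_filter_add_sum_filter_not _ _ _).symm
  have h2 : ∑ w ∈ (U ∪ U.image (fun u => -u)).filter (fun w => ¬ Pos w), ch w S =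
      ∑ w ∈ half U, ch w S := by
    symm
    apply Finset.sum_bij (fun w _ => -w)
    · intro w hw
      rw [mem_half] at hw
      rw [mem_filter, mem_union, mem_image]
      refine ⟨?_, not_pos_neg hw.2⟩
      rcases hw.1 with h | h
      · exact Or.inr ⟨w, h, rfl⟩
      · exact Or.inl h
    · intro w _ w' _ h
      exact neg_injective h
    · intro w hw
      rw [mem_filter, mem_union, mem_image] at hw
      refine ⟨-w, ?_, neg_neg w⟩
      rw [mem_half, neg_neg]
      have hw0 : w ≠ 0 := by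
        rintro rfl
        rcases hw.1 with h | ⟨u, hu, hu0⟩
        · exact h0 h
        · rw [neg_eq_zero] at hu0
          rw [hu0] at hu
          exact h0 hu
      refine ⟨?_, (pos_or hw0).resolve_left hw.2⟩
      rcases hw.1 with h | ⟨u, hu, rfl⟩
      · exact Or.inr h
      · exact Or.inl (by rw [neg_neg]; exact hu)
    · intro w _
      exact (ch_neg w S).symm
  rw [h1, h2]
  unfold half
  ring

/-- Adding a generator. -/
theorem sum_half_insert {V : Finset (Fin 2 → ℤ)} {b : Fin 2 → ℤ} (hb : b ≠ 0) (hbV : b ∉ V)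
    (hbV' : -b ∉ V) (S : Finset (Fin 2 → ℤ)) :
    ∑ w ∈ half (insert b V), ch w S = ∑ w ∈ half V, ch w S + ch b S := by
  obtain ⟨b', hb', hpos⟩ : ∃ b', (b' = b ∨ b' = -b) ∧ Pos b' := by
    rcases pos_or hb with h | h
    · exact ⟨b, Or.inl rfl, h⟩
    · exact ⟨-b, Or.inr rfl, h⟩
  have h1 : half (insert b V) = insert b' (half V) := by
    ext w
    rw [mem_insert, mem_half, mem_half, mem_insert, mem_insert]
    constructor
    · rintro ⟨(rfl | h) | (h | h), h2⟩
      · left
        rcases hb' with h3 | h3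
        · exact h3.symm
        · rw [h3] at hpos
          exact absurd hpos (not_pos_neg h2)
      · exact Or.inr ⟨Or.inl h, h2⟩
      · left
        have hw : w = -b := by rw [← h, neg_neg]
        rcases hb' with h3 | h3
        · rw [hw] at h2
          rw [h3] at hpos
          exact absurd h2 (not_pos_neg hpos)
        · rw [hw, h3]
      · exact Or.inr ⟨Or.inr h, h2⟩
    · rintro (rfl | ⟨h, h2⟩)
      · refine ⟨?_, hpos⟩
        rcases hb' with h3 | h3
        · exact Or.inl (Or.inl h3)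
        · exact Or.inr (Or.inl (by rw [h3, neg_neg]))
      · refine ⟨?_, h2⟩
        rcases h with h | h
        · exact Or.inl (Or.inr h)
        · exact Or.inr (Or.inr h)
  have h2 : b' ∉ half V := by
    rw [mem_half]
    rintro ⟨h, _⟩
    rcases hb' with h3 | h3 <;> rw [h3] at h
    · exact h.elim hbV hbV'
    · rw [neg_neg] at h
      exact h.elim hbV' hbV
  have h3 : ch b' S = ch b S := by
    rcases hb' with h3 | h3 <;> rw [h3]
    exact ch_neg b S
  rw [h1, Finset.sum_insert h2, h3, add_comm]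

/-- The representatives generate the same group. -/
theorem closure_half {V : Finset (Fin 2 → ℤ)} (h0 : (0 : Fin 2 → ℤ) ∉ V) :
    AddSubgroup.closure (half V : Set (Fin 2 → ℤ)) =
      AddSubgroup.closure (V : Set (Fin 2 → ℤ)) := by
  apply le_antisymm
  · rw [AddSubgroup.closure_le]
    intro w hw
    rw [Finset.mem_coe, mem_half] at hw
    rcases hw.1 with h | h
    · exact AddSubgroup.subset_closure h
    · rw [← neg_neg w]
      exact (AddSubgroup.closure _).neg_mem (AddSubgroup.subset_closure h)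
  · rw [AddSubgroup.closure_le]
    intro w hw
    rw [Finset.mem_coe] at hw
    have hw0 : w ≠ 0 := fun h => h0 (h ▸ hw)
    rcases pos_or hw0 with h | h
    · exact AddSubgroup.subset_closure (mem_half.2 ⟨Or.inl hw, h⟩)
    · have h1 : -w ∈ AddSubgroup.closure (half V : Set (Fin 2 → ℤ)) :=
        AddSubgroup.subset_closure (mem_half.2 ⟨Or.inr (by rw [neg_neg]; exact hw), h⟩)
      have h2 := (AddSubgroup.closure (half V : Set (Fin 2 → ℤ))).neg_mem h1
      rwa [neg_neg] at h2

end Pool.Agent.Lib.MP_602b76_co_Far
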