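import Pool.Agent.Lib.MP_602b76_co_Far.Basic
import Pool.Agent.Lib.MP_602b76_co_Plane.Layers

/-!
# One far generator in the plane: blocks over a finite subset of the quotient
-/

namespace Pool.Agent.Lib.MP_602b76_co_Far

open Finset Pool.Agent.Lib.MP_602b76_co_Plane

/-- The data of a tower: a surjection with kernel generated by `b`, and a height `μ` which is
positive on `b`. -/
structure Tower {H G : Type} [AddCommGroup H] [AddCommGroup G] (p : H →+ G) (b : H)
    (μ : H →+ ℤ) : Prop where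
  surj : Function.Surjective p
  ker : ∀ y, p y = 0 → ∃ t : ℤ, y = t • b
  base : p b = 0
  pos : 0 < μ b

variable {H G : Type} [AddCommGroup H] [DecidableEq H] [AddCommGroup G] [DecidableEq G]

/-- The block over `T` of height `h`, starting at the height `θ`. -/
def blk (b : H) (μ : H →+ ℤ) (s : G → H) (T : Finset G) (h : ℕ) (θ : ℤ) : Finset H :=
  (T ×ˢ range h).image (fun q => s q.1 + ((q.2 : ℤ) - (μ (s q.1) - θ) / μ b) • b)

section blk

variable {p : H →+ G} {b : H} {μ : H →+ ℤ} {s : G → H}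

omit [DecidableEq G] in
theorem mem_blk (t : Tower p b μ) (hs : ∀ c, p (s c) = c) {T : Finset G} {h : ℕ} {θ : ℤ} {x : H} :
    x ∈ blk b μ s T h θ ↔ p x ∈ T ∧ θ ≤ μ x ∧ μ x < θ + h * μ b := by
  have hD := t.pos
  unfold blk
  rw [mem_image]
  constructor
  · rintro ⟨⟨c, j⟩, hq, rfl⟩
    rw [mem_product, mem_range] at hq
    obtain ⟨hc, hj⟩ := hq
    have h0 := Int.emod_nonneg (μ (s c) - θ) hD.ne'
    have h1 := Int.emod_lt_of_pos (μ (s c) - θ) hD
    have h2 := Int.emod_add_mul_ediv (μ (s c) - θ) (μ b)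
    have h3 : μ (s c + ((j : ℤ) - (μ (s c) - θ) / μ b) • b) =
        θ + (μ (s c) - θ) % μ b + j * μ b := by
      rw [map_add, map_zsmul, smul_eq_mul]
      linarith [mul_comm (μ b) ((μ (s c) - θ) / μ b)]
    refine ⟨?_, ?_, ?_⟩
    · have : p (s c + ((j : ℤ) - (μ (s c) - θ) / μ b) • b) = c := by
        rw [map_add, map_zsmul, t.base, smul_zero, add_zero, hs]
      rw [this]
      exact hc
    · rw [h3]
      have : 0 ≤ (j : ℤ) * μ b := by positivity
      linarith
    · rw [h3]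
      have h4 : ((j : ℤ) + 1) * μ b ≤ h * μ b := by
        apply mul_le_mul_of_nonneg_right _ hD.le
        exact_mod_cast hj
      linarith
  · rintro ⟨hc, h1, h2⟩
    obtain ⟨k, hk⟩ := t.ker (x - s (p x)) (by rw [map_sub, hs, sub_self])
    obtain ⟨c, hcdef⟩ : ∃ c, c = p x := ⟨_, rfl⟩
    rw [← hcdef] at hc hk
    have hx : x = s c + k • b := by rw [← hk]; abel
    have hμ : μ x = μ (s c) + k * μ b := by rw [hx, map_add, map_zsmul, smul_eq_mul]
    have g0 := Int.emod_nonneg (μ (s c) - θ) hD.ne'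
    have g1 := Int.emod_lt_of_pos (μ (s c) - θ) hD
    have g2 := Int.emod_add_mul_ediv (μ (s c) - θ) (μ b)
    obtain ⟨q, hq⟩ : ∃ q, q = (μ (s c) - θ) / μ b := ⟨_, rfl⟩
    obtain ⟨r, hr⟩ : ∃ r, r = (μ (s c) - θ) % μ b := ⟨_, rfl⟩
    rw [← hq, ← hr] at g2
    rw [← hr] at g0 g1
    have e1 : μ x = θ + r + (k + q) * μ b := by rw [hμ]; linarith [mul_comm (μ b) q]
    have hj0 : 0 ≤ k + q := by
      by_contra hlt
      have : (k + q) * μ b ≤ -1 * μ b := mul_le_mul_of_nonneg_right (by omega) hD.le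
      linarith
    have hjh : k + q < h := by
      by_contra hge
      have : (h : ℤ) * μ b ≤ (k + q) * μ b := mul_le_mul_of_nonneg_right (by omega) hD.le
      linarith
    refine ⟨(c, (k + q).toNat), ?_, ?_⟩
    · rw [mem_product, mem_range]
      exact ⟨hc, by omega⟩
    · simp only
      rw [← hq, Int.toNat_of_nonneg hj0, add_sub_cancel_right, hx]

omit [DecidableEq G] in
theorem card_blk (t : Tower p b μ) (hs : ∀ c, p (s c) = c) (T : Finset G) (h : ℕ) (θ : ℤ) :
    (blk b μ s T h θ).card = h * T.card := by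
  unfold blk
  rw [card_image_of_injective, card_product, card_range, mul_comm]
  rintro ⟨c, j⟩ ⟨c', j'⟩ heq
  simp only at heq
  have h1 := congrArg p heq
  rw [map_add, map_add, map_zsmul, map_zsmul, t.base, smul_zero, smul_zero, add_zero, add_zero,
    hs, hs] at h1
  subst h1
  have h2 := congrArg μ heq
  rw [map_add, map_add, map_zsmul, map_zsmul, smul_eq_mul, smul_eq_mul] at h2
  have h3 : ((j : ℤ) - (μ (s c) - θ) / μ b) * μ b = ((j' : ℤ) - (μ (s c) - θ) / μ b) * μ b := by
    linarith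
  have h4 := mul_right_cancel₀ t.pos.ne' h3
  have h5 : (j : ℤ) = j' := by linarith
  rw [Prod.mk.injEq]
  exact ⟨rfl, by exact_mod_cast h5⟩

/-- The chains of a step over all blocks of height `h`. -/
theorem sum_ch_blk (t : Tower p b μ) (hs : ∀ c, p (s c) = c) (T : Finset G) (h : ℕ) {w : H}
    (hw : 0 ≤ μ w) :
    ∑ θ ∈ range (μ b).toNat, ch w (blk b μ s T h θ) ≤
      (μ b).toNat * (h * ch (p w) T) + T.card * (μ w).toNat := by
  have hD := t.pos
  have h1 : ∀ θ ∈ range (μ b).toNat, ch w (blk b μ s T h (θ : ℤ)) ≤ h * ch (p w) T +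
      ((blk b μ s T h (θ : ℤ)).filter (fun x => (θ : ℤ) + h * μ b ≤ μ x + μ w)).card := by
    intro θ _
    have h2 : (blk b μ s T h (θ : ℤ)).filter (fun x => x + w ∉ blk b μ s T h (θ : ℤ)) ⊆
        blk b μ s (T.filter (fun c => c + p w ∉ T)) h (θ : ℤ) ∪
          (blk b μ s T h (θ : ℤ)).filter (fun x => (θ : ℤ) + h * μ b ≤ μ x + μ w) := by
      intro x hx
      rw [mem_filter, mem_blk t hs, mem_blk t hs, map_add, map_add] at hx
      rw [mem_union, mem_blk t hs, mem_filter, mem_filter, mem_blk t hs]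
      obtain ⟨⟨hx1, hx2, hx3⟩, hx4⟩ := hx
      by_cases hc : p x + p w ∈ T
      · right
        refine ⟨⟨hx1, hx2, hx3⟩, ?_⟩
        by_contra hlt
        push Not at hlt
        exact hx4 ⟨hc, by linarith, hlt⟩
      · left
        exact ⟨⟨hx1, hc⟩, hx2, hx3⟩
    have h3 := le_trans (card_le_card h2) (card_union_le _ _)
    rw [card_blk t hs] at h3
    exact h3
  have h4 : ∑ θ ∈ range (μ b).toNat,
      ((blk b μ s T h (θ : ℤ)).filter (fun x => (θ : ℤ) + h * μ b ≤ μ x + μ w)).card ≤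
        T.card * (μ w).toNat := by
    rw [← Finset.card_sigma]
    have h5 : (T ×ˢ range (μ w).toNat).card = T.card * (μ w).toNat := by
      rw [card_product, card_range]
    rw [← h5]
    apply card_le_card_of_injOn
      (fun z => (p z.2, ((z.1 : ℤ) + h * μ b - 1 - μ z.2).toNat))
    · rintro ⟨θ, x⟩ hz
      rw [Finset.mem_coe, Finset.mem_sigma, mem_filter, mem_blk t hs] at hz
      simp only at hz
      obtain ⟨_, ⟨hx1, _, hx3⟩, hx4⟩ := hz
      rw [Finset.mem_coe, mem_product, mem_range]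
      refine ⟨hx1, ?_⟩
      simp only
      omega
    · rintro ⟨θ, x⟩ hz ⟨θ', x'⟩ hz' heq
      rw [Finset.mem_coe, Finset.mem_sigma, mem_filter, mem_blk t hs] at hz hz'
      simp only at hz hz'
      simp only [Prod.mk.injEq] at heq
      obtain ⟨hc, hj⟩ := heq
      rw [mem_range] at hz hz'
      obtain ⟨hθ, ⟨_, _, hx3⟩, _⟩ := hz
      obtain ⟨hθ', ⟨_, _, hx3'⟩, _⟩ := hz'
      have e1 : (θ : ℤ) - μ x = θ' - μ x' := by omega
      obtain ⟨k, hk⟩ := t.ker (x - x') (by rw [map_sub, hc, sub_self])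
      have e2 : μ x - μ x' = k * μ b := by rw [← map_sub, hk, map_zsmul, smul_eq_mul]
      have e3 : (θ : ℤ) - θ' = k * μ b := by linarith
      have e4 : (θ : ℤ) < μ b := by omega
      have e5 : (θ' : ℤ) < μ b := by omega
      have hk0 : k = 0 := by
        by_contra hne
        rcases lt_or_gt_of_ne hne with hlt | hgt
        · have : k * μ b ≤ -1 * μ b := mul_le_mul_of_nonneg_right (by omega) hD.le
          omega
        · have : 1 * μ b ≤ k * μ b := mul_le_mul_of_nonneg_right (by omega) hD.le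
          omega
      rw [hk0, zero_smul, sub_eq_zero] at hk
      rw [hk0, zero_mul] at e3
      have : θ = θ' := by omega
      subst this
      rw [hk]
  calc ∑ θ ∈ range (μ b).toNat, ch w (blk b μ s T h θ)
      ≤ ∑ θ ∈ range (μ b).toNat, (h * ch (p w) T +
        ((blk b μ s T h (θ : ℤ)).filter (fun x => (θ : ℤ) + h * μ b ≤ μ x + μ w)).card) :=
        Finset.sum_le_sum h1
    _ ≤ _ := by
        rw [Finset.sum_add_distrib, Finset.sum_const, card_range, smul_eq_mul]
        exact Nat.add_le_add_left h4 _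

/-- The same without the sign. -/
theorem sum_ch_blk' (t : Tower p b μ) (hs : ∀ c, p (s c) = c) (T : Finset G) (h : ℕ) (w : H) :
    ∑ θ ∈ range (μ b).toNat, ch w (blk b μ s T h θ) ≤
      (μ b).toNat * (h * ch (p w) T) + T.card * (μ w).natAbs := by
  rcases le_total 0 (μ w) with h0 | h0
  · have h1 := sum_ch_blk t hs T h h0
    have h2 : (μ w).toNat = (μ w).natAbs := by omega
    rw [h2] at h1
    exact h1
  · have h1 := sum_ch_blk t hs T h (w := -w) (by rw [map_neg]; omega)
    simp only [ch_neg, map_neg] at h1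
    have h2 : (-μ w).toNat = (μ w).natAbs := by omega
    rw [h2] at h1
    exact h1

end blk

/-- The number of all chains. -/
def tau (ι : Z2 →+ H) (b : H) (V : Finset Z2) (S : Finset H) : ℕ := fS ι V S + ch b S

omit [DecidableEq G] in
theorem tau_union_le (ι : Z2 →+ H) (b : H) (V : Finset Z2) (S T : Finset H) :
    tau ι b V (S ∪ T) ≤ tau ι b V S + tau ι b V T := by
  unfold tau
  have h1 := fS_union_le ι V S T
  have h2 := ch_union_le b S T
  omega

theorem tau_translate (ι : Z2 →+ H) (b : H) (V : Finset Z2) (t : H) (S : Finset H) :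
    tau ι b V (S.image (fun x => x + t)) = tau ι b V S := by
  unfold tau
  rw [fS_translate, ch_translate]

theorem tau_le_card (ι : Z2 →+ H) (b : H) (V : Finset Z2) (S : Finset H) :
    tau ι b V S ≤ (V.card + 1) * S.card := by
  unfold tau
  have h1 := fS_le_card ι V S
  have h2 := ch_le_card b S
  rw [add_mul, one_mul]
  omega

/-- **Blocks.** -/
theorem exists_blk {p : H →+ G} {b : H} {μ : H →+ ℤ} (t : Tower p b μ) (ι : Z2 →+ H)
    (V : Finset Z2) (T : Finset G) (h : ℕ) :
    ∃ S : Finset H, S.card = h * T.card ∧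
      (μ b).toNat * tau ι b V S ≤
        (μ b).toNat * (T.card + h * fS (p.comp ι) V T) +
          T.card * ∑ v ∈ V, (μ (ι v)).natAbs := by
  obtain ⟨s, hs⟩ : ∃ s : G → H, ∀ c, p (s c) = c := ⟨fun c => (t.surj c).choose,
    fun c => (t.surj c).choose_spec⟩
  have hD := t.pos
  obtain ⟨X, hX⟩ : ∃ X, X = (μ b).toNat * (T.card + h * fS (p.comp ι) V T) +
          T.card * ∑ v ∈ V, (μ (ι v)).natAbs := ⟨_, rfl⟩
  have h1 : ∑ θ ∈ range (μ b).toNat, tau ι b V (blk b μ s T h θ) ≤ X := by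
    unfold tau
    rw [Finset.sum_add_distrib]
    have h2 : ∑ θ ∈ range (μ b).toNat, ch b (blk b μ s T h θ) ≤ (μ b).toNat * T.card := by
      have g := sum_ch_blk t hs T h hD.le
      rw [t.base, ch_zero, mul_zero, mul_zero, zero_add] at g
      rw [mul_comm]
      exact g
    have h3 : ∑ θ ∈ range (μ b).toNat, fS ι V (blk b μ s T h θ) ≤
        (μ b).toNat * (h * fS (p.comp ι) V T) + T.card * ∑ v ∈ V, (μ (ι v)).natAbs := by
      unfold fS
      rw [Finset.sum_comm, Finset.mul_sum, Finset.mul_sum, Finset.mul_sum,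
        ← Finset.sum_add_distrib]
      exact Finset.sum_le_sum (fun v _ => sum_ch_blk' t hs T h (ι v))
    rw [hX, mul_add]
    omega
  have hne : (range (μ b).toNat).Nonempty := by
    rw [Finset.nonempty_range_iff]
    omega
  obtain ⟨θ, _, hθ⟩ := Finset.exists_le_of_sum_le (s := range (μ b).toNat)
    (f := fun θ : ℕ => (μ b).toNat * tau ι b V (blk b μ s T h θ)) (g := fun _ => X) hne (by
      rw [← Finset.mul_sum, Finset.sum_const, card_range, smul_eq_mul]
      exact Nat.mul_le_mul_left _ h1)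
  exact ⟨blk b μ s T h θ, card_blk t hs T h θ, by rw [← hX]; exact hθ⟩

/-! ## The cost of a number -/

/-- There is a set of `n` points with at most `x` chains. -/
def Cost (ι : Z2 →+ H) (b : H) (V : Finset Z2) (n : ℕ) (x : ℝ) : Prop :=
  ∃ S : Finset H, S.card = n ∧ (tau ι b V S : ℝ) ≤ x

theorem Cost.mono {ι : Z2 →+ H} {b : H} {V : Finset Z2} {n : ℕ} {x y : ℝ}
    (h : Cost ι b V n x) (hxy : x ≤ y) : Cost ι b V n y := by
  obtain ⟨S, h1, h2⟩ := h
  exact ⟨S, h1, le_trans h2 hxy⟩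

omit [DecidableEq G] in
theorem Cost.add {p : H →+ G} {b : H} {μ : H →+ ℤ} (t : Tower p b μ) {ι : Z2 →+ H}
    {V : Finset Z2} {n m : ℕ} {x y : ℝ} (hn : Cost ι b V n x) (hm : Cost ι b V m y) :
    Cost ι b V (n + m) (x + y) := by
  obtain ⟨S, hS1, hS2⟩ := hn
  obtain ⟨T, hT1, hT2⟩ := hm
  obtain ⟨N, hN⟩ : ∃ N : ℤ, N = (∑ x ∈ S, |μ x|) + (∑ x ∈ T, |μ x|) + 1 := ⟨_, rfl⟩
  have hD := t.pos
  have hdisj : Disjoint S (T.image (fun x => x + N • b)) := by
    rw [Finset.disjoint_left]
    intro z hz hz'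
    rw [mem_image] at hz'
    obtain ⟨y, hy, hyz⟩ := hz'
    have h1 : |μ z| ≤ ∑ x ∈ S, |μ x| :=
      Finset.single_le_sum (f := fun x => |μ x|) (fun _ _ => abs_nonneg _) hz
    have h2 : |μ y| ≤ ∑ x ∈ T, |μ x| :=
      Finset.single_le_sum (f := fun x => |μ x|) (fun _ _ => abs_nonneg _) hy
    have h3 : μ z = μ y + N * μ b := by rw [← hyz, map_add, map_zsmul, smul_eq_mul]
    have h4 := le_abs_self (μ z)
    have h5 := neg_abs_le (μ y)
    have h6 : 0 ≤ N := by
      rw [hN]
      have g1 : 0 ≤ ∑ x ∈ S, |μ x| := Finset.sum_nonneg (fun _ _ => abs_nonneg _)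
      have g2 : 0 ≤ ∑ x ∈ T, |μ x| := Finset.sum_nonneg (fun _ _ => abs_nonneg _)
      linarith
    have h7 : N * 1 ≤ N * μ b := mul_le_mul_of_nonneg_left (by omega) h6
    linarith
  refine ⟨S ∪ T.image (fun x => x + N • b), ?_, ?_⟩
  · rw [card_union_of_disjoint hdisj, card_image_of_injective _ (add_left_injective _), hS1, hT1]
  · have h1 := tau_union_le ι b V S (T.image (fun x => x + N • b))
    rw [tau_translate] at h1
    have h2 : (tau ι b V (S ∪ T.image (fun x => x + N • b)) : ℝ) ≤ tau ι b V S + tau ι b V T := by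
      exact_mod_cast h1
    linarith

omit [DecidableEq G] in
theorem cost_small {p : H →+ G} {b : H} {μ : H →+ ℤ} (t : Tower p b μ) (ι : Z2 →+ H)
    (V : Finset Z2) (n : ℕ) : Cost ι b V n ((V.card + 1) * n) := by
  have hinj : Function.Injective (fun j : ℕ => (j : ℤ) • b) := by
    intro j k hjk
    have h1 := congrArg μ hjk
    simp only [map_zsmul, smul_eq_mul] at h1
    have h2 := mul_right_cancel₀ t.pos.ne' h1
    exact_mod_cast h2
  refine ⟨(range n).image (fun j : ℕ => (j : ℤ) • b), ?_, ?_⟩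
  · rw [card_image_of_injective _ hinj, card_range]
  · have h1 := tau_le_card ι b V ((range n).image (fun j : ℕ => (j : ℤ) • b))
    rw [card_image_of_injective _ hinj, card_range] at h1
    exact_mod_cast h1

theorem cost_blk {p : H →+ G} {b : H} {μ : H →+ ℤ} (t : Tower p b μ) (ι : Z2 →+ H)
    (V : Finset Z2) {κ : ℝ} (hκ : (∑ v ∈ V, ((μ (ι v)).natAbs : ℝ)) ≤ κ * μ b)
    (T : Finset G) (h : ℕ) :
    Cost ι b V (h * T.card) ((1 + κ) * T.card + h * fS (p.comp ι) V T) := by
  obtain ⟨S, h1, h2⟩ := exists_blk t ι V T h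
  refine ⟨S, h1, ?_⟩
  have hD : (0 : ℝ) < μ b := by exact_mod_cast t.pos
  have h3 : (((μ b).toNat * tau ι b V S : ℕ) : ℝ) ≤
      (((μ b).toNat * (T.card + h * fS (p.comp ι) V T) +
          T.card * ∑ v ∈ V, (μ (ι v)).natAbs : ℕ) : ℝ) := by exact_mod_cast h2
  push_cast at h3
  have h4 : (((μ b).toNat : ℕ) : ℝ) = μ b := by
    have : (((μ b).toNat : ℕ) : ℤ) = μ b := Int.toNat_of_nonneg t.pos.le
    exact_mod_cast this
  rw [h4] at h3
  have h5 : (T.card : ℝ) * ∑ v ∈ V, ((μ (ι v)).natAbs : ℝ) ≤ T.card * (κ * μ b) :=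
    mul_le_mul_of_nonneg_left hκ (Nat.cast_nonneg _)
  have h6 : (μ b : ℝ) * tau ι b V S ≤
      μ b * ((1 + κ) * T.card + h * fS (p.comp ι) V T) := by
    calc (μ b : ℝ) * tau ι b V S ≤ μ b * (T.card + h * fS (p.comp ι) V T) +
          T.card * ∑ v ∈ V, ((μ (ι v)).natAbs : ℝ) := h3
      _ ≤ μ b * (T.card + h * fS (p.comp ι) V T) + T.card * (κ * μ b) :=
          add_le_add_right h5 _
      _ = _ := by ring
  exact le_of_mul_le_mul_left h6 hD

end Pool.Agent.Lib.MP_602b76_co_Far
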