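import Pool.Agent.Lib.MP_602b76_co_Far.Res

/-!
# One far generator in the plane: the isoperimetric constant

`cst V` is the best constant in asymptotic lower bounds `c * √|T| ≤ ff V T`. Sets which nearly
attain it exist at every scale.
-/

namespace Pool.Agent.Lib.MP_602b76_co_Far

open Finset Pool.Agent.Lib.MP_602b76_co_Plane

/-- The constants of asymptotic lower bounds. -/
def Phi (V : Finset Z2) : Set ℝ :=
  {c | ∃ M : ℕ, ∀ T : Finset Z2, M ≤ T.card → c * √(T.card : ℝ) ≤ ff V T}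

/-- The isoperimetric constant. -/
noncomputable def cst (V : Finset Z2) : ℝ := sSup (Phi V)

variable {V : Finset Z2}

theorem exists_mem_Phi (hV : AddSubgroup.closure (V : Set Z2) = ⊤) :
    ∃ c : ℝ, 0 < c ∧ c ∈ Phi V ∧ ∀ T : Finset Z2, c * √(T.card : ℝ) ≤ ff V T := by
  obtain ⟨L, hL, h⟩ := crude hV
  have hL' : (0 : ℝ) < L := by exact_mod_cast hL
  have key : ∀ T : Finset Z2, 1 / (L : ℝ) * √(T.card : ℝ) ≤ ff V T := by
    intro T
    have h1 : (T.card : ℝ) ≤ ((L : ℝ) * ff V T) ^ 2 := by exact_mod_cast (h T).1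
    have h2 : √(T.card : ℝ) ≤ (L : ℝ) * ff V T := Real.sqrt_le_left (by positivity) |>.2 h1
    rw [one_div, inv_mul_le_iff₀ hL']
    exact h2
  exact ⟨1 / (L : ℝ), by positivity, ⟨0, fun T _ => key T⟩, key⟩

theorem bdd_Phi (V : Finset Z2) : BddAbove (Phi V) := by
  obtain ⟨K, hK, h⟩ := ff_sq_le V
  refine ⟨K, ?_⟩
  rintro c ⟨M, hM⟩
  have h1 := hM (sq (M + 1)) (by rw [card_sq]; nlinarith)
  have h2 := h (M + 1)
  rw [card_sq] at h1
  have h3 : √(((M + 1) * (M + 1) : ℕ) : ℝ) = (M + 1 : ℝ) := by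
    push_cast
    rw [Real.sqrt_mul_self (by positivity)]
  rw [h3] at h1
  have h4 : (ff V (sq (M + 1)) : ℝ) ≤ K * (M + 1) := by exact_mod_cast h2
  have h5 : (0 : ℝ) < M + 1 := by positivity
  have h6 : c * (M + 1 : ℝ) ≤ K * (M + 1) := le_trans h1 h4
  exact le_of_mul_le_mul_right h6 h5

theorem cst_pos (hV : AddSubgroup.closure (V : Set Z2) = ⊤) : 0 < cst V := by
  obtain ⟨c, hc, hmem, _⟩ := exists_mem_Phi hV
  exact lt_of_lt_of_le hc (le_csSup (bdd_Phi V) hmem)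

/-- The asymptotic lower bound. -/
theorem lower_cst (hV : AddSubgroup.closure (V : Set Z2) = ⊤) {ε : ℝ} (hε : 0 < ε) :
    ∃ M : ℕ, ∀ T : Finset Z2, M ≤ T.card → (cst V - ε) * √(T.card : ℝ) ≤ ff V T := by
  obtain ⟨c0, _, hmem0, _⟩ := exists_mem_Phi hV
  obtain ⟨c, ⟨M, hM⟩, hlt⟩ := exists_lt_of_lt_csSup (⟨c0, hmem0⟩ : (Phi V).Nonempty)
    (show cst V - ε < sSup (Phi V) by unfold cst; linarith)
  refine ⟨M, fun T hT => le_trans ?_ (hM T hT)⟩
  exact mul_le_mul_of_nonneg_right hlt.le (Real.sqrt_nonneg _)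

/-- Nearly optimal sets of large size. -/
theorem near_cst (V : Finset Z2) {ε : ℝ} (hε : 0 < ε) (M : ℕ) :
    ∃ T : Finset Z2, M ≤ T.card ∧ (ff V T : ℝ) < (cst V + ε) * √(T.card : ℝ) := by
  by_contra hcon
  push Not at hcon
  have : cst V + ε ∈ Phi V := ⟨M, hcon⟩
  have h := le_csSup (bdd_Phi V) this
  have : cst V + ε ≤ cst V := h
  linarith

/-- **Nearly optimal sets at every scale.** -/
theorem down (hV : AddSubgroup.closure (V : Set Z2) = ⊤) {ε : ℝ} (hε : 0 < ε) :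
    ∃ M0 : ℕ, ∀ m : ℕ, M0 ≤ m → ∃ T : Finset Z2, T.Nonempty ∧ T.card ≤ m ∧
      (ff V T : ℝ) * √(m : ℝ) ≤ (cst V + ε) * T.card := by
  obtain ⟨L, hL, hcr⟩ := crude hV
  obtain ⟨c, hc⟩ : ∃ c, c = cst V := ⟨_, rfl⟩
  have hc0 : 0 < c := by rw [hc]; exact cst_pos hV
  rw [← hc]
  -- the small number
  obtain ⟨e, he⟩ : ∃ e, e = min 1 (ε / (2 * (4 + 3 * c))) := ⟨_, rfl⟩
  have he0 : 0 < e := by rw [he]; positivity
  have he1 : e ≤ 1 := by rw [he]; exact min_le_left _ _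
  have he2 : e * (4 + 3 * c) ≤ ε / 2 := by
    have h1 : e ≤ ε / (2 * (4 + 3 * c)) := by rw [he]; exact min_le_right _ _
    have h2 : 0 < 4 + 3 * c := by positivity
    calc e * (4 + 3 * c) ≤ ε / (2 * (4 + 3 * c)) * (4 + 3 * c) :=
          mul_le_mul_of_nonneg_right h1 h2.le
      _ = ε / 2 := by field_simp
  obtain ⟨X, hX⟩ : ∃ X, X = (1 + e) ^ 2 * (c + e) := ⟨_, rfl⟩
  have hX0 : 0 < X := by rw [hX]; positivity
  have hX1 : X ≤ c + ε / 2 := by
    have g1 : (1 + e) ^ 2 ≤ 1 + 3 * e := by nlinarith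
    have g2 : (1 + e) ^ 2 * (c + e) ≤ (1 + 3 * e) * (c + e) :=
      mul_le_mul_of_nonneg_right g1 (by positivity)
    have g3 : e * e ≤ e := by nlinarith
    have g4 : (1 + 3 * e) * (c + e) = c + e * (1 + 3 * c) + 3 * (e * e) := by ring
    rw [hX]
    linarith
  -- the number `j`
  obtain ⟨i, hi⟩ := exists_nat_ge (1 / e)
  have hi0 : (0 : ℝ) < i := lt_of_lt_of_le (by positivity) hi
  have hi' : 1 ≤ (i : ℝ) * e := by
    rw [div_le_iff₀ he0] at hi
    exact hi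
  obtain ⟨Y, hY⟩ : ∃ Y, Y = (i + 1 : ℝ) * L * X := ⟨_, rfl⟩
  have hY0 : 0 < Y := by rw [hY]; positivity
  obtain ⟨M1, hM1⟩ := exists_nat_ge ((2 * (c + ε) * Y / ε) ^ 2)
  refine ⟨M1 + 1, fun m hm => ?_⟩
  have hm0 : (0 : ℝ) < m := by exact_mod_cast (by omega : 0 < m)
  have hsm0 : 0 < √(m : ℝ) := Real.sqrt_pos.2 hm0
  have hsm : 2 * (c + ε) * Y / ε ≤ √(m : ℝ) := by
    apply Real.le_sqrt_of_sq_le
    refine le_trans hM1 ?_
    exact_mod_cast (by omega : M1 ≤ m)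
  have hYm : (c + ε) * (Y / √(m : ℝ)) ≤ ε / 2 := by
    rw [div_le_iff₀ hε] at hsm
    rw [← mul_div_assoc, div_le_iff₀ hsm0]
    nlinarith
  have hYm1 : Y / √(m : ℝ) < 1 := by
    have h1 : 0 < Y / √(m : ℝ) := by positivity
    nlinarith
  -- the huge set
  obtain ⟨N0, hN0⟩ := exists_nat_ge ((m : ℝ) / e ^ 2)
  obtain ⟨S, hS1, hS2⟩ := near_cst V he0 (N0 + 1)
  rw [← hc] at hS2
  have hN : (0 : ℝ) < S.card := by exact_mod_cast (by omega : 0 < S.card)
  have hNm : (m : ℝ) / e ^ 2 ≤ S.card := by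
    refine le_trans hN0 ?_
    exact_mod_cast (by omega : N0 ≤ S.card)
  have hsN0 : 0 < √(S.card : ℝ) := Real.sqrt_pos.2 hN
  have hsqN : √(S.card : ℝ) * √(S.card : ℝ) = S.card := Real.mul_self_sqrt hN.le
  have hsqm : √(m : ℝ) * √(m : ℝ) = m := Real.mul_self_sqrt hm0.le
  -- the ratio
  obtain ⟨q, hq⟩ : ∃ q, q = √((i + 1 : ℝ) * S.card / (i * m)) := ⟨_, rfl⟩
  have hqsq : q * q = (i + 1 : ℝ) * S.card / (i * m) := by
    rw [hq]
    exact Real.mul_self_sqrt (by positivity)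
  have hq0 : 0 ≤ q := by rw [hq]; positivity
  have hq1 : 1 / e ≤ q := by
    rw [hq]
    apply Real.le_sqrt_of_sq_le
    rw [div_pow, one_pow]
    have h1 : 1 / e ^ 2 ≤ S.card / m := by
      rw [le_div_iff₀ hm0, one_div_mul_eq_div]
      exact hNm
    refine le_trans h1 ?_
    rw [div_le_div_iff₀ hm0 (by positivity)]
    nlinarith [mul_pos hN hm0]
  have hq2 : q ≤ (1 + e) * (√(S.card : ℝ) / √(m : ℝ)) := by
    rw [hq]
    apply Real.sqrt_le_iff.2
    refine ⟨by positivity, ?_⟩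
    have h1 : ((1 + e) * (√(S.card : ℝ) / √(m : ℝ))) ^ 2 = (1 + e) ^ 2 * (S.card / m) := by
      rw [mul_pow, div_pow, Real.sq_sqrt hN.le, Real.sq_sqrt hm0.le]
    rw [h1]
    have h2 : (i + 1 : ℝ) * S.card / (i * m) = (i + 1 : ℝ) / i * (S.card / m) := by
      field_simp
    rw [h2]
    apply mul_le_mul_of_nonneg_right _ (by positivity)
    rw [div_le_iff₀ hi0]
    nlinarith
  obtain ⟨k, hk⟩ : ∃ k, k = ⌈q⌉₊ := ⟨_, rfl⟩
  have hkq : q ≤ k := by rw [hk]; exact Nat.le_ceil q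
  have hkq1 : (k : ℝ) < q + 1 := by rw [hk]; exact Nat.ceil_lt_add_one hq0
  have hk0 : 0 < k := by
    have : (0 : ℝ) < k := lt_of_lt_of_le (lt_of_lt_of_le (by positivity) hq1) hkq
    exact_mod_cast this
  have : NeZero k := ⟨hk0.ne'⟩
  have hkq2 : (k : ℝ) ≤ (1 + e) * q := by
    have : 1 ≤ e * q := by
      rw [div_le_iff₀ he0] at hq1
      linarith
    nlinarith
  have hk2 : (k : ℝ) ≤ (1 + e) ^ 2 * (√(S.card : ℝ) / √(m : ℝ)) := by
    calc (k : ℝ) ≤ (1 + e) * q := hkq2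
      _ ≤ (1 + e) * ((1 + e) * (√(S.card : ℝ) / √(m : ℝ))) :=
          mul_le_mul_of_nonneg_left hq2 (by positivity)
      _ = _ := by ring
  have hkf : (k : ℝ) * ff V S ≤ X * S.card / √(m : ℝ) := by
    calc (k : ℝ) * ff V S ≤ (1 + e) ^ 2 * (√(S.card : ℝ) / √(m : ℝ)) *
          ((c + e) * √(S.card : ℝ)) := by
          apply mul_le_mul hk2 hS2.le (by positivity) (by positivity)
      _ = (1 + e) ^ 2 * (c + e) * (√(S.card : ℝ) * √(S.card : ℝ)) / √(m : ℝ) := by ring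
      _ = X * S.card / √(m : ℝ) := by rw [hsqN, hX]
  have hbad : (((i + 1) * k * (L * ff V S) : ℕ) : ℝ) ≤ Y / √(m : ℝ) * S.card := by
    push_cast
    calc (i + 1 : ℝ) * k * (L * ff V S) = (i + 1 : ℝ) * L * (k * ff V S) := by ring
      _ ≤ (i + 1 : ℝ) * L * (X * S.card / √(m : ℝ)) :=
          mul_le_mul_of_nonneg_left hkf (by positivity)
      _ = Y / √(m : ℝ) * S.card := by rw [hY]; ring
  have hbadlt : (i + 1) * k * (L * ff V S) < S.card := by
    have : (((i + 1) * k * (L * ff V S) : ℕ) : ℝ) < S.card := by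
      refine lt_of_le_of_lt hbad ?_
      nlinarith
    exact_mod_cast this
  have hNk : (i + 1) * S.card ≤ (i + 1 - 1) * (k * k * m) := by
    have h1 : (i + 1 : ℝ) * S.card ≤ i * (k * k * m) := by
      have h2 : (i + 1 : ℝ) * S.card = q * q * (i * m) := by
        rw [hqsq]
        field_simp
      rw [h2]
      have h3 : q * q ≤ (k : ℝ) * k := mul_self_le_mul_self hq0 hkq
      calc q * q * (i * m) ≤ (k : ℝ) * k * (i * m) :=
            mul_le_mul_of_nonneg_right h3 (by positivity)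
        _ = _ := by ring
    have h4 : i + 1 - 1 = i := by omega
    rw [h4]
    exact_mod_cast h1
  obtain ⟨T, hT1, hT2, hT3⟩ := scale_down k V S (m := m) (j := i + 1) (L := L) (by omega) hNk
    (hcr S).2 hbadlt
  refine ⟨T, hT1, hT2, ?_⟩
  have h1 : (ff V T : ℝ) * (S.card - ((i + 1) * k * (L * ff V S) : ℕ)) ≤
      k * ff V S * T.card := by
    have h2 : ((S.card - (i + 1) * k * (L * ff V S) : ℕ) : ℝ) =
        (S.card : ℝ) - ((i + 1) * k * (L * ff V S) : ℕ) := Nat.cast_sub hbadlt.le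
    rw [← h2]
    exact_mod_cast hT3
  have h2 : (ff V T : ℝ) * (S.card * (1 - Y / √(m : ℝ))) ≤ X * S.card / √(m : ℝ) * T.card := by
    calc (ff V T : ℝ) * (S.card * (1 - Y / √(m : ℝ))) ≤
          (ff V T : ℝ) * (S.card - ((i + 1) * k * (L * ff V S) : ℕ)) := by
          apply mul_le_mul_of_nonneg_left _ (by positivity)
          linarith
      _ ≤ k * ff V S * T.card := h1
      _ ≤ _ := mul_le_mul_of_nonneg_right hkf (by positivity)
  have h3 : (ff V T : ℝ) * √(m : ℝ) * (1 - Y / √(m : ℝ)) ≤ X * T.card := by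
    have h4 : ((ff V T : ℝ) * √(m : ℝ) * (1 - Y / √(m : ℝ))) * S.card ≤
        (X * T.card) * S.card := by
      calc ((ff V T : ℝ) * √(m : ℝ) * (1 - Y / √(m : ℝ))) * S.card =
            (ff V T : ℝ) * (S.card * (1 - Y / √(m : ℝ))) * √(m : ℝ) := by ring
        _ ≤ X * S.card / √(m : ℝ) * T.card * √(m : ℝ) :=
            mul_le_mul_of_nonneg_right h2 hsm0.le
        _ = (X * T.card) * S.card := by field_simp
    exact le_of_mul_le_mul_right h4 hN
  have h4 : X * T.card ≤ (c + ε) * T.card * (1 - Y / √(m : ℝ)) := by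
    have h5 : X ≤ (c + ε) * (1 - Y / √(m : ℝ)) := by
      have : (c + ε) * (1 - Y / √(m : ℝ)) = (c + ε) - (c + ε) * (Y / √(m : ℝ)) := by ring
      rw [this]
      linarith
    calc X * T.card ≤ (c + ε) * (1 - Y / √(m : ℝ)) * T.card :=
          mul_le_mul_of_nonneg_right h5 (by positivity)
      _ = _ := by ring
  have h5 : 0 < 1 - Y / √(m : ℝ) := by linarith
  exact le_of_mul_le_mul_right (le_trans h3 h4) h5

end Pool.Agent.Lib.MP_602b76_co_Far
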