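import Pool.Agent.Lib.MP_602b76_co_Far.Limit
import Pool.Agent.Lib.MP_602b76_co_Far.Cut

/-!
# One far generator in the plane: the profile of the cylinder
-/

namespace Pool.Agent.Lib.MP_602b76_co_Far

open Finset Pool.Agent.Lib.MP_602b76_co_Plane

/-- The number of lines around the cylinder, `∑ |det v β|`. -/
def EE (V : Finset Z2) (β : Z2) : ℕ := ∑ v ∈ V, (det v β).natAbs

/-- The data of a cylinder. -/
structure Cyl {G : Type} [AddCommGroup G] (π : Z2 →+ G) (β : Z2) : Prop where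
  surj : Function.Surjective π
  ker : ∀ x, π x = 0 → ∃ t : ℤ, x = t • β
  base : π β = 0

section height

variable {G : Type} [AddCommGroup G] {π : Z2 →+ G} {β : Z2}

theorem Cyl.height (h : Cyl π β) : ∃ w : G → ℤ, ∀ c x, w (c + π x) = w c + det β x := by
  choose ℓ hℓ using h.surj
  refine ⟨fun c => det β (ℓ c), fun c x => ?_⟩
  obtain ⟨t, ht⟩ := h.ker (ℓ (c + π x) - ℓ c - x) (by
    rw [map_sub, map_sub, hℓ, hℓ]
    abel)
  have h1 : det β (ℓ (c + π x) - ℓ c - x) = 0 := by
    rw [ht, det_smul, det_self, mul_zero]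
  rw [det_sub, det_sub] at h1
  linarith

theorem one_le_ch_of_height {A : Type} [AddCommGroup A] [DecidableEq A] (σ : Z2 →+ A) {v : Z2}
    (hv : det v β ≠ 0) (w : A → ℤ) (hw : ∀ x, w (x + σ v) = w x + det β v) {T : Finset A}
    (hT : T.Nonempty) : 1 ≤ ch (σ v) T := by
  have hd : det β v ≠ 0 := by
    rw [det_swap]
    exact neg_ne_zero.2 hv
  have h1 : (T.image (fun _ => (0 : ℕ))).card = 1 := by
    rw [Finset.card_eq_one]
    refine ⟨0, ?_⟩
    ext z
    rw [mem_image, mem_singleton]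
    constructor
    · rintro ⟨_, _, h⟩
      exact h.symm
    · intro h
      obtain ⟨x, hx⟩ := hT
      exact ⟨x, hx, h.symm⟩
  rw [← h1]
  rcases lt_or_gt_of_ne hd with hlt | hgt
  · exact image_le_ch T _ (fun x => -w x) (fun _ _ _ => rfl) (fun x _ _ => by rw [hw]; omega)
  · exact image_le_ch T _ w (fun _ _ _ => rfl) (fun x _ _ => by rw [hw]; omega)

end height

/-- A common bound for the determinants of `V`. -/
theorem exists_W (V : Finset Z2) : ∃ W : ℕ, ∀ v ∈ V, ∀ w ∈ V, |det v w| ≤ (W : ℤ) := by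
  refine ⟨∑ v ∈ V, ∑ w ∈ V, (det v w).natAbs, fun v hv w hw => ?_⟩
  rw [Int.abs_eq_natAbs]
  have h1 : (det v w).natAbs ≤ ∑ w ∈ V, (det v w).natAbs :=
    Finset.single_le_sum (f := fun w => (det v w).natAbs) (fun _ _ => Nat.zero_le _) hw
  have h2 : ∑ w ∈ V, (det v w).natAbs ≤ ∑ v ∈ V, ∑ w ∈ V, (det v w).natAbs :=
    Finset.single_le_sum (f := fun v => ∑ w ∈ V, (det v w).natAbs) (fun _ _ => Nat.zero_le _) hv
  exact_mod_cast le_trans h1 h2

/-- If there are few chains, some step has few chains. -/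
theorem exists_few {V : Finset Z2} {β : Z2} {δ : ℝ} {f : Z2 → ℕ}
    (h : ((∑ v ∈ V, f v : ℕ) : ℝ) < (1 - δ) * EE V β) :
    ∃ v ∈ V, (f v : ℝ) + δ * EE V β / V.card < (det v β).natAbs := by
  by_contra hcon
  push Not at hcon
  have hV : V.Nonempty := by
    rw [Finset.nonempty_iff_ne_empty]
    rintro rfl
    unfold EE at h
    simp at h
  have hVc : (0 : ℝ) < V.card := by exact_mod_cast hV.card_pos
  have h1 := Finset.sum_le_sum hcon
  rw [Finset.sum_add_distrib, Finset.sum_const, nsmul_eq_mul] at h1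
  have h2 : (V.card : ℝ) * (δ * EE V β / V.card) = δ * EE V β := by
    field_simp
  rw [h2] at h1
  have h3 : (∑ v ∈ V, ((det v β).natAbs : ℝ)) = EE V β := by
    unfold EE
    push_cast
    rfl
  rw [h3] at h1
  push_cast at h
  linarith

/-- The constant of the windows. -/
theorem exists_window {V : Finset Z2} (hV : AddSubgroup.closure (V : Set Z2) = ⊤) :
    ∃ (R : Finset Z2) (W L : ℕ), 0 < L ∧ (∀ v ∈ V, v ≠ 0 → ∀ y : Z2,
      |det v y| ≤ (W : ℤ) → ∃ s ∈ R, ∃ j : ℤ, y = s + j • v) ∧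
      (∀ v ∈ V, ∀ w ∈ V, |det v w| ≤ (W : ℤ)) ∧
      ∀ {G : Type} [AddCommGroup G] {π : Z2 →+ G} {β : Z2}, Cyl π β →
        ∀ {A : Type} [AddCommGroup A] [DecidableEq A] (σ : Z2 →+ A) (ρ : A → G),
          (∀ x s, ρ (x + σ s) = ρ x + π s) → ∀ v ∈ V, ∀ (w : A → ℤ),
            (∀ x, w (x + σ v) = w x + det β v) → ∀ (T : Finset A) (δ : ℝ), 0 < δ →
              0 < EE V β → (ch (σ v) T : ℝ) + δ * EE V β / V.card < (det v β).natAbs →
                (fS σ V T : ℝ) ≤ EE V β →
                  ∃ z : Cls π v, ((Win π v ρ R T z).card : ℝ) ≤ L * V.card / δ := by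
  obtain ⟨W, hW⟩ := exists_W V
  obtain ⟨R, hR⟩ := exists_R V W
  obtain ⟨L, hL⟩ := paths_bound hV R
  refine ⟨R, W, L + 1, by omega, hR, hW, ?_⟩
  intro G _ π β hcyl A _ _ σ ρ hρ v hv w hw T δ hδ hE hfew hF
  have hVc : (0 : ℝ) < V.card := by exact_mod_cast (Finset.card_pos.2 ⟨v, hv⟩)
  have hE' : (0 : ℝ) < EE V β := by exact_mod_cast hE
  have hδE : 0 < δ * EE V β / V.card := by positivity
  have hlt : ch (σ v) T < (det v β).natAbs := by
    have : (ch (σ v) T : ℝ) < (det v β).natAbs := by linarith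
    exact_mod_cast this
  have hv0 : det v β ≠ 0 := by
    intro h
    rw [h] at hlt
    simp at hlt
  obtain ⟨z, hz⟩ := exists_Win hcyl.ker hv0 σ ρ hρ w hw R T (hL A σ T) hlt
  refine ⟨z, ?_⟩
  have h1 : (((det v β).natAbs - ch (σ v) T : ℕ) : ℝ) * (Win π v ρ R T z).card ≤
      L * fS σ V T := by exact_mod_cast hz
  rw [Nat.cast_sub hlt.le] at h1
  have h2 : δ * EE V β / V.card * (Win π v ρ R T z).card ≤ L * EE V β := by
    calc δ * EE V β / V.card * (Win π v ρ R T z).card ≤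
          (((det v β).natAbs : ℝ) - ch (σ v) T) * (Win π v ρ R T z).card := by
          apply mul_le_mul_of_nonneg_right _ (by positivity)
          linarith
      _ ≤ L * fS σ V T := h1
      _ ≤ L * EE V β := mul_le_mul_of_nonneg_left hF (by positivity)
  rw [le_div_iff₀ hδ]
  have h3 : ((Win π v ρ R T z).card : ℝ) * δ * EE V β ≤ (L : ℝ) * V.card * EE V β := by
    calc ((Win π v ρ R T z).card : ℝ) * δ * EE V β =
          (δ * EE V β / V.card * (Win π v ρ R T z).card) * V.card := by field_simp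
      _ ≤ (L * EE V β) * V.card := mul_le_mul_of_nonneg_right h2 hVc.le
      _ = _ := by ring
  have h4 := le_of_mul_le_mul_right h3 hE'
  push_cast
  nlinarith

/-- **Lower bound for the profile.** -/
theorem profile_lower {V : Finset Z2} (hV : AddSubgroup.closure (V : Set Z2) = ⊤) {ε : ℝ}
    (hε : 0 < ε) (hε1 : ε < 1) :
    ∃ B : ℝ, ∀ {G : Type} [AddCommGroup G] [DecidableEq G] {π : Z2 →+ G} {β : Z2}, Cyl π β →
      B < EE V β → ∀ (C : ℝ), (EE V β : ℝ) ≤ cst V * √C → ∀ T : Finset G, (T.card : ℝ) ≤ C →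
        (1 - ε) * EE V β * T.card ≤ C * fS π V T := by
  obtain ⟨R, W, L, hL0, hR, hW, hwin⟩ := exists_window hV
  have hc0 := cst_pos hV
  obtain ⟨c, hc⟩ : ∃ c, c = cst V := ⟨_, rfl⟩
  rw [← hc] at hc0
  obtain ⟨M, hM⟩ := lower_cst hV (show 0 < ε * c / 2 by positivity)
  obtain ⟨K, hK⟩ : ∃ K : ℝ, K = V.card * (L * V.card / ε) := ⟨_, rfl⟩
  have hK0 : 0 ≤ K := by rw [hK]; positivity
  obtain ⟨Q, hQ⟩ : ∃ Q : ℝ, Q = max (M : ℝ) ((2 * K / (ε * c)) ^ 2) := ⟨_, rfl⟩
  have hQ0 : 0 ≤ Q := by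
    rw [hQ]
    exact le_trans (Nat.cast_nonneg M) (le_max_left _ _)
  refine ⟨c ^ 2 * Q, ?_⟩
  intro G _ _ π β hcyl hB C hC T hT
  rw [← hc] at hC
  by_contra hcon
  push Not at hcon
  have hE0 : (0 : ℝ) < EE V β := lt_of_le_of_lt (by positivity) hB
  have hE0' : 0 < EE V β := by exact_mod_cast hE0
  -- the set is nonempty
  have hTne : T.Nonempty := by
    rw [Finset.nonempty_iff_ne_empty]
    rintro rfl
    rw [card_empty, Nat.cast_zero, mul_zero] at hcon
    have h1 : fS π V (∅ : Finset G) = 0 := by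
      unfold fS ch
      simp
    rw [h1, Nat.cast_zero, mul_zero] at hcon
    exact lt_irrefl _ hcon
  have hm0 : (0 : ℝ) < T.card := by exact_mod_cast hTne.card_pos
  have hC0 : 0 < C := lt_of_lt_of_le hm0 hT
  have hsC : 0 < √C := Real.sqrt_pos.2 hC0
  have hsqC : √C * √C = C := Real.mul_self_sqrt hC0.le
  have hsm : √(T.card : ℝ) * √(T.card : ℝ) = T.card := Real.mul_self_sqrt hm0.le
  have hsm0 : 0 < √(T.card : ℝ) := Real.sqrt_pos.2 hm0
  have hsmC : √(T.card : ℝ) ≤ √C := Real.sqrt_le_sqrt hT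
  obtain ⟨F, hF⟩ : ∃ F : ℝ, F = fS π V T := ⟨_, rfl⟩
  rw [← hF] at hcon
  have hF0 : 0 ≤ F := by rw [hF]; positivity
  -- few chains
  have hF1 : F < (1 - ε) * EE V β := by
    have h1 : F * C < (1 - ε) * EE V β * C := by
      calc F * C = C * F := mul_comm _ _
        _ < (1 - ε) * EE V β * T.card := hcon
        _ ≤ (1 - ε) * EE V β * C :=
            mul_le_mul_of_nonneg_left hT (mul_nonneg (by linarith) hE0.le)
    exact lt_of_mul_lt_mul_right h1 hC0.le
  have hF2 : F < (1 - ε) * c * √(T.card : ℝ) := by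
    have h1 : F * C < (1 - ε) * c * √(T.card : ℝ) * C := by
      calc F * C = C * F := mul_comm _ _
        _ < (1 - ε) * EE V β * T.card := hcon
        _ ≤ (1 - ε) * (c * √C) * T.card := by
            apply mul_le_mul_of_nonneg_right _ hm0.le
            exact mul_le_mul_of_nonneg_left hC (by linarith)
        _ = (1 - ε) * c * √(T.card : ℝ) * (√C * √(T.card : ℝ)) := by
            rw [← hsm]
            have : √(√(T.card : ℝ) * √(T.card : ℝ)) = √(T.card : ℝ) := by
              rw [hsm]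
            rw [this]
            ring
        _ ≤ (1 - ε) * c * √(T.card : ℝ) * (√C * √C) := by
            apply mul_le_mul_of_nonneg_left
            · exact mul_le_mul_of_nonneg_left hsmC hsC.le
            · exact mul_nonneg (mul_nonneg (by linarith) hc0.le) hsm0.le
        _ = (1 - ε) * c * √(T.card : ℝ) * C := by rw [hsqC]
    exact lt_of_mul_lt_mul_right h1 hC0.le
  obtain ⟨v, hv, hfew⟩ := exists_few (V := V) (β := β) (δ := ε) (f := fun v => ch (π v) T) (by
    have : ((∑ v ∈ V, ch (π v) T : ℕ) : ℝ) = F := by rw [hF]; rfl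
    rw [this]
    exact hF1)
  obtain ⟨w, hw⟩ := hcyl.height
  have hv0 : det v β ≠ 0 := by
    intro h
    rw [h] at hfew
    have h1 : 0 ≤ ε * EE V β / V.card := by positivity
    have h2 : (0 : ℝ) ≤ ch (π v) T := by positivity
    simp at hfew
    linarith
  have hvne : v ≠ 0 := by
    rintro rfl
    apply hv0
    unfold det
    simp
  obtain ⟨z, hz⟩ := hwin hcyl π (fun x => x) (fun _ _ => rfl) v hv w (fun x => hw x v) T ε hε
    hE0' hfew (by rw [← hF]; nlinarith)
  obtain ⟨T', hT'1, hT'2⟩ := cut_one (V := V) (R := R) (W := W) hcyl.surj hcyl.ker hcyl.base hv0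
    (hR v hv hvne) (fun w hw => hW v hv w hw) T z
  have h1 : (ff V T' : ℝ) ≤ F + K := by
    calc (ff V T' : ℝ) ≤ fS π V T + V.card * (Win π v (fun x => x) R T z).card := by
          exact_mod_cast hT'2
      _ ≤ F + V.card * (L * V.card / ε) := by
          rw [← hF]
          exact add_le_add le_rfl (mul_le_mul_of_nonneg_left hz (by positivity))
      _ = F + K := by rw [hK]
  -- the set is small
  have hsmall : (T.card : ℝ) ≤ Q := by
    by_cases hm : M ≤ T.card
    · have h2 := hM T' (by rw [hT'1]; exact hm)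
      rw [hT'1, ← hc] at h2
      have h3 : ε * c / 2 * √(T.card : ℝ) ≤ K := by
        have : (c - ε * c / 2) * √(T.card : ℝ) ≤ (1 - ε) * c * √(T.card : ℝ) + K := by
          linarith
        nlinarith
      have h4 : √(T.card : ℝ) ≤ 2 * K / (ε * c) := by
        rw [le_div_iff₀ (by positivity)]
        nlinarith
      have h5 : (T.card : ℝ) ≤ (2 * K / (ε * c)) ^ 2 := by
        calc (T.card : ℝ) = √(T.card : ℝ) * √(T.card : ℝ) := hsm.symm
          _ ≤ (2 * K / (ε * c)) * (2 * K / (ε * c)) := mul_self_le_mul_self hsm0.le h4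
          _ = _ := by ring
      rw [hQ]
      exact le_trans h5 (le_max_right _ _)
    · push Not at hm
      rw [hQ]
      refine le_trans ?_ (le_max_left _ _)
      exact_mod_cast hm.le
  have hF3 : 1 ≤ F := by
    have h2 := one_le_ch_of_height π hv0 w (fun x => hw x v) hTne
    have h3 := ch_le_fS π hv T
    rw [hF]
    exact_mod_cast le_trans h2 h3
  -- contradiction
  have h2 : (EE V β : ℝ) ^ 2 ≤ c ^ 2 * C := by
    calc (EE V β : ℝ) ^ 2 ≤ (c * √C) ^ 2 := pow_le_pow_left₀ hE0.le hC 2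
      _ = c ^ 2 * C := by rw [mul_pow, Real.sq_sqrt hC0.le]
  have h3 : C < EE V β * Q := by
    calc C = C * 1 := (mul_one _).symm
      _ ≤ C * F := mul_le_mul_of_nonneg_left hF3 hC0.le
      _ < (1 - ε) * EE V β * T.card := hcon
      _ ≤ 1 * EE V β * Q := by
          apply mul_le_mul _ hsmall hm0.le (by positivity)
          exact mul_le_mul_of_nonneg_right (by linarith) hE0.le
      _ = EE V β * Q := by ring
  have h4 : (EE V β : ℝ) * EE V β < EE V β * (c ^ 2 * Q) := by
    calc (EE V β : ℝ) * EE V β = (EE V β : ℝ) ^ 2 := by ring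
      _ ≤ c ^ 2 * C := h2
      _ < c ^ 2 * (EE V β * Q) := mul_lt_mul_of_pos_left h3 (by positivity)
      _ = _ := by ring
  have h5 := lt_of_mul_lt_mul_left h4 hE0.le
  linarith

/-- Images have at most as many chains. -/
theorem ch_image_hom_le {A G : Type} [AddCommGroup A] [DecidableEq A] [AddCommGroup G]
    [DecidableEq G] (π : A →+ G) (v : A) (T : Finset A) : ch (π v) (T.image π) ≤ ch v T := by
  unfold ch
  have h : (T.image π).filter (fun x => x + π v ∉ T.image π) ⊆
      (T.filter (fun x => x + v ∉ T)).image π := by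
    intro c hc
    rw [mem_filter, mem_image] at hc
    obtain ⟨⟨x, hx, rfl⟩, hc2⟩ := hc
    rw [mem_image]
    refine ⟨x, ?_, rfl⟩
    rw [mem_filter]
    refine ⟨hx, fun h => hc2 ?_⟩
    rw [← map_add]
    exact mem_image_of_mem _ h
  exact le_trans (card_le_card h) card_image_le

/-- **Nearly optimal sets in the cylinder.** -/
theorem profile_upper {V : Finset Z2} (hV : AddSubgroup.closure (V : Set Z2) = ⊤) {θ ε : ℝ}
    (hθ : 0 < θ) (hθ1 : θ < 1) (hε : 0 < ε) :
    ∃ M0 : ℕ, ∀ {G : Type} [AddCommGroup G] [DecidableEq G] {π : Z2 →+ G} {β : Z2}, Cyl π β →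
      ∀ m : ℕ, M0 ≤ m → cst V * √(m : ℝ) ≤ θ * EE V β →
        ∃ T : Finset G, T.Nonempty ∧ T.card ≤ m ∧
          (fS π V T : ℝ) * √(m : ℝ) ≤ (cst V + ε) * T.card := by
  obtain ⟨R, W, L, hL0, hR, hW, hwin⟩ := exists_window hV
  have hc0 := cst_pos hV
  obtain ⟨c, hc⟩ : ∃ c, c = cst V := ⟨_, rfl⟩
  rw [← hc] at hc0
  obtain ⟨c0, hc00, _, hcr⟩ := exists_mem_Phi hV
  -- the small numbers
  obtain ⟨δ, hδ⟩ : ∃ δ : ℝ, δ = (1 - θ) / 2 := ⟨_, rfl⟩
  have hδ0 : 0 < δ := by rw [hδ]; linarith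
  obtain ⟨e, he⟩ : ∃ e : ℝ, e = min (ε / 2) (δ * c) := ⟨_, rfl⟩
  have he0 : 0 < e := by rw [he]; positivity
  have he1 : e ≤ ε / 2 := by rw [he]; exact min_le_left _ _
  have he2 : e ≤ δ * c := by rw [he]; exact min_le_right _ _
  obtain ⟨M1, hM1⟩ := down hV he0
  obtain ⟨K, hK⟩ : ∃ K : ℝ, K = V.card * (L * V.card / δ) := ⟨_, rfl⟩
  have hK0 : 0 ≤ K := by rw [hK]; positivity
  obtain ⟨M2, hM2⟩ := exists_nat_ge ((4 * K * ((c + e) / c0) ^ 2 / ε) ^ 2)
  refine ⟨M1 + M2 + 1, ?_⟩
  intro G _ _ π β hcyl m hm hmE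
  rw [← hc] at hmE ⊢
  have hm0 : (0 : ℝ) < m := by exact_mod_cast (by omega : 0 < m)
  have hsm0 : 0 < √(m : ℝ) := Real.sqrt_pos.2 hm0
  have hsm : √(m : ℝ) * √(m : ℝ) = m := Real.mul_self_sqrt hm0.le
  obtain ⟨T1, hT1ne, hT1m, hT1f⟩ := hM1 m (by omega)
  rw [← hc] at hT1f
  have hT10 : (0 : ℝ) < T1.card := by exact_mod_cast hT1ne.card_pos
  have hT1m' : (T1.card : ℝ) ≤ m := by exact_mod_cast hT1m
  have hE0 : (0 : ℝ) < EE V β := by
    have h1 : 0 < c * √(m : ℝ) := by positivity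
    by_contra hle
    push Not at hle
    nlinarith
  have hE0' : 0 < EE V β := by exact_mod_cast hE0
  -- the number of chains
  have hf1 : (ff V T1 : ℝ) ≤ (c + e) * √(m : ℝ) := by
    have h1 : (ff V T1 : ℝ) * √(m : ℝ) ≤ (c + e) * √(m : ℝ) * √(m : ℝ) := by
      calc (ff V T1 : ℝ) * √(m : ℝ) ≤ (c + e) * T1.card := hT1f
        _ ≤ (c + e) * m := mul_le_mul_of_nonneg_left hT1m' (by positivity)
        _ = (c + e) * √(m : ℝ) * √(m : ℝ) := by rw [mul_assoc, hsm]
    exact le_of_mul_le_mul_right h1 hsm0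
  have hf2 : (ff V T1 : ℝ) < (1 - δ / 2) * EE V β := by
    calc (ff V T1 : ℝ) ≤ (c + e) * √(m : ℝ) := hf1
      _ ≤ (c + δ * c) * √(m : ℝ) :=
          mul_le_mul_of_nonneg_right (by linarith) hsm0.le
      _ = (1 + δ) * (c * √(m : ℝ)) := by ring
      _ ≤ (1 + δ) * (θ * EE V β) := mul_le_mul_of_nonneg_left hmE (by positivity)
      _ = ((1 + δ) * θ) * EE V β := by ring
      _ < (1 - δ / 2) * EE V β := by
          apply mul_lt_mul_of_pos_right _ hE0
          have : θ = 1 - 2 * δ := by rw [hδ]; ring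
          rw [this]
          nlinarith
  have hf3 : (ff V T1 : ℝ) ≤ EE V β := by nlinarith
  obtain ⟨v, hv, hfew⟩ := exists_few (V := V) (β := β) (δ := δ / 2) (f := fun v => ch v T1) (by
    have : ((∑ v ∈ V, ch v T1 : ℕ) : ℝ) = ff V T1 := by rw [ff_def]
    rw [this]
    exact hf2)
  have hv0 : det v β ≠ 0 := by
    intro h
    rw [h] at hfew
    have h1 : 0 ≤ δ / 2 * EE V β / V.card := by positivity
    have h2 : (0 : ℝ) ≤ ch v T1 := by positivity
    simp at hfew
    linarith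
  have hvne : v ≠ 0 := by
    rintro rfl
    apply hv0
    unfold det
    simp
  obtain ⟨z, hz⟩ := hwin hcyl (AddMonoidHom.id Z2) π (fun x s => map_add π x s) v hv (det β)
    (fun x => det_add β x v) T1 (δ / 2) (by positivity) hE0' hfew hf3
  obtain ⟨T', hT'ne, hT'sub, hinj, hT'f⟩ := cut_two (V := V) (R := R) (W := W) hcyl.surj hcyl.ker
    hcyl.base hv0 (hR v hv hvne) (fun w hw => hW v hv w hw) hT1ne z
  have hcard : (T'.image π).card = T'.card := by
    apply card_image_of_injOn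
    intro x hx y hy hxy
    exact hinj x hx y hy hxy
  refine ⟨T'.image π, hT'ne.image _, ?_, ?_⟩
  · rw [hcard]
    exact le_trans (card_le_card hT'sub) hT1m
  · rw [hcard]
    have hfi : fS π V (T'.image π) ≤ ff V T' := by
      unfold ff fS
      exact Finset.sum_le_sum (fun w _ => ch_image_hom_le π w T')
    have hfi' : (fS π V (T'.image π) : ℝ) ≤ ff V T' := by exact_mod_cast hfi
    have hT'0 : (0 : ℝ) < T'.card := by exact_mod_cast hT'ne.card_pos
    have hK2 : (V.card : ℝ) * (Win π v π R T1 z).card ≤ 2 * K := by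
      calc (V.card : ℝ) * (Win π v π R T1 z).card ≤ V.card * (L * V.card / (δ / 2)) :=
            mul_le_mul_of_nonneg_left hz (by positivity)
        _ = 2 * K := by
            rw [hK]
            field_simp
    have h1 : (T1.card : ℝ) * ff V T' ≤ (ff V T1 + 2 * K) * T'.card := by
      calc (T1.card : ℝ) * ff V T' ≤
            (ff V T1 + V.card * (Win π v π R T1 z).card) * T'.card := by exact_mod_cast hT'f
        _ ≤ _ := by
            apply mul_le_mul_of_nonneg_right _ hT'0.le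
            linarith
    -- the set `T1` is not too small
    have h2 : c0 / (c + e) * √(m : ℝ) ≤ √(T1.card : ℝ) := by
      have hs1 : 0 < √(T1.card : ℝ) := Real.sqrt_pos.2 hT10
      have hs2 : √(T1.card : ℝ) * √(T1.card : ℝ) = T1.card := Real.mul_self_sqrt hT10.le
      have g1 := hcr T1
      have g2 : c0 * √(T1.card : ℝ) * √(m : ℝ) ≤ (c + e) * √(T1.card : ℝ) * √(T1.card : ℝ) := by
        calc c0 * √(T1.card : ℝ) * √(m : ℝ) ≤ ff V T1 * √(m : ℝ) :=
              mul_le_mul_of_nonneg_right g1 hsm0.le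
          _ ≤ (c + e) * T1.card := hT1f
          _ = _ := by rw [mul_assoc, hs2]
      have g3 : c0 * √(m : ℝ) ≤ (c + e) * √(T1.card : ℝ) := by
        have : (c0 * √(m : ℝ)) * √(T1.card : ℝ) ≤ ((c + e) * √(T1.card : ℝ)) * √(T1.card : ℝ) := by
          linarith
        exact le_of_mul_le_mul_right this hs1
      rw [div_mul_eq_mul_div, div_le_iff₀ (by positivity)]
      linarith
    have h3 : (c0 / (c + e)) ^ 2 * m ≤ T1.card := by
      calc (c0 / (c + e)) ^ 2 * m = (c0 / (c + e) * √(m : ℝ)) ^ 2 := by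
            rw [mul_pow, Real.sq_sqrt hm0.le]
        _ ≤ (√(T1.card : ℝ)) ^ 2 := pow_le_pow_left₀ (by positivity) h2 2
        _ = T1.card := Real.sq_sqrt hT10.le
    have h4 : 4 * K * ((c + e) / c0) ^ 2 / ε ≤ √(m : ℝ) := by
      apply Real.le_sqrt_of_sq_le
      refine le_trans hM2 ?_
      exact_mod_cast (by omega : M2 ≤ m)
    have h5 : 2 * K * √(m : ℝ) ≤ ε / 2 * T1.card := by
      rw [div_le_iff₀ hε] at h4
      have g1 : 2 * K * ((c + e) / c0) ^ 2 * √(m : ℝ) ≤ ε / 2 * m := by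
        have g0 : 4 * K * ((c + e) / c0) ^ 2 * √(m : ℝ) ≤ ε * m := by
          calc 4 * K * ((c + e) / c0) ^ 2 * √(m : ℝ) ≤ √(m : ℝ) * ε * √(m : ℝ) :=
                mul_le_mul_of_nonneg_right h4 hsm0.le
            _ = ε * (√(m : ℝ) * √(m : ℝ)) := by ring
            _ = ε * m := by rw [hsm]
        linarith
      have g2 : ((c + e) / c0) ^ 2 * (c0 / (c + e)) ^ 2 = 1 := by
        field_simp
      calc 2 * K * √(m : ℝ) =
            (2 * K * ((c + e) / c0) ^ 2 * √(m : ℝ)) * (c0 / (c + e)) ^ 2 := by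
            calc 2 * K * √(m : ℝ) = 2 * K * √(m : ℝ) * 1 := by ring
              _ = 2 * K * √(m : ℝ) * (((c + e) / c0) ^ 2 * (c0 / (c + e)) ^ 2) := by rw [g2]
              _ = _ := by ring
        _ ≤ (ε / 2 * m) * (c0 / (c + e)) ^ 2 :=
            mul_le_mul_of_nonneg_right g1 (by positivity)
        _ = ε / 2 * ((c0 / (c + e)) ^ 2 * m) := by ring
        _ ≤ ε / 2 * T1.card := mul_le_mul_of_nonneg_left h3 (by positivity)
    -- conclusion
    have h6 : ((fS π V (T'.image π) : ℝ) * √(m : ℝ)) * T1.card ≤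
        ((c + e) + ε / 2) * T'.card * T1.card := by
      calc ((fS π V (T'.image π) : ℝ) * √(m : ℝ)) * T1.card ≤
            (ff V T' * √(m : ℝ)) * T1.card := by
            apply mul_le_mul_of_nonneg_right _ hT10.le
            exact mul_le_mul_of_nonneg_right hfi' hsm0.le
        _ = (T1.card * ff V T') * √(m : ℝ) := by ring
        _ ≤ ((ff V T1 + 2 * K) * T'.card) * √(m : ℝ) :=
            mul_le_mul_of_nonneg_right h1 hsm0.le
        _ = (ff V T1 * √(m : ℝ) + 2 * K * √(m : ℝ)) * T'.card := by ring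
        _ ≤ ((c + e) * T1.card + ε / 2 * T1.card) * T'.card :=
            mul_le_mul_of_nonneg_right (add_le_add hT1f h5) hT'0.le
        _ = _ := by ring
    have h7 := le_of_mul_le_mul_right h6 hT10
    refine le_trans h7 ?_
    exact mul_le_mul_of_nonneg_right (by linarith) hT'0.le

end Pool.Agent.Lib.MP_602b76_co_Far
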