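import Pool.Agent.Lib.MP_602b76_co_Far.Basic

/-!
# One far generator in the plane: residues modulo `k`

A finite set `S` of lattice points is cut into its residue classes modulo `k`; the classes,
scaled down by `k`, have on average `|S| / k ^ 2` points and `k / k ^ 2` times the chains of `S`.
-/

namespace Pool.Agent.Lib.MP_602b76_co_Far

open Finset Pool.Agent.Lib.MP_602b76_co_Plane

section residues

variable (k : ℕ) [NeZero k]

/-- The residue classes. -/
abbrev RR := ZMod k × ZMod k

/-- The residue of a lattice point. -/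
def res (x : Z2) : RR k := ((x.1 : ZMod k), (x.2 : ZMod k))

/-- The representative of a residue class. -/
def rep (a : RR k) : Z2 := ((a.1.val : ℤ), (a.2.val : ℤ))

omit [NeZero k] in
theorem res_add (x y : Z2) : res k (x + y) = res k x + res k y := by
  unfold res
  simp

theorem res_rep (a : RR k) : res k (rep k a) = a := by
  unfold res rep
  ext
  · simp
  · simp

omit [NeZero k] in
theorem res_smul (x : Z2) : res k ((k : ℤ) • x) = 0 := by
  unfold res
  simp

/-- The points of `S` in a residue class. -/
def cl (S : Finset Z2) (a : RR k) : Finset Z2 := S.filter (fun x => res k x = a)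

/-- The scaled residue class. -/
def scaled (S : Finset Z2) (a : RR k) : Finset Z2 :=
  (cl k S a).image (fun x => ((x.1 - (rep k a).1) / (k : ℤ), (x.2 - (rep k a).2) / (k : ℤ)))

theorem eq_of_res {x : Z2} {a : RR k} (h : res k x = a) :
    x = (k : ℤ) • (((x.1 - (rep k a).1) / (k : ℤ), (x.2 - (rep k a).2) / (k : ℤ)) : Z2) +
      rep k a := by
  have h1 : ((x.1 : ℤ) : ZMod k) = (((rep k a).1 : ℤ) : ZMod k) := by
    have := congrArg Prod.fst (h.trans (res_rep k a).symm)
    exact this
  have h2 : ((x.2 : ℤ) : ZMod k) = (((rep k a).2 : ℤ) : ZMod k) := by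
    have := congrArg Prod.snd (h.trans (res_rep k a).symm)
    exact this
  have d1 : (k : ℤ) ∣ x.1 - (rep k a).1 := by
    have := (ZMod.intCast_eq_intCast_iff_dvd_sub _ _ k).1 h1.symm
    exact this
  have d2 : (k : ℤ) ∣ x.2 - (rep k a).2 := by
    have := (ZMod.intCast_eq_intCast_iff_dvd_sub _ _ k).1 h2.symm
    exact this
  ext
  · simp only [Prod.fst_add, Prod.smul_fst, smul_eq_mul]
    rw [Int.mul_ediv_cancel' d1]
    ring
  · simp only [Prod.snd_add, Prod.smul_snd, smul_eq_mul]
    rw [Int.mul_ediv_cancel' d2]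
    ring

theorem mem_scaled {S : Finset Z2} {a : RR k} {y : Z2} :
    y ∈ scaled k S a ↔ (k : ℤ) • y + rep k a ∈ S := by
  have hk : (k : ℤ) ≠ 0 := by exact_mod_cast NeZero.ne k
  unfold scaled cl
  rw [mem_image]
  constructor
  · rintro ⟨x, hx, rfl⟩
    rw [mem_filter] at hx
    rw [← eq_of_res k hx.2]
    exact hx.1
  · intro h
    refine ⟨(k : ℤ) • y + rep k a, ?_, ?_⟩
    · rw [mem_filter]
      refine ⟨h, ?_⟩
      rw [res_add, res_smul, res_rep, zero_add]
    · ext
      · simp only [Prod.fst_add, Prod.smul_fst, smul_eq_mul, add_sub_cancel_right]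
        exact Int.mul_ediv_cancel_left _ hk
      · simp only [Prod.snd_add, Prod.smul_snd, smul_eq_mul, add_sub_cancel_right]
        exact Int.mul_ediv_cancel_left _ hk

theorem card_scaled (S : Finset Z2) (a : RR k) : (scaled k S a).card = (cl k S a).card := by
  unfold scaled
  apply card_image_of_injOn
  intro x hx y hy hxy
  unfold cl at hx hy
  rw [mem_coe, mem_filter] at hx hy
  rw [eq_of_res k hx.2, eq_of_res k hy.2]
  simp only at hxy
  rw [hxy]

theorem ch_scaled_le (S : Finset Z2) (a : RR k) (v : Z2) :
    ch v (scaled k S a) ≤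
      ((S.filter (fun x => x + (k : ℤ) • v ∉ S)).filter (fun x => res k x = a)).card := by
  unfold ch
  have hk : (k : ℤ) ≠ 0 := by exact_mod_cast NeZero.ne k
  apply Finset.card_le_card_of_injOn (fun y => (k : ℤ) • y + rep k a)
  · intro y hy
    rw [mem_coe, mem_filter, mem_scaled, mem_scaled] at hy
    rw [mem_coe, mem_filter, mem_filter]
    refine ⟨⟨hy.1, ?_⟩, ?_⟩
    · have : (k : ℤ) • (y + v) + rep k a = (k : ℤ) • y + rep k a + (k : ℤ) • v := by module
      rw [← this]
      exact hy.2
    · rw [res_add, res_smul, res_rep, zero_add]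
  · intro y _ y' _ h
    simp only at h
    have h1 : (k : ℤ) • y = (k : ℤ) • y' := add_right_cancel h
    have e1 := congrArg Prod.fst h1
    have e2 := congrArg Prod.snd h1
    simp only [Prod.smul_fst, Prod.smul_snd, smul_eq_mul] at e1 e2
    ext
    · exact mul_left_cancel₀ hk e1
    · exact mul_left_cancel₀ hk e2

theorem sum_cl (S : Finset Z2) : ∑ a : RR k, (cl k S a).card = S.card := by
  unfold cl
  exact (Finset.card_eq_sum_card_fiberwise (fun x _ => mem_univ (res k x))).symm

theorem sum_ch_scaled (S : Finset Z2) (v : Z2) :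
    ∑ a : RR k, ch v (scaled k S a) ≤ k * ch v S := by
  refine le_trans (Finset.sum_le_sum (fun a _ => ch_scaled_le k S a v)) ?_
  rw [Finset.sum_card_fiberwise_eq_card_filter]
  refine le_trans (card_filter_le _ _) ?_
  have h := ch_nsmul_le k v S
  rw [← natCast_zsmul] at h
  exact h

theorem sum_ff_scaled (V S : Finset Z2) :
    ∑ a : RR k, ff V (scaled k S a) ≤ k * ff V S := by
  simp only [ff_def]
  rw [Finset.sum_comm, Finset.mul_sum]
  exact Finset.sum_le_sum (fun v _ => sum_ch_scaled k S v)

/-- The classes differ little. -/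
theorem cl_le_add (S : Finset Z2) (a s : RR k) :
    (cl k S a).card ≤ ((S.filter (fun x => x + rep k s ∉ S)).filter (fun x => res k x = a)).card +
      (cl k S (a + s)).card := by
  have h : cl k S a ⊆ ((S.filter (fun x => x + rep k s ∉ S)).filter (fun x => res k x = a)) ∪
      (cl k S (a + s)).image (fun x => x - rep k s) := by
    intro x hx
    unfold cl at hx ⊢
    rw [mem_filter] at hx
    rw [mem_union, mem_filter, mem_filter, mem_image]
    by_cases hxs : x + rep k s ∈ S
    · right
      refine ⟨x + rep k s, ?_, by abel⟩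
      rw [mem_filter]
      refine ⟨hxs, ?_⟩
      rw [res_add, res_rep, hx.2]
    · left
      exact ⟨⟨hx.1, hxs⟩, hx.2⟩
  exact le_trans (card_le_card h) (le_trans (card_union_le _ _)
    (Nat.add_le_add_left card_image_le _))

theorem sum_shift (S : Finset Z2) (a : RR k) : ∑ s : RR k, (cl k S (a + s)).card = S.card := by
  rw [← sum_cl k S]
  exact Fintype.sum_equiv (Equiv.addLeft a) _ _ (fun s => rfl)

theorem card_RR : (Finset.univ : Finset (RR k)).card = k * k := by
  rw [Finset.card_univ, Fintype.card_prod, ZMod.card]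

theorem rep_lt (s : RR k) : (rep k s).1.natAbs ≤ k ∧ (rep k s).2.natAbs ≤ k := by
  unfold rep
  simp only [Int.natAbs_natCast]
  exact ⟨(ZMod.val_lt s.1).le, (ZMod.val_lt s.2).le⟩

/-- The classes with more than `m` points contain few points. -/
theorem sum_bad (S : Finset Z2) {m j : ℕ} (hj : 0 < j)
    (hN : j * S.card ≤ (j - 1) * (k * k * m)) :
    ∑ a ∈ (Finset.univ : Finset (RR k)).filter (fun a => m < (cl k S a).card), (cl k S a).card ≤
      j * k * (ch ((1, 0) : Z2) S + ch ((0, 1) : Z2) S) := by
  obtain ⟨c, hc⟩ : ∃ c, c = ch ((1, 0) : Z2) S + ch ((0, 1) : Z2) S := ⟨_, rfl⟩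
  rw [← hc]
  -- step 1: each bad class
  have h1 : ∀ a : RR k, k * k * (cl k S a).card ≤
      (∑ s : RR k, ((S.filter (fun x => x + rep k s ∉ S)).filter
        (fun x => res k x = a)).card) + S.card := by
    intro a
    have := Finset.sum_le_sum (fun s (_ : s ∈ (Finset.univ : Finset (RR k))) =>
      cl_le_add k S a s)
    rw [Finset.sum_const, card_RR, smul_eq_mul, Finset.sum_add_distrib, sum_shift] at this
    exact this
  have h2 : ∀ a ∈ (Finset.univ : Finset (RR k)).filter (fun a => m < (cl k S a).card),
      k * k * (cl k S a).card ≤ j * ∑ s : RR k, ((S.filter (fun x => x + rep k s ∉ S)).filter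
        (fun x => res k x = a)).card := by
    intro a ha
    rw [mem_filter] at ha
    have h3 := h1 a
    have h4 : (j - 1) * (k * k * m) ≤ (j - 1) * (k * k * (cl k S a).card) :=
      Nat.mul_le_mul_left _ (Nat.mul_le_mul_left _ ha.2.le)
    have h5 := Nat.mul_le_mul_left j h3
    rw [mul_add] at h5
    have h6 : j * (k * k * (cl k S a).card) =
        (j - 1) * (k * k * (cl k S a).card) + k * k * (cl k S a).card := by
      obtain ⟨i, rfl⟩ : ∃ i, j = i + 1 := ⟨j - 1, by omega⟩
      simp only [Nat.add_sub_cancel]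
      ring
    omega
  -- step 2: the sum over all classes
  have h3 : ∑ a ∈ (Finset.univ : Finset (RR k)).filter (fun a => m < (cl k S a).card),
      k * k * (cl k S a).card ≤ j * ∑ s : RR k, ch (rep k s) S := by
    refine le_trans (Finset.sum_le_sum h2) ?_
    rw [← Finset.mul_sum]
    apply Nat.mul_le_mul_left
    rw [Finset.sum_comm]
    apply Finset.sum_le_sum
    intro s _
    rw [Finset.sum_card_fiberwise_eq_card_filter]
    exact card_filter_le _ _
  have h4 : ∑ s : RR k, ch (rep k s) S ≤ k * k * (k * c) := by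
    calc ∑ s : RR k, ch (rep k s) S ≤ ∑ s : RR k, k * c := by
          apply Finset.sum_le_sum
          intro s _
          have h5 := ch_le_basic (AddMonoidHom.id Z2) (rep k s) S
          have h6 := rep_lt k s
          refine le_trans h5 ?_
          rw [hc, mul_add]
          exact add_le_add (Nat.mul_le_mul_right _ h6.1) (Nat.mul_le_mul_right _ h6.2)
      _ = k * k * (k * c) := by
          rw [Finset.sum_const, card_RR, smul_eq_mul]
  rw [← Finset.mul_sum] at h3
  have hk : 0 < k * k := Nat.mul_pos (NeZero.pos k) (NeZero.pos k)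
  have h5 : k * k * (∑ a ∈ (Finset.univ : Finset (RR k)).filter (fun a => m < (cl k S a).card),
      (cl k S a).card) ≤ k * k * (j * k * c) := by
    calc _ ≤ j * ∑ s : RR k, ch (rep k s) S := h3
      _ ≤ j * (k * k * (k * c)) := Nat.mul_le_mul_left _ h4
      _ = k * k * (j * k * c) := by ring
  exact Nat.le_of_mul_le_mul_left h5 hk

/-- **Scaling down.** -/
theorem scale_down (V S : Finset Z2) {m j L : ℕ} (hj : 0 < j)
    (hN : j * S.card ≤ (j - 1) * (k * k * m))
    (hL : ch ((1, 0) : Z2) S + ch ((0, 1) : Z2) S ≤ L * ff V S)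
    (hpos : j * k * (L * ff V S) < S.card) :
    ∃ T : Finset Z2, T.Nonempty ∧ T.card ≤ m ∧
      ff V T * (S.card - j * k * (L * ff V S)) ≤ k * ff V S * T.card := by
  by_contra hcon
  push Not at hcon
  have hbad := sum_bad k S hj hN
  have hbad' := le_trans hbad (Nat.mul_le_mul_left (j * k) hL)
  have hall := sum_cl k S
  rw [← Finset.sum_filter_add_sum_filter_not (Finset.univ : Finset (RR k))
    (fun a => m < (cl k S a).card)] at hall
  obtain ⟨G, hG⟩ : ∃ G, G = (Finset.univ : Finset (RR k)).filter
    (fun a => ¬ m < (cl k S a).card) := ⟨_, rfl⟩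
  rw [← hG] at hall
  have hgood : S.card - j * k * (L * ff V S) ≤ ∑ a ∈ G, (cl k S a).card := by omega
  have hff : ∑ a ∈ G, ff V (scaled k S a) ≤ k * ff V S :=
    le_trans (Finset.sum_le_sum_of_subset (Finset.subset_univ _)) (sum_ff_scaled k V S)
  have hle : ∀ a ∈ G, k * ff V S * (cl k S a).card ≤
      ff V (scaled k S a) * (S.card - j * k * (L * ff V S)) := by
    intro a ha
    by_cases hne : (scaled k S a).Nonempty
    · rw [hG, mem_filter] at ha
      have := hcon _ hne (by rw [card_scaled]; omega)
      rw [card_scaled] at this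
      exact this.le
    · rw [Finset.not_nonempty_iff_eq_empty] at hne
      rw [← card_scaled, hne, card_empty, mul_zero]
      exact Nat.zero_le _
  have hlt : ∑ a ∈ G, k * ff V S * (cl k S a).card <
      ∑ a ∈ G, ff V (scaled k S a) * (S.card - j * k * (L * ff V S)) := by
    apply Finset.sum_lt_sum hle
    -- some good class is nonempty
    by_contra hno
    push Not at hno
    have : ∑ a ∈ G, (cl k S a).card = 0 := by
      apply Finset.sum_eq_zero
      intro a ha
      by_contra hne
      have h1 := hno a ha
      have h2 : (scaled k S a).Nonempty := by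
        rw [← Finset.card_pos, card_scaled]
        omega
      rw [hG, mem_filter] at ha
      have h3 := hcon _ h2 (by rw [card_scaled]; omega)
      rw [card_scaled] at h3
      omega
    omega
  rw [← Finset.mul_sum, ← Finset.sum_mul] at hlt
  have h1 : k * ff V S * (S.card - j * k * (L * ff V S)) ≤
      k * ff V S * ∑ a ∈ G, (cl k S a).card := Nat.mul_le_mul_left _ hgood
  have h2 : (∑ a ∈ G, ff V (scaled k S a)) * (S.card - j * k * (L * ff V S)) ≤
      k * ff V S * (S.card - j * k * (L * ff V S)) := Nat.mul_le_mul_right _ hff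
  omega

end residues

end Pool.Agent.Lib.MP_602b76_co_Far
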